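import Pool.Agent.Lib.MP_1a91b9_ntX.LF.EulN
import Pool.Agent.Lib.MP_1a91b9_ntT.S7.HalfPlane

/-!
# The L-series of the curves isomorphic to `y² = x³ + D` or `y² = x³ - 27 D`

PROOF.
`LSeries_K`: for `2 < Re s` as `LSeries_E` in MP_1a91b9_ntT/S4 (MainA / MainB; find it: `hasProd_fac`, `hasProd_Lf` for `psC` and `psbC` with `AN.norm_psC_le`, `AN.norm_psbC_le`, product of the two, `loc_all`); then `3/2 < Re s` as `summable_32` in MP_1a91b9_ntT/S7/HalfPlane.lean.
`LSeries_N`: for `2 < Re s` as `LSeries_B` in MP_1a91b9_ntT/S4/FactorB.lean with `euler_N`; then `3/2 < Re s` as `summable_32B` in MP_1a91b9_ntT/S7/HalfPlane.lean.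
`Lf_conj`: as `Lf_conj` in MP_1a91b9_ntT/S4/MainA.lean. `half_Lf`: as `half_Lf` in MP_1a91b9_ntT/DW/Main.lean.
-/

set_option autoImplicit false

namespace Pool.Agent.Lib.MP_1a91b9_ntX.LF

open NumberField IsDedekindDomain Polynomial WeierstrassCurve Filter Topology LSeries
  Pool.Agent.Lib.MP_1a91b9_nt Pool.Agent.Lib.MP_1a91b9_ntT Pool.Agent.Lib.MP_1a91b9_ntT.S7
open Pool.Agent.Lib.MP_1a91b9_ntT.S4 (Lf)
open Pool.Agent.Lib.MP_1a91b9_ntX.AN (psC psbC)

universe u

/-- the range `2 < Re s` -/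
private theorem Ser_K2 [DD] [HC] {F : Type u} [Field F] [NumberField F] [Algebra K F] (h : Nice F)
    (hf : Free6 DD.D) (W : WeierstrassCurve F) (C : WeierstrassCurve.VariableChange F)
    (hC : C • W = crv ((DD.D : ℤ) : F)) (s : ℂ) (hs : 2 < s.re) :
    W.LSeries s = Lf (psC F) s * Lf (psbC F) s := by
  have hp := (S4.hasProd_Lf (psC F) (AN.psC_one F) (AN.psC_mul F) (1 / 2) (by norm_num)
    AN.norm_psC_le s (by linarith)).2
  have hq := (S4.hasProd_Lf (psbC F) (AN.psbC_one F) (AN.psbC_mul F) (1 / 2) (by norm_num)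
    AN.norm_psbC_le s (by linarith)).2
  have hpq := hp.mul hq
  have he := hasProd_fac W hs
  refine he.unique ?_
  have e : (fun w : HeightOneSpectrum (𝓞 F) => fac W w s) = fun w =>
      (1 - psC F w.asIdeal * (Ideal.absNorm w.asIdeal : ℂ) ^ (-s))⁻¹ *
      (1 - psbC F w.asIdeal * (Ideal.absNorm w.asIdeal : ℂ) ^ (-s))⁻¹ := by
    funext w
    rw [fac, nrm_eq, loc_all h hf w W C hC, mul_inv]
  rw [e]
  exact hpq

theorem LSeries_K [DD] [HC] {F : Type u} [Field F] [NumberField F] [Algebra K F] (h : Nice F)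
    (hf : Free6 DD.D) (W : WeierstrassCurve F) (C : WeierstrassCurve.VariableChange F)
    (hC : C • W = crv ((DD.D : ℤ) : F)) (s : ℂ) (hs : 3 / 2 < s.re) :
    W.LSeries s = Lf (psC F) s * Lf (psbC F) s := by
  have hp := hasSum_coefI_of_le (psC F) (AN.psC_one F) (AN.psC_mul F) AN.norm_psC_le
  have hq := hasSum_coefI_of_le (psbC F) (AN.psbC_one F) (AN.psbC_mul F) AN.norm_psbC_le
  have h1 := half_plane W (LSeries.convolution (coefI (psC F)) (coefI (psbC F)))
    (fun s hs => ((hp s hs).convolution (hq s hs)).LSeriesSummable)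
    (fun s hs => by
      have hs' : 3 / 2 < s.re := by linarith
      rw [Ser_K2 h hf W C hC s hs, ((hp s hs').convolution (hq s hs')).LSeries_eq]) s hs
  rw [h1.2, ((hp s hs).convolution (hq s hs)).LSeries_eq]

/-- the range `2 < Re s` -/
private theorem Ser_N2 [DD] [HC] {N F : Type u} [Field N] [NumberField N] [Field F] [NumberField F]
    [Algebra N F] [Algebra K F] (hL : Module.finrank N F = 2)
    (hn : ∀ x : N, algebraMap N F x ≠ algebraMap K F om) (h : Nice N) (hf : Free6 DD.D) (d : ℤ)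
    (hd : d = DD.D ∨ d = -27 * DD.D)
    (W : WeierstrassCurve N) (C : WeierstrassCurve.VariableChange N) (hC : C • W = crv (d : N))
    (s : ℂ) (hs : 2 < s.re) : W.LSeries s = Lf (psbC F) s := by
  have h1 := (S4.hasProd_Lf (psbC F) (AN.psbC_one F) (AN.psbC_mul F) (1 / 2) (by norm_num)
    AN.norm_psbC_le s (by linarith)).2
  have h2 := S4.hasProd_over (F := N) (F' := F) _ _ h1
  have he := hasProd_fac W hs
  refine he.unique ?_
  have e : (fun v : HeightOneSpectrum (𝓞 N) => fac W v s) = fun v => ∏ w : S4.Over F v,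
      (1 - psbC F w.1.asIdeal * (Ideal.absNorm w.1.asIdeal : ℂ) ^ (-s))⁻¹ :=
    funext fun v => (euler_N hL hn h hf d hd W C hC v s).symm
  rw [e]
  exact h2

theorem LSeries_N [DD] [HC] {N F : Type u} [Field N] [NumberField N] [Field F] [NumberField F]
    [Algebra N F] [Algebra K F] (hL : Module.finrank N F = 2)
    (hn : ∀ x : N, algebraMap N F x ≠ algebraMap K F om) (h : Nice N) (hf : Free6 DD.D) (d : ℤ)
    (hd : d = DD.D ∨ d = -27 * DD.D)
    (W : WeierstrassCurve N) (C : WeierstrassCurve.VariableChange N) (hC : C • W = crv (d : N))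
    (s : ℂ) (hs : 3 / 2 < s.re) : W.LSeries s = Lf (psbC F) s := by
  have hq := hasSum_coefI_of_le (psbC F) (AN.psbC_one F) (AN.psbC_mul F) AN.norm_psbC_le
  have h1 := half_plane W (coefI (psbC F)) (fun s hs => (hq s hs).LSeriesSummable)
    (fun s hs => by
      rw [Ser_N2 hL hn h hf d hd W C hC s hs, (hq s (by linarith)).LSeries_eq]) s hs
  rw [h1.2, (hq s hs).LSeries_eq]

theorem Lf_conj [DD] [HC] {F : Type u} [Field F] [NumberField F] [Algebra K F] (s : ℂ) :
    Lf (psC F) s = (starRingEnd ℂ) (Lf (psbC F) ((starRingEnd ℂ) s)) := by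
  rw [Lf, Lf, Complex.conj_tsum]
  refine tsum_congr fun I => ?_
  rw [map_mul, psbC, Complex.conj_conj]
  congr 1
  rw [← map_neg, Complex.cpow_conj _ _ (by
    rw [Complex.natCast_arg]
    exact Real.pi_pos.ne), Complex.conj_natCast, Complex.conj_conj]

/-- from `2 < Re s` to `3/2 < Re s` -/
theorem half_Lf [DD] [HC] {F : Type u} [Field F] [NumberField F] [Algebra K F] {g : ℂ → ℂ}
    (hg : Differentiable ℂ g) (h2 : ∀ s : ℂ, 2 < s.re → g s = Lf (psbC F) s) :
    ∀ s : ℂ, 3 / 2 < s.re → g s = Lf (psbC F) s := by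
  have hq := hasSum_coefI_of_le (psbC F) (AN.psbC_one F) (AN.psbC_mul F) AN.norm_psbC_le
  set b : ℕ → ℂ := coefI (psbC F) with hb
  have hab : abscissaOfAbsConv b ≤ ((3 / 2 : ℝ) : EReal) := by
    refine LSeries.abscissaOfAbsConv_le_of_forall_lt_LSeriesSummable fun y hy => ?_
    exact (hq y (by simpa using hy)).LSeriesSummable
  have hL : AnalyticOnNhd ℂ (LSeries b) {s : ℂ | 3 / 2 < s.re} := by
    refine (LSeries_analyticOnNhd b).mono fun s hs => ?_
    exact hab.trans_lt (by exact_mod_cast hs)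
  have hG : AnalyticOnNhd ℂ g {s : ℂ | 3 / 2 < s.re} := fun s _ => hg.analyticAt s
  have hc : IsPreconnected {s : ℂ | 3 / 2 < s.re} := (convex_halfSpace_re_gt _).isPreconnected
  have h3 : (3 : ℂ) ∈ {s : ℂ | 3 / 2 < s.re} := by norm_num
  have hev : g =ᶠ[𝓝 (3 : ℂ)] LSeries b := by
    have ho : IsOpen {s : ℂ | 2 < s.re} := isOpen_lt continuous_const Complex.continuous_re
    filter_upwards [ho.mem_nhds (show (3 : ℂ) ∈ {s : ℂ | 2 < s.re} by norm_num)] with s hs
    have hs' : 2 < s.re := hs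
    rw [h2 s hs', (hq s (by linarith)).LSeries_eq]
  intro s hs
  rw [hG.eqOn_of_preconnected_of_eventuallyEq hL hc h3 hev hs, (hq s hs).LSeries_eq]

end Pool.Agent.Lib.MP_1a91b9_ntX.LF
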