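import Pool.Agent.Lib.MP_1a91b9_ntX.LF.Defs
import Pool.Agent.Lib.MP_1a91b9_ntT.S4.FactorB

/-!
# The cubic residue character at a place of `F` not above `3`, and the value of the old character `S4.psi`

PROOF. this is contained in the proof of `exists_psi` in MP_1a91b9_ntT/S4/Psi.lean (copy it): the character `χ` is given by `u4_exists_char`, `J = jacobiSum χ χ`; there it is shown that
`3 ∣ -J - 1`, `Ideal.span {-J} = Ideal.relNorm (𝓞 K) w.asIdeal`, `J * J' = nrm w` (`J' = jacobiSum (χ ^ 2) (χ ^ 2)`), `conj (embK J) = embK J'`.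
`S4.psi F w = psiK (relNorm w) = psiK (span {-J}) = -J` by `S4.psiK_span` (file S4/PsiDef.lean).
(The `Fintype` instance in the statement is arbitrary; `jacobiSum` and `Fintype.card` with respect to it.)
-/

set_option autoImplicit false

namespace Pool.Agent.Lib.MP_1a91b9_ntX.LF

open NumberField IsDedekindDomain Polynomial Pool.Agent.Lib.MP_1a91b9_nt
  Pool.Agent.Lib.MP_1a91b9_ntT Pool.Agent.Lib.MP_1a91b9_ntT.S4

theorem exists_chi {F : Type*} [Field F] [NumberField F] [Algebra K F]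
    (w : HeightOneSpectrum (𝓞 F)) (h3 : (3 : 𝓞 F) ∉ w.asIdeal)
    [Fintype (IsLocalRing.ResidueField (w.adicCompletionIntegers F))] :
    ∃ χ : MulChar (IsLocalRing.ResidueField (w.adicCompletionIntegers F)) (𝓞 K),
      χ ^ 3 = 1 ∧ χ ≠ 1 ∧ (∀ x, redMap K w (χ x) = x ^ ((nrm w - 1) / 3)) ∧ 3 ∣ nrm w - 1 ∧
      S4.psi F w.asIdeal = -jacobiSum χ χ ∧
      (starRingEnd ℂ) (embK ((jacobiSum χ χ : 𝓞 K) : K)) =
        embK ((jacobiSum (χ ^ 2) (χ ^ 2) : 𝓞 K) : K) ∧
      jacobiSum χ χ * jacobiSum (χ ^ 2) (χ ^ 2) = (nrm w : 𝓞 K) := by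
  classical
  set ρ : 𝓞 K →+* IsLocalRing.ResidueField (w.adicCompletionIntegers F) := redMap K w with hρ
  have hker : RingHom.ker ρ = w.asIdeal.under (𝓞 K) := redMap_ker w
  have hcard : Fintype.card (IsLocalRing.ResidueField (w.adicCompletionIntegers F)) = nrm w := by rw [nrm, Nat.card_eq_fintype_card]
  -- `3` is not zero in `k`
  have h3k : (3 : IsLocalRing.ResidueField (w.adicCompletionIntegers F)) ≠ 0 := by
    intro h
    have h4 : (3 : 𝓞 K) ∈ RingHom.ker ρ := by rw [RingHom.mem_ker, map_ofNat]; exact h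
    rw [hker] at h4
    apply h3
    have h5 : algebraMap (𝓞 K) (𝓞 F) 3 ∈ w.asIdeal := h4
    rwa [map_ofNat] at h5
  -- the characteristic
  obtain ⟨p, hpchar⟩ := CharP.exists (IsLocalRing.ResidueField (w.adicCompletionIntegers F))
  have hpp : Fact p.Prime := ⟨(CharP.char_is_prime_or_zero (IsLocalRing.ResidueField (w.adicCompletionIntegers F)) p).resolve_right
    (CharP.char_ne_zero_of_finite (IsLocalRing.ResidueField (w.adicCompletionIntegers F)) p)⟩
  have hp3 : p ≠ 3 := by
    rintro rfl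
    exact h3k (by exact_mod_cast CharP.cast_eq_zero (IsLocalRing.ResidueField (w.adicCompletionIntegers F)) 3)
  -- divisibility of `q - 1`
  have hdvd : 3 ∣ nrm w - 1 := by
    refine u4_three_dvd w h3 (algebraMap (𝓞 K) (𝓞 F) omO) ?_
    rw [← map_pow, ← map_add, ← map_one (algebraMap (𝓞 K) (𝓞 F)), ← map_add, omO_eq, map_zero]
  obtain ⟨m, hm⟩ := hdvd
  have hq : Fintype.card (IsLocalRing.ResidueField (w.adicCompletionIntegers F)) - 1 = 3 * m := by rw [hcard, hm]
  obtain ⟨χ, hχ3, hχ1, hχρ, hχv⟩ := u4_exists_char ρ omO omO_eq h3k m hq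
  set J := jacobiSum χ χ with hJ
  set J' := jacobiSum (χ ^ 2) (χ ^ 2) with hJ'
  have hJJ : J * J' = (nrm w : 𝓞 K) := by
    rw [← hcard]
    exact u4_jac_mul p χ hχ3 hχ1
  have hnpos : 0 < nrm w := by rw [← hcard]; exact Fintype.card_pos
  have hJ0 : J ≠ 0 := by
    intro h
    rw [h, zero_mul] at hJJ
    exact hnpos.ne' (by exact_mod_cast hJJ.symm)
  -- embedding
  set τ : 𝓞 K →+* ℂ := embK.toRingHom.comp (algebraMap (𝓞 K) K) with hτ
  have hτa : ∀ x : 𝓞 K, τ x = embK (x : K) := fun _ => rfl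
  have hconj : (starRingEnd ℂ) (τ J) = τ J' := by
    have h := u4_jac_conj omO omO_eq χ hχv ((starRingEnd ℂ).comp τ) τ (by
      rw [RingHom.comp_apply, hτa, embK_omO, conj_zt, map_sub, map_neg, map_one, hτa, embK_omO])
    exact h
  have hm3 : (nrm w - 1) / 3 = m := by
    rw [hm]
    omega
  -- the residue modulo `3`
  have hmod : (3 : 𝓞 K) ∣ -J - 1 := by
    have h := u4_jac_mod omO omO_eq χ hχ3 (by rw [hq]; exact Dvd.intro _ rfl)
    have e : -J - 1 = -(J + 1) := by ring
    rw [e]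
    exact (dvd_neg).mpr h
  -- the ideal
  have hideal : Ideal.span {-J} = Ideal.relNorm (𝓞 K) w.asIdeal := by
    rw [Ideal.span_singleton_neg]
    set P := RingHom.ker ρ with hP
    have hPprime : P.IsPrime := RingHom.ker_isPrime ρ
    have hpP : (p : 𝓞 K) ∈ P := by
      rw [hP, RingHom.mem_ker, map_natCast]
      exact CharP.cast_eq_zero (IsLocalRing.ResidueField (w.adicCompletionIntegers F)) p
    have hPb : P ≠ ⊥ := by
      intro h
      rw [h] at hpP
      exact hpp.out.ne_zero (by exact_mod_cast (by simpa using hpP : (p : 𝓞 K) = 0))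
    have hPmax : P.IsMaximal := Ideal.IsPrime.isMaximal inferInstance hPb
    have hlo : w.asIdeal.LiesOver P := ⟨hker⟩
    have hwmax : w.asIdeal.IsMaximal := w.isMaximal
    have hrel : Ideal.relNorm (𝓞 K) w.asIdeal = P ^ w.asIdeal.inertiaDeg (𝓞 K) :=
      Ideal.relNorm_eq_pow_of_isMaximal w.asIdeal P
    rw [hrel]
    -- the power of `P`
    have hJspan : Ideal.span {J} ≠ ⊥ := by rw [Ne, Ideal.span_singleton_eq_bot]; exact hJ0
    have hfm : FiniteMultiplicity P (Ideal.span {J}) :=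
      FiniteMultiplicity.of_prime_left (Ideal.prime_of_isPrime hPb hPprime) hJspan
    obtain ⟨I, hI, hPI⟩ := hfm.exists_eq_pow_mul_and_not_dvd
    have hItop : I = ⊤ := by
      by_contra hne
      obtain ⟨Q, hQm, hIQ⟩ := Ideal.exists_le_maximal I hne
      have hJQ : J ∈ Q := by
        have h1 : Ideal.span {J} ≤ Q := by
          rw [hI]
          exact (Ideal.mul_le_right).trans hIQ
        exact h1 (Ideal.mem_span_singleton_self J)
      have hQp : Q.IsPrime := hQm.isPrime
      have := u4_jac_prime p hp3 omO omO_eq ρ χ hχ3 hχ1 hχv m hq hχρ Q hJQ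
      apply hPI
      rw [Ideal.dvd_iff_le, hP, ← this]
      exact hIQ
    rw [hItop, Ideal.mul_top] at hI
    rw [hI]
    -- comparison of norms
    have hnJ : Ideal.absNorm (Ideal.span {J}) = nrm w := by
      obtain ⟨σ, hσ⟩ := u4_conj omO omO_eq
      have hσJ : σ J = J' := by
        have h := u4_jac_conj omO omO_eq χ hχv σ.toRingHom (RingHom.id _) (by simpa using hσ)
        simpa using h
      have e1 : Ideal.absNorm (Ideal.span {J'}) = Ideal.absNorm (Ideal.span {J}) := by
        rw [Ideal.absNorm_span_singleton, Ideal.absNorm_span_singleton, ← hσJ]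
        let σ' : 𝓞 K ≃ₐ[ℤ] 𝓞 K := AlgEquiv.ofRingEquiv (f := σ) (fun n => by simp)
        have e3 : Algebra.norm ℤ (σ J) = Algebra.norm ℤ J := Algebra.norm_eq_of_algEquiv σ' J
        rw [e3]
      have e2 : Ideal.absNorm (Ideal.span {J}) * Ideal.absNorm (Ideal.span {J'}) = nrm w ^ 2 := by
        rw [← map_mul, Ideal.span_singleton_mul_span_singleton, hJJ]
        exact u4_absNorm_p (nrm w)
      rw [e1, ← pow_two] at e2
      exact (Nat.pow_left_injective (n := 2) (by norm_num)) e2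
    have hnP : nrm w = Ideal.absNorm P ^ w.asIdeal.inertiaDeg (𝓞 K) := by
      rw [nrm_eq, Ideal.absNorm_pow_inertiaDeg P w.asIdeal]
    have h1 : Ideal.absNorm P ^ multiplicity P (Ideal.span {J}) =
        Ideal.absNorm P ^ w.asIdeal.inertiaDeg (𝓞 K) := by
      rw [← hnP, ← hnJ]
      conv_rhs => rw [hI]
      rw [map_pow]
    have hP2 : 2 ≤ Ideal.absNorm P := by
      have h0 : Ideal.absNorm P ≠ 0 := Ideal.absNorm_ne_zero_iff_mem_nonZeroDivisors.mpr
        (mem_nonZeroDivisors_iff_ne_zero.mpr hPb)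
      have h1 : Ideal.absNorm P ≠ 1 := by
        rw [Ne, Ideal.absNorm_eq_one_iff]
        exact hPmax.ne_top
      omega
    rw [Nat.pow_right_injective hP2 h1]
  refine ⟨χ, hχ3, hχ1, ?_, ⟨m, hm⟩, ?_, hconj, hJJ⟩
  · rw [hm3]
    exact hχρ
  · show psiK (Ideal.relNorm (𝓞 K) w.asIdeal) = -J
    rw [← hideal]
    exact psiK_span (-J) hmod

end Pool.Agent.Lib.MP_1a91b9_ntX.LF
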