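import Pool.Agent.Lib.MP_1a91b9_ntX.LF.Defs
import Mathlib.NumberTheory.LegendreSymbol.QuadraticChar.Basic

/-!
# The number of points of `y² = x³ + d` over a finite field

PROOF. SEE Pool/Agent/Lib/MP_1a91b9_ntT/S4/Count.lean (`u4_card_point`, `card_fermatCubic_of_two`, `u4_cube_count`, `card_fermatCubic_of_one`): same
method, copy.
`crv_card_point`: `Δ = -432 d² ≠ 0` (`crv_Δ`, `432 = 2^4 * 3^3`), so all the solutions of `y² = x³ + d` are nonsingular points; fiber over `a = x³`: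
number of points `= 1 + Σ_a #{x : x³ = a} * #{y : y² = a + d}`.
`card_crv_of_two`: `3 ∤ q - 1`: every `a` is the cube of exactly one `x`; so the number is `1 + Σ_y 1 = 1 + q` (fiber over `y`).
`card_crv_of_one`: `#{x : x³ = a} = 1 + χ a + χ⁻¹ a` (`S4.u4_cube_count`), `#{y : y² = b} = 1 + η b`, `η = (quadraticChar k).ringHomComp (Int.castRingHom ℂ)`
(`quadraticChar_card_sqrts`). `Σ_a (1 + χ a + χ⁻¹ a)(1 + η (a + d)) = q + Σ_a χ a η (a + d) + Σ_a χ⁻¹ a η (a + d)` (`MulChar.sum_eq_zero_of_ne_one`, translation). For `ρ = χ` or `χ⁻¹` (`ρ³ = 1`,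
`ρ (-1) = 1`): substitute `a = -d t`: `Σ_a ρ a η (a + d) = ρ d η d Σ_t ρ t η (1 - t) = ρ d η d J(ρ, η)`; and `J(ρ, η) = ρ 4 J(ρ, ρ)`:
`J(ρ, ρ) = Σ_t ρ (t (1 - t))`, `t (1 - t) = (1 - (2 t - 1)²)/4`, so `ρ 4 J(ρ, ρ) = Σ_s ρ (1 - s²) = Σ_w ρ (1 - w) (1 + η w) = Σ_w ρ (1 - w) η w = J(ρ, η)` (`w ↦ 1 - w`).
-/

set_option autoImplicit false

namespace Pool.Agent.Lib.MP_1a91b9_ntX.LF

open WeierstrassCurve Pool.Agent.Lib.MP_1a91b9_nt Pool.Agent.Lib.MP_1a91b9_ntT
  Pool.Agent.Lib.MP_1a91b9_ntT.S4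

/-- the quadratic character with complex values -/
noncomputable def etaC (k : Type*) [Field k] [Fintype k] [DecidableEq k] : MulChar k ℂ :=
  (quadraticChar k).ringHomComp (Int.castRingHom ℂ)

private theorem CntA_card_point {k : Type*} [Field k] [Fintype k] [DecidableEq k]
    (h2 : (2 : k) ≠ 0) (h3 : (3 : k) ≠ 0) (d : k) (hd : d ≠ 0) :
    Nat.card (crv d).toAffine.Point =
      1 + ∑ a : k, (Finset.univ.filter fun x : k => x ^ 3 = a).card *
        (Finset.univ.filter fun y : k => y ^ 2 = a + d).card := by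
  classical
  have hns : ∀ p : k × k, (crv d).toAffine.Nonsingular p.1 p.2 ↔
      p.2 ^ 2 = p.1 ^ 3 + d := by
    intro p
    have hell : (crv d).Δ ≠ 0 := by
      rw [crv_Δ]
      have : (432 : k) = 2 ^ 4 * 3 ^ 3 := by norm_num
      rw [neg_ne_zero, this]
      exact mul_ne_zero (mul_ne_zero (pow_ne_zero 4 h2) (pow_ne_zero 3 h3)) (pow_ne_zero 2 hd)
    have hE : (crv d).IsElliptic := ⟨isUnit_iff_ne_zero.mpr hell⟩
    rw [← WeierstrassCurve.Affine.equation_iff_nonsingular,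
      WeierstrassCurve.Affine.equation_iff]
    simp only [crv, WeierstrassCurve.toAffine]
    constructor
    · intro h
      linear_combination h
    · intro h
      linear_combination h
  rw [Nat.card_congr (pointEquivOption _), Finite.card_option, add_comm]
  congr 1
  rw [Nat.card_eq_fintype_card, Fintype.card_subtype]
  have e1 : (Finset.univ.filter fun p : k × k => (crv d).toAffine.Nonsingular p.1 p.2) =
      Finset.univ.filter fun p : k × k => p.2 ^ 2 = p.1 ^ 3 + d :=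
    Finset.filter_congr fun p _ => hns p
  rw [e1, Finset.card_eq_sum_card_fiberwise (f := fun p : k × k => p.1 ^ 3) (t := Finset.univ)
    (fun _ _ => Finset.mem_coe.mpr (Finset.mem_univ _))]
  refine Finset.sum_congr rfl fun a _ => ?_
  rw [← Finset.card_product]
  apply congrArg
  ext ⟨x, y⟩
  simp only [Finset.mem_filter, Finset.mem_univ, true_and, Finset.mem_product]
  constructor
  · rintro ⟨h, rfl⟩
    exact ⟨rfl, h⟩
  · rintro ⟨rfl, h⟩
    exact ⟨h, rfl⟩

private theorem CntA_eta_count {k : Type*} [Field k] [Fintype k] [DecidableEq k]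
    (hF : ringChar k ≠ 2) (b : k) :
    ((Finset.univ.filter fun y : k => y ^ 2 = b).card : ℂ) = 1 + etaC k b := by
  have h := quadraticChar_card_sqrts hF b
  have e : (Finset.univ.filter fun y : k => y ^ 2 = b) = {x : k | x ^ 2 = b}.toFinset := by
    ext x
    simp
  rw [e]
  have h' := congrArg (Int.cast : ℤ → ℂ) h
  rw [Int.cast_natCast, Int.cast_add, Int.cast_one] at h'
  rw [h', etaC, MulChar.ringHomComp_apply, add_comm]
  rfl

private theorem CntA_ringChar {k : Type*} [Field k] (h2 : (2 : k) ≠ 0) : ringChar k ≠ 2 := by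
  intro h
  apply h2
  have h1 := ringChar.Nat.cast_ringChar (R := k)
  rw [h] at h1
  exact_mod_cast h1

private theorem CntA_eta_ne {k : Type*} [Field k] [Fintype k] [DecidableEq k]
    (hF : ringChar k ≠ 2) : etaC k ≠ 1 := by
  unfold etaC
  rw [Ne, MulChar.ringHomComp_eq_one_iff (Int.castRingHom ℂ).injective_int]
  exact quadraticChar_ne_one hF

private theorem CntA_neg_one {k : Type*} [Field k] (ψ : MulChar k ℂ) (hψ : ψ ^ 3 = 1) :
    ψ (-1) = 1 := by
  have e : ψ (-1) = (ψ ^ 3) (-1) := by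
    rw [MulChar.pow_apply' _ (by norm_num), ← map_pow]
    apply congrArg
    ring
  rw [e, hψ, MulChar.one_apply]
  exact isUnit_one.neg

/-- `J(ρ, η) = ρ 4 J(ρ, ρ)` -/
private theorem CntA_jac {k : Type*} [Field k] [Fintype k] [DecidableEq k] (h2 : (2 : k) ≠ 0)
    (ρ : MulChar k ℂ) (hρ : ρ ≠ 1) : jacobiSum ρ (etaC k) = ρ 4 * jacobiSum ρ ρ := by
  have hF := CntA_ringChar h2
  have e1 : ρ 4 * jacobiSum ρ ρ = ∑ s : k, ρ (1 - s ^ 2) := by
    rw [jacobiSum, Finset.mul_sum]
    rw [← Equiv.sum_comp ((Equiv.mulLeft₀ (2 : k) h2).trans (Equiv.subRight (1 : k)))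
      (fun s => ρ (1 - s ^ 2))]
    refine Finset.sum_congr rfl fun t _ => ?_
    rw [← map_mul, ← map_mul]
    apply congrArg
    have h1 : ((Equiv.mulLeft₀ (2 : k) h2).trans (Equiv.subRight (1 : k))) t = 2 * t - 1 := rfl
    rw [h1]
    ring
  have e2 : ∑ s : k, ρ (1 - s ^ 2) =
      ∑ w : k, ρ (1 - w) * ((Finset.univ.filter fun y : k => y ^ 2 = w).card : ℂ) := by
    rw [← Finset.sum_fiberwise_of_maps_to (s := Finset.univ) (t := Finset.univ)
      (g := fun s : k => s ^ 2) (fun _ _ => Finset.mem_univ _)]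
    refine Finset.sum_congr rfl fun w _ => ?_
    rw [Finset.sum_congr rfl (g := fun _ => ρ (1 - w)) (fun s hs => by
      rw [(Finset.mem_filter.mp hs).2]), Finset.sum_const, nsmul_eq_mul, mul_comm]
  have e3 : ∑ w : k, ρ (1 - w) = 0 := by
    rw [← MulChar.sum_eq_zero_of_ne_one hρ, ← Equiv.sum_comp (Equiv.subLeft (1 : k)) ρ]
    exact Finset.sum_congr rfl fun w _ => by rw [Equiv.subLeft_apply]
  have e4 : ∑ w : k, ρ (1 - w) * etaC k w = jacobiSum ρ (etaC k) := by
    rw [jacobiSum, ← Equiv.sum_comp (Equiv.subLeft (1 : k)) (fun x => ρ x * etaC k (1 - x))]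
    refine Finset.sum_congr rfl fun w _ => ?_
    rw [Equiv.subLeft_apply, sub_sub_cancel]
  rw [e1, e2, ← e4]
  have e5 : ∀ w : k, ρ (1 - w) * ((Finset.univ.filter fun y : k => y ^ 2 = w).card : ℂ) =
      ρ (1 - w) + ρ (1 - w) * etaC k w := by
    intro w
    rw [CntA_eta_count hF]
    ring
  rw [Finset.sum_congr rfl fun w _ => e5 w, Finset.sum_add_distrib, e3, zero_add]

private theorem CntA_sum {k : Type*} [Field k] [Fintype k] [DecidableEq k] (h2 : (2 : k) ≠ 0)
    (ρ : MulChar k ℂ) (hρ : ρ ≠ 1) (hρ3 : ρ ^ 3 = 1) (d : k) (hd : d ≠ 0) :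
    ∑ a : k, ρ a * etaC k (a + d) = ρ (4 * d) * etaC k d * jacobiSum ρ ρ := by
  have hnd : -d ≠ 0 := neg_ne_zero.mpr hd
  rw [← Equiv.sum_comp (Equiv.mulLeft₀ (-d) hnd) (fun a => ρ a * etaC k (a + d))]
  have e1 : ∀ t : k, ρ (Equiv.mulLeft₀ (-d) hnd t) * etaC k (Equiv.mulLeft₀ (-d) hnd t + d) =
      ρ d * etaC k d * (ρ t * etaC k (1 - t)) := by
    intro t
    have h0 : Equiv.mulLeft₀ (-d) hnd t = -d * t := rfl
    rw [h0]
    have h1 : -d * t = (-1) * (d * t) := by ring
    have h3 : -d * t + d = d * (1 - t) := by ring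
    rw [h3, h1, map_mul, CntA_neg_one ρ hρ3, map_mul, map_mul]
    ring
  rw [Finset.sum_congr rfl fun t _ => e1 t, ← Finset.mul_sum]
  have e2 : ∑ t : k, ρ t * etaC k (1 - t) = ρ 4 * jacobiSum ρ ρ := CntA_jac h2 ρ hρ
  rw [e2, map_mul]
  ring

/-- If cubing is bijective there are `q + 1` points. -/
theorem card_crv_of_two {k : Type*} [Field k] [Finite k] (h2 : (2 : k) ≠ 0) (h3 : (3 : k) ≠ 0)
    (d : k) (hd : d ≠ 0) (hq : ¬ 3 ∣ Nat.card k - 1) :
    Nat.card (crv d).toAffine.Point = Nat.card k + 1 := by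
  classical
  have := Fintype.ofFinite k
  rw [Nat.card_eq_fintype_card (α := k)] at hq ⊢
  rw [CntA_card_point h2 h3 d hd, add_comm]
  congr 1
  have hcop : Nat.Coprime 3 (Fintype.card kˣ) := by
    rw [Fintype.card_units]
    exact (Nat.Prime.coprime_iff_not_dvd Nat.prime_three).mpr hq
  have hinj : Function.Injective fun x : k => x ^ 3 := by
    intro x y hxy
    have hxy' : x ^ 3 = y ^ 3 := hxy
    by_cases hx : x = 0
    · subst hx
      rw [zero_pow (by norm_num)] at hxy'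
      exact (pow_eq_zero_iff (by norm_num) |>.mp hxy'.symm).symm
    · have hy : y ≠ 0 := by
        rintro rfl
        rw [zero_pow (by norm_num)] at hxy'
        exact hx (pow_eq_zero_iff (by norm_num) |>.mp hxy')
      have h1 : (Units.mk0 x hx) ^ 3 = (Units.mk0 y hy) ^ 3 := by
        ext
        simpa using hxy'
      have h2 := (powCoprime (G := kˣ) (n := 3) (by
        rw [Nat.card_eq_fintype_card]; exact hcop.symm)).injective (a₁ := Units.mk0 x hx)
          (a₂ := Units.mk0 y hy) h1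
      simpa using congrArg Units.val h2
  have hbij := Finite.injective_iff_bijective.mp hinj
  have hone : ∀ a : k, (Finset.univ.filter fun x : k => x ^ 3 = a).card = 1 := by
    intro a
    obtain ⟨x, hx⟩ := hbij.2 a
    rw [Finset.card_eq_one]
    refine ⟨x, ?_⟩
    ext z
    simp only [Finset.mem_filter, Finset.mem_univ, true_and, Finset.mem_singleton]
    constructor
    · intro hz
      exact hinj (hz.trans hx.symm)
    · rintro rfl
      exact hx
  have hall : Fintype.card k =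
      ∑ a : k, (Finset.univ.filter fun y : k => y ^ 2 = a + d).card := by
    rw [← Finset.card_univ, Finset.card_eq_sum_card_fiberwise (f := fun y : k => y ^ 2 - d)
      (t := Finset.univ) (fun _ _ => Finset.mem_coe.mpr (Finset.mem_univ _))]
    refine Finset.sum_congr rfl fun a _ => ?_
    apply congrArg
    exact Finset.filter_congr fun y _ => sub_eq_iff_eq_add
  rw [hall]
  exact Finset.sum_congr rfl fun a _ => by rw [hone, one_mul]

/-- The number of points by Jacobi sums. -/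
theorem card_crv_of_one {k : Type*} [Field k] [Fintype k] [DecidableEq k] (h2 : (2 : k) ≠ 0)
    (h3 : (3 : k) ≠ 0) (d : k) (hd : d ≠ 0)
    (χ : MulChar k ℂ) (hχ : χ ≠ 1) (hχ3 : χ ^ 3 = 1) (hq : 3 ∣ Fintype.card k - 1) :
    (Nat.card (crv d).toAffine.Point : ℂ) =
      Fintype.card k + 1 + χ (4 * d) * etaC k d * jacobiSum χ χ +
        χ⁻¹ (4 * d) * etaC k d * jacobiSum χ⁻¹ χ⁻¹ := by
  have hF := CntA_ringChar h2
  have hχ' : χ⁻¹ ≠ 1 := fun h => hχ (inv_eq_one.mp h)
  have hχ3' : χ⁻¹ ^ 3 = 1 := by rw [inv_pow, hχ3, inv_one]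
  rw [CntA_card_point h2 h3 d hd]
  push_cast
  have e1 : ∀ a : k, ((Finset.univ.filter fun x : k => x ^ 3 = a).card : ℂ) *
      ((Finset.univ.filter fun y : k => y ^ 2 = a + d).card : ℂ) =
      1 + χ a + χ⁻¹ a + etaC k (a + d) + χ a * etaC k (a + d) + χ⁻¹ a * etaC k (a + d) := by
    intro a
    rw [u4_cube_count χ hχ hχ3 hq, CntA_eta_count hF]
    ring
  have e2 : ∑ a : k, etaC k (a + d) = 0 := by
    rw [← MulChar.sum_eq_zero_of_ne_one (CntA_eta_ne hF),
      ← Equiv.sum_comp (Equiv.addRight d) (etaC k)]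
    exact Finset.sum_congr rfl fun w _ => by rw [Equiv.coe_addRight]
  rw [Finset.sum_congr rfl fun a _ => e1 a, Finset.sum_add_distrib, Finset.sum_add_distrib,
    Finset.sum_add_distrib, Finset.sum_add_distrib, Finset.sum_add_distrib,
    CntA_sum h2 χ hχ hχ3 d hd, CntA_sum h2 χ⁻¹ hχ' hχ3' d hd,
    MulChar.sum_eq_zero_of_ne_one hχ, MulChar.sum_eq_zero_of_ne_one hχ', e2, Finset.sum_const,
    Finset.card_univ, nsmul_eq_mul]
  ring

end Pool.Agent.Lib.MP_1a91b9_ntX.LF
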