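import Pool.Agent.Lib.MP_1a91b9_ntX.LF.Defs
import Pool.Agent.Lib.MP_1a91b9_ntT.S4.FactorB

/-!
# Local polynomials of the curves isomorphic to `y² = x³ + d` at the places of good reduction

PROOF.
`locPoly_crv`, `locPoly_crm`: `locPoly_of_model` (file MP_1a91b9_nt/LocDep.lean) with `F := N`, `K := N` (as `locPoly_model` in MP_1a91b9_ntT/S4/FactorB.lean; `W.baseChange N = W` is `WeierstrassCurve.map_id`),
`C` and the integral model `crv (d : 𝓞 N)`, resp. `C' * C` (`C'` from `exists_crm` with `m : N`) and `crm (m : 𝓞 N)`; `crv_map`, `crm_map`, `crv_Δ`, `crm_Δ`, `map_intCast`. The discriminants: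
`-(432 d²)` in the prime `v` gives `2`, `3` or `d` in `v` (`432 = 2^4 3^3`), so `6 d ∈ v`; `-(27 (4 m + 1)²) ∈ v` and `2 ∈ v` give `1 ∈ v` (`27 (4m+1)² = 1 + 2 n`).
`crv_neg27`: `s² = -3`, `s ^ 6 = -27`, `exists_scale`.
-/

set_option autoImplicit false

namespace Pool.Agent.Lib.MP_1a91b9_ntX.LF

open NumberField IsDedekindDomain Polynomial WeierstrassCurve Pool.Agent.Lib.MP_1a91b9_nt
  Pool.Agent.Lib.MP_1a91b9_ntT

variable {N : Type*} [Field N] [NumberField N]

/-- the local polynomial at a place not dividing `6 d` -/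
theorem locPoly_crv (v : HeightOneSpectrum (𝓞 N)) (d : ℤ) (h6 : ((6 * d : ℤ) : 𝓞 N) ∉ v.asIdeal)
    (W : WeierstrassCurve N) (C : WeierstrassCurve.VariableChange N) (hC : C • W = crv (d : N)) :
    locPoly W v = 1 - Polynomial.C ((nrm v : ℤ) + 1 - Nat.card (crv
      ((d : ℤ) : IsLocalRing.ResidueField (v.adicCompletionIntegers N))).toAffine.Point) * X
      + Polynomial.C (nrm v : ℤ) * X ^ 2 := by
  have hmodel : locPoly (W.baseChange N) v = _ :=
      locPoly_of_model (F := N) (K := N) W C (crv ((d : ℤ) : 𝓞 N)) (by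
        rw [hC, crv_map, map_intCast]) v (by
        rw [crv_Δ]
        intro hmem
        apply h6
        change algebraMap (𝓞 N) (𝓞 N) (-(432 * ((d : ℤ) : 𝓞 N) ^ 2)) ∈ v.asIdeal at hmem
        rw [Algebra.algebraMap_self, RingHom.id_apply] at hmem
        refine v.isPrime.mem_of_pow_mem 4 ?_
        have e : ((6 * d : ℤ) : 𝓞 N) ^ 4 = -(3 * ((d : ℤ) : 𝓞 N) ^ 2) * -(432 * ((d : ℤ) : 𝓞 N) ^ 2) := by
          push_cast
          ring
        rw [e]
        exact v.asIdeal.mul_mem_left _ hmem)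
  have hbc : W.baseChange N = W := WeierstrassCurve.map_id _
  rw [hbc, crv_map, map_intCast] at hmodel
  exact hmodel

/-- the local polynomial at a place above `2`, case of good reduction at `2` -/
theorem locPoly_crm (v : HeightOneSpectrum (𝓞 N)) (m : ℤ) (h2 : (2 : 𝓞 N) ∈ v.asIdeal)
    (W : WeierstrassCurve N) (C : WeierstrassCurve.VariableChange N)
    (hC : C • W = crv ((16 * (4 * m + 1) : ℤ) : N)) :
    locPoly W v = 1 - Polynomial.C ((nrm v : ℤ) + 1 - Nat.card (crm
      ((m : ℤ) : IsLocalRing.ResidueField (v.adicCompletionIntegers N))).toAffine.Point) * X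
      + Polynomial.C (nrm v : ℤ) * X ^ 2 := by
  have hN2 : (2 : N) ≠ 0 := by norm_num
  obtain ⟨C', hC'⟩ := exists_crm hN2 (m : N)
  have hCC : (C' * C) • W = crm (m : N) := by
    rw [mul_smul, hC, ← hC']
    congr 2
    push_cast
    ring
  have hmodel : locPoly (W.baseChange N) v = _ :=
      locPoly_of_model (F := N) (K := N) W (C' * C) (crm ((m : ℤ) : 𝓞 N)) (by
        rw [hCC, crm_map, map_intCast]) v (by
        rw [crm_Δ]
        intro hmem
        change algebraMap (𝓞 N) (𝓞 N) (-(27 * (4 * ((m : ℤ) : 𝓞 N) + 1) ^ 2)) ∈ v.asIdeal at hmem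
        rw [Algebra.algebraMap_self, RingHom.id_apply] at hmem
        refine v.isPrime.ne_top ((Ideal.eq_top_iff_one _).2 ?_)
        have e : (1 : 𝓞 N) = -1 * -(27 * (4 * ((m : ℤ) : 𝓞 N) + 1) ^ 2) -
            (216 * ((m : ℤ) : 𝓞 N) ^ 2 + 108 * ((m : ℤ) : 𝓞 N) + 13) * 2 := by
          ring
        rw [e]
        exact v.asIdeal.sub_mem (v.asIdeal.mul_mem_left _ hmem) (v.asIdeal.mul_mem_left _ h2))
  have hbc : W.baseChange N = W := WeierstrassCurve.map_id _
  rw [hbc, crm_map, map_intCast] at hmodel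
  exact hmodel

/-- the twist by `-27` over a field containing `K` -/
theorem crv_neg27 {F : Type*} [Field F] [CharZero F] [Algebra K F] (d : F) :
    ∃ C : WeierstrassCurve.VariableChange F, C • crv d = crv (-27 * d) := by
  have hs : (algebraMap K F (2 * om + 1)) ^ 2 = -3 := by
    have h := S4.om_eq
    have h1 : (2 * om + 1 : K) ^ 2 = -3 := by linear_combination 4 * h
    rw [← map_pow, h1, map_neg, map_ofNat]
  have h0 : algebraMap K F (2 * om + 1) ≠ 0 := by
    intro h
    rw [h] at hs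
    norm_num at hs
  obtain ⟨C, hC⟩ := exists_scale d (algebraMap K F (2 * om + 1)) h0
  refine ⟨C, ?_⟩
  rw [hC]
  congr 1
  have h6 : (algebraMap K F (2 * om + 1)) ^ 6 = -27 := by
    rw [show 6 = 2 * 3 by norm_num, pow_mul, hs]
    norm_num
  rw [h6]

end Pool.Agent.Lib.MP_1a91b9_ntX.LF
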