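import Pool.Agent.Lib.MP_1a91b9_ntX.LF.Defs

/-!
# Local factors of `y² = x³ + d`: additive reduction by the discriminant

PROOF. Write `C₁ • W = W.minimal R` (by definition `W.minimal R = C₁ • W` for some `C₁`), so with `C₂ = C₁ * C⁻¹`:
`W.minimal R = C₂ • crv d` (`mul_smul`, `inv_smul_smul`). `c₄ = 0` (`variableChange_c₄`, `crv_c₄`), which excludes multiplicative reduction. If the reduction is good then
`v ((C₂ • crv d).Δ) = 1`, i.e. `v (u⁻¹ ^ 12 * -(432 d²)) = 1` with `u = C₂.u` (`variableChange_Δ`, `crv_Δ`), so `v u ^ 12 = v (432 * d ^ 2)`: contradiction with `h`.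
If the reduction is neither good nor multiplicative then `localPolynomial = 1` by definition. SEE the private lemmas of
Pool/Agent/Lib/MP_1a91b9_ntT/TW/Additive.lean (`additive_of_not_good`, `localPolynomial_tw_odd`): copy and adapt them.
-/

set_option autoImplicit false

namespace Pool.Agent.Lib.MP_1a91b9_ntX.LF

open WeierstrassCurve IsDedekindDomain NumberField Pool.Agent.Lib.MP_1a91b9_nt Polynomial

/-- If the reduction of a curve with `c₄ = 0` is not good then the local polynomial is `1`. -/
theorem locpol_of_not_good (R : Type*) [CommRing R] [IsDomain R]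
    [IsDiscreteValuationRing R] {K' : Type*} [Field K'] [Algebra R K']
    [IsFractionRing R K'] (W : WeierstrassCurve K') (hc : W.c₄ = 0)
    (hgood : ¬ (W.minimal R).HasGoodReduction R) : W.localPolynomial R = 1 := by
  classical
  obtain ⟨C, hC⟩ : ∃ C : WeierstrassCurve.VariableChange K',
    W.minimal R = C • W := ⟨_, rfl⟩
  have hc4 : (W.minimal R).c₄ = 0 := by
    rw [hC, WeierstrassCurve.variableChange_c₄, hc, mul_zero]
  have hmult : ¬ (W.minimal R).HasMultiplicativeReduction R := by
    intro hm
    have := hm.multiplicativeReduction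
    rw [hc4, map_zero] at this
    exact zero_ne_one this
  have hsplit : ¬ (W.minimal R).HasSplitMultiplicativeReduction R := fun hm =>
    hmult hm.toHasMultiplicativeReduction
  unfold WeierstrassCurve.localPolynomial
  simp only [hgood, hmult, hsplit, if_false]

/-- The valuation of the discriminant. -/
private theorem AddA_disc {K Γ : Type*} [Field K] [LinearOrderedCommGroupWithZero Γ]
    (v : Valuation K Γ) (x u : K) (hu : u ≠ 0)
    (h1 : v (u⁻¹ ^ 12 * -x) = 1) :
    v u ^ 12 = v x := by
  have hvu : v u ≠ 0 := (Valuation.ne_zero_iff v).mpr hu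
  have e : v (u⁻¹ ^ 12 * -x) = (v u ^ 12)⁻¹ * v x := by
    rw [map_mul, map_pow, map_inv₀, Valuation.map_neg, inv_pow]
  rw [e] at h1
  rw [inv_mul_eq_one₀ (pow_ne_zero _ hvu)] at h1
  exact h1

/-- Additive reduction by the valuation of the discriminant. -/
theorem add_one (R : Type*) [CommRing R] [IsDomain R]
    [IsDiscreteValuationRing R] {K' : Type*} [Field K'] [CharZero K'] [Algebra R K']
    [IsFractionRing R K'] (W : WeierstrassCurve K') (C : WeierstrassCurve.VariableChange K') (d : K')
    (hC : C • W = crv d)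
    (h : ∀ t : K', (IsDiscreteValuationRing.maximalIdeal R).valuation K' t ^ 12 ≠
      (IsDiscreteValuationRing.maximalIdeal R).valuation K' (432 * d ^ 2)) :
    W.localPolynomial R = 1 := by
  classical
  set v := (IsDiscreteValuationRing.maximalIdeal R).valuation K' with hv
  have hW : W = C⁻¹ • crv d := by rw [← hC, inv_smul_smul]
  have hc : W.c₄ = 0 := by
    rw [hW, WeierstrassCurve.variableChange_c₄, crv_c₄, mul_zero]
  refine locpol_of_not_good R W hc fun hg => ?_
  obtain ⟨C₁, hC₁⟩ : ∃ C₁ : WeierstrassCurve.VariableChange K',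
    W.minimal R = C₁ • W := ⟨_, rfl⟩
  have hC₂ : W.minimal R = (C₁ * C⁻¹) • crv d := by
    rw [hC₁, mul_smul, ← hW]
  have h1 := hg.goodReduction
  rw [hC₂, WeierstrassCurve.variableChange_Δ, crv_Δ] at h1
  generalize hC₃ : C₁ * C⁻¹ = C₃ at h1
  set u : K' := (C₃.u : K') with hu
  have hu0 : u ≠ 0 := C₃.u.ne_zero
  have hui : ((C₃.u⁻¹ : K'ˣ) : K') = u⁻¹ := by rw [hu, Units.val_inv_eq_inv_val]
  rw [hui] at h1
  exact h u (AddA_disc v _ u hu0 h1)

end Pool.Agent.Lib.MP_1a91b9_ntX.LF
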