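import Pool.Agent.Lib.MP_1a91b9_ntX.LF.Defs

/-!
# Local factors of `y² = x³ + d`: the places above `2`

PROOF. `v = (maximalIdeal R).valuation K'`. As in the header of AddA: `W.minimal R = C₂ • crv (16 e)`, `c₄ = 0` excludes multiplicative reduction
(copy the private lemma `additive_of_not_good` of Pool/Agent/Lib/MP_1a91b9_ntT/TW/Additive.lean: it works for every curve with `c₄ = 0`), so suppose that the reduction is good:
`v Δ = 1`. Let `a₁, a₂, a₃, a₄, a₆ ∈ R` be the coefficients of the minimal (integral) model `W.minimal R = C₂ • crv (16 e)`, `u = C₂.u`, `r = C₂.r`.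
  `v 4 = v 2 ^ 2 < 1`, `v e = 1` (from `v (e + 1) ≤ v 4 < 1`), `v 3 = 1` (`3 = 1 + 2`), `v 27 = 1`. `Δ = u⁻¹^12 * -(432 * (16 e)^2) = -(27 * 2^12 * e^2) / u^12`, so `v u ^ 12 = v 2 ^ 12`, `v u = v 2`.
  Put `w = u / 2`, `v w = 1`. The three identities (`variableChange_b₂`, `variableChange_b₄`, `variableChange_b₆`; for `crv (16 e)`: `b₂ = b₄ = 0`, `b₆ = 64 e`):
  `a₁^2 + 4 a₂ = 12 r / u^2 = 3 r / w^2`,  `2 a₄ + a₁ a₃ = 6 r^2 / u^4 = 3 r^2 / (8 w^4)`,  `a₃^2 + 4 a₆ = (64 e + 4 r^3)/u^6 = (e + r^3/16) / w^6`.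
  All `v aᵢ ≤ 1`. From the second: `v r ^ 2 ≤ v 8 = v 2 ^ 3`.
  CASE `v r > v 4`. First identity: `v (a₁^2 + 4 a₂) = v r > v 4 ≥ v (4 a₂)`, so `v a₁ ^ 2 = v r`. `(v r ^ 3) ^ 2 ≤ v 2 ^ 9 < v 2 ^ 8 = (v 16) ^ 2`, so `v (r^3/16) < 1` and
  `v (a₃^2 + 4 a₆) = v (e + r^3/16) = 1`, so `v a₃ = 1` (as `v (4 a₆) < 1`). `v (a₁ a₃) ^ 2 = v r > v 4 = v 2 ^ 2`, so `v (a₁ a₃) > v 2 ≥ v (2 a₄)` and `v (2 a₄ + a₁ a₃) = v (a₁ a₃)`,
  `v (2 a₄ + a₁ a₃) ^ 2 = v r`. With the second identity `(v r ^ 2 / v 8) ^ 2 = v r`, so (`v r ≠ 0`) `v r ^ 3 = v 8 ^ 2 = v 2 ^ 6 = (v 4) ^ 3`, `v r = v 4`: contradiction.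
  CASE `v r ≤ v 4`. `v (r^3/16) ≤ v 4 ^ 3 / v 4 ^ 2 = v 4`. Let `a = a₃ w^3`. Third identity: `e - a^2 = 4 a₆ w^6 - r^3/16`, so `v (e - a^2) ≤ v 4`, and with `v (e + 1) ≤ v 4`:
  `v (a^2 + 1) ≤ v 4 < v 2`. So `v a = 1` (`v (a^2) = v ((a^2+1) - 1) = 1`), `v (2 a) = v 2`, and `(a - 1)^2 = (a^2 + 1) - 2 a` has valuation `v 2`: contradiction with `h` for `t = a - 1`.
-/

set_option autoImplicit false

namespace Pool.Agent.Lib.MP_1a91b9_ntX.LF

open WeierstrassCurve IsDedekindDomain NumberField Pool.Agent.Lib.MP_1a91b9_nt Polynomial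

/-- If the reduction of a curve with `c₄ = 0` is not good then the local polynomial is `1`. -/
private theorem AddB_of_not_good (R : Type*) [CommRing R] [IsDomain R]
    [IsDiscreteValuationRing R] {K' : Type*} [Field K'] [Algebra R K']
    [IsFractionRing R K'] (W : WeierstrassCurve K') (hc : (W.minimal R).c₄ = 0)
    (hgood : ¬ (W.minimal R).HasGoodReduction R) : W.localPolynomial R = 1 := by
  classical
  have hmult : ¬ (W.minimal R).HasMultiplicativeReduction R := by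
    intro hm
    have := hm.multiplicativeReduction
    rw [hc, map_zero] at this
    exact zero_ne_one this
  have hsplit : ¬ (W.minimal R).HasSplitMultiplicativeReduction R := fun hm =>
    hmult hm.toHasMultiplicativeReduction
  unfold WeierstrassCurve.localPolynomial
  simp only [hgood, hmult, hsplit, if_false]

/-- The valuation argument. -/
private theorem AddB_val {K Γ : Type*} [Field K] [CharZero K] [LinearOrderedCommGroupWithZero Γ]
    (v : Valuation K Γ) (h2 : v 2 < 1) (e : K) (he : v (e + 1) ≤ v 4) (h : ∀ t : K, v t ^ 2 ≠ v 2)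
    (u r a₁ a₂ a₃ a₄ a₆ : K) (hvu : v u = v 2) (ha₂ : v a₂ ≤ 1)
    (ha₄ : v a₄ ≤ 1) (ha₆ : v a₆ ≤ 1)
    (i1 : (a₁ ^ 2 + 4 * a₂) * u ^ 2 = 12 * r) (i2 : (2 * a₄ + a₁ * a₃) * u ^ 4 = 6 * r ^ 2)
    (i3 : (a₃ ^ 2 + 4 * a₆) * u ^ 6 = 64 * e + 4 * r ^ 3) (ha₁₃ : v (2 * a₄ + a₁ * a₃) ≤ 1) : False := by
  have h20 : (2 : K) ≠ 0 := by norm_num
  have hp0 : v 2 ≠ 0 := (Valuation.ne_zero_iff v).mpr h20
  have hp : 0 < v 2 := zero_lt_iff.mpr hp0
  set p := v 2 with hpdef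
  have hp1 : p ≤ 1 := h2.le
  have hv4 : v 4 = p ^ 2 := by
    rw [show (4 : K) = 2 ^ 2 by norm_num, map_pow]
  have hv8 : v 8 = p ^ 3 := by
    rw [show (8 : K) = 2 ^ 3 by norm_num, map_pow]
  have hv16 : v 16 = p ^ 4 := by
    rw [show (16 : K) = 2 ^ 4 by norm_num, map_pow]
  have hp2 : p ^ 2 < 1 := pow_lt_one₀ zero_le h2 (by norm_num)
  have hp21 : p ^ 2 < p := by
    rw [pow_two]
    exact mul_lt_of_lt_one_right hp h2
  have hv3 : v 3 = 1 := by
    rw [show (3 : K) = 1 + 2 by norm_num]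
    exact Valuation.map_one_add_of_lt v h2
  have hve : v e = 1 := by
    have h1 : v (e + 1) < v 1 := by
      rw [map_one]
      exact lt_of_le_of_lt (he.trans (le_of_eq hv4)) hp2
    have h3 : e = (e + 1) - 1 := by ring
    rw [h3, Valuation.map_sub_eq_of_lt_right v h1, map_one]
  obtain ⟨w, hw⟩ : ∃ w, u = 2 * w := ⟨u / 2, by field_simp⟩
  have hvw : v w = 1 := by
    rw [hw, map_mul] at hvu
    exact mul_left_cancel₀ hp0 (by rw [hvu, mul_one])
  subst hw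
  have j1 : (a₁ ^ 2 + 4 * a₂) * w ^ 2 = 3 * r := by
    have h4 : (4 : K) ≠ 0 := by norm_num
    refine mul_left_cancel₀ h4 ?_
    linear_combination i1
  have j2 : (2 * a₄ + a₁ * a₃) * 8 * w ^ 4 = 3 * r ^ 2 := by
    refine mul_left_cancel₀ h20 ?_
    linear_combination i2
  have j3 : (a₃ ^ 2 + 4 * a₆) * w ^ 6 = e + r ^ 3 / 16 := by
    have h64 : (64 : K) ≠ 0 := by norm_num
    refine mul_left_cancel₀ h64 ?_
    linear_combination i3
  have k1 : v (a₁ ^ 2 + 4 * a₂) = v r := by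
    have := congrArg v j1
    rw [map_mul, map_pow, hvw, one_pow, mul_one, map_mul, hv3, one_mul] at this
    exact this
  have k2 : v (2 * a₄ + a₁ * a₃) * p ^ 3 = v r ^ 2 := by
    have := congrArg v j2
    rw [map_mul, map_mul, map_pow, hvw, one_pow, mul_one, map_mul, hv3, one_mul, hv8, map_pow] at this
    exact this
  have k3 : v (a₃ ^ 2 + 4 * a₆) = v (e + r ^ 3 / 16) := by
    have := congrArg v j3
    rw [map_mul, map_pow, hvw, one_pow, mul_one] at this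
    exact this
  have h4a₂ : v (4 * a₂) ≤ p ^ 2 := by
    rw [map_mul, hv4]
    exact mul_le_of_le_one_right' ha₂
  have h4a₆ : v (4 * a₆) ≤ p ^ 2 := by
    rw [map_mul, hv4]
    exact mul_le_of_le_one_right' ha₆
  have h2a₄ : v (2 * a₄) ≤ p := by
    rw [map_mul]
    exact mul_le_of_le_one_right' ha₄
  have hvr2 : v r ^ 2 ≤ p ^ 3 := by
    rw [← k2]
    exact mul_le_of_le_one_left' ha₁₃
  have hr16 : v (r ^ 3 / 16) * p ^ 4 = v r ^ 3 := by
    rw [← hv16, ← map_mul, div_mul_cancel₀ _ (by norm_num : (16 : K) ≠ 0), map_pow]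
  rcases lt_or_ge (p ^ 2) (v r) with hcase | hcase
  · -- first case
    have hr0 : v r ≠ 0 := (lt_of_le_of_lt zero_le hcase).ne'
    have l1 : v (a₁ ^ 2) = v r := by
      have h3 : a₁ ^ 2 = (a₁ ^ 2 + 4 * a₂) - 4 * a₂ := by ring
      rw [h3, Valuation.map_sub_eq_of_lt_left v, k1]
      rw [k1]
      exact lt_of_le_of_lt h4a₂ hcase
    have l2 : v (r ^ 3 / 16) < 1 := by
      by_contra hcon
      rw [not_lt] at hcon
      have m1 : p ^ 4 ≤ v r ^ 3 := by
        rw [← hr16]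
        exact le_mul_of_one_le_left' hcon
      have m2 : (p ^ 4) ^ 2 ≤ (v r ^ 3) ^ 2 := pow_le_pow_left₀ zero_le m1 2
      have m3 : (v r ^ 3) ^ 2 ≤ (p ^ 3) ^ 3 := by
        rw [← pow_mul, mul_comm 3 2, pow_mul]
        exact pow_le_pow_left₀ zero_le hvr2 3
      have m4 : (p ^ 3) ^ 3 < (p ^ 4) ^ 2 := by
        rw [← pow_mul, ← pow_mul]
        exact pow_lt_pow_right_of_lt_one₀ hp h2 (by norm_num)
      exact absurd (m2.trans m3) (not_le.2 m4)
    have l3 : v (a₃ ^ 2 + 4 * a₆) = 1 := by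
      rw [k3, Valuation.map_add_eq_of_lt_left v, hve]
      rw [hve]
      exact l2
    have l4 : v a₃ = 1 := by
      have h3 : a₃ ^ 2 = (a₃ ^ 2 + 4 * a₆) - 4 * a₆ := by ring
      have h4 : v (a₃ ^ 2) = 1 := by
        rw [h3, Valuation.map_sub_eq_of_lt_left v, l3]
        rw [l3]
        exact lt_of_le_of_lt h4a₆ hp2
      rw [map_pow] at h4
      exact (pow_eq_one_iff_of_nonneg zero_le (by norm_num)).1 h4
    have l5 : v (a₁ * a₃) ^ 2 = v r := by
      rw [map_mul, l4, mul_one, ← map_pow, l1]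
    have l6 : p < v (a₁ * a₃) := by
      by_contra hcon
      rw [not_lt] at hcon
      have m1 := pow_le_pow_left₀ (zero_le) hcon 2
      rw [l5] at m1
      exact absurd m1 (not_le.2 hcase)
    have l7 : v (2 * a₄ + a₁ * a₃) = v (a₁ * a₃) :=
      Valuation.map_add_eq_of_lt_right v (lt_of_le_of_lt h2a₄ l6)
    rw [l7] at k2
    have l8 : v r * p ^ 6 = v r * v r ^ 3 := by
      have m1 := congrArg (fun z => z ^ 2) k2
      have m2 : (v (a₁ * a₃) * p ^ 3) ^ 2 = v r * p ^ 6 := by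
        rw [mul_pow, l5, ← pow_mul]
      have m3 : (v r ^ 2) ^ 2 = v r * v r ^ 3 := by
        rw [← pow_mul, ← pow_succ']
      rw [← m2, ← m3]
      exact m1
    have l9 := mul_left_cancel₀ hr0 l8
    have l10 : (p ^ 2) ^ 3 = v r ^ 3 := by
      rw [← pow_mul]
      exact l9
    have l11 := (pow_left_inj₀ zero_le zero_le (by norm_num)).1 l10
    exact absurd l11 hcase.ne
  · -- second case
    have l2 : v (r ^ 3 / 16) ≤ p ^ 2 := by
      by_contra hcon
      rw [not_le] at hcon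
      have m1 : p ^ 2 * p ^ 4 < v r ^ 3 := by
        rw [← hr16]
        exact mul_lt_mul_of_pos_right hcon (pow_pos hp 4)
      have m2 : v r ^ 3 ≤ (p ^ 2) ^ 3 := pow_le_pow_left₀ zero_le hcase 3
      have m3 : (p ^ 2) ^ 3 = p ^ 2 * p ^ 4 := by
        rw [← pow_mul, ← pow_add]
      rw [m3] at m2
      exact absurd m2 (not_le.2 m1)
    have l3 : v ((a₃ * w ^ 3) ^ 2 + 1) ≤ p ^ 2 := by
      have h3 : (a₃ * w ^ 3) ^ 2 + 1 = ((e + 1) + r ^ 3 / 16) - 4 * a₆ * w ^ 6 := by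
        linear_combination j3
      rw [h3]
      refine (Valuation.map_sub v _ _).trans (max_le ((Valuation.map_add v _ _).trans (max_le ?_ l2)) ?_)
      · exact he.trans (le_of_eq hv4)
      · rw [map_mul, map_pow, hvw, one_pow, mul_one]
        exact h4a₆
    have l4 : v (a₃ * w ^ 3) = 1 := by
      have h3 : (a₃ * w ^ 3) ^ 2 = ((a₃ * w ^ 3) ^ 2 + 1) - 1 := by ring
      have h4 : v ((a₃ * w ^ 3) ^ 2) = 1 := by
        rw [h3, Valuation.map_sub_eq_of_lt_right v, map_one]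
        rw [map_one]
        exact lt_of_le_of_lt l3 hp2
      rw [map_pow] at h4
      exact (pow_eq_one_iff_of_nonneg zero_le (by norm_num)).1 h4
    have l5 : v (2 * (a₃ * w ^ 3)) = p := by
      rw [map_mul, l4, mul_one]
    refine h (a₃ * w ^ 3 - 1) ?_
    rw [← map_pow]
    have h3 : (a₃ * w ^ 3 - 1) ^ 2 = ((a₃ * w ^ 3) ^ 2 + 1) - 2 * (a₃ * w ^ 3) := by ring
    rw [h3, Valuation.map_sub_eq_of_lt_right v, l5]
    rw [l5]
    exact lt_of_le_of_lt l3 hp21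

/-- Additive reduction above `2` for `d = 16 e`, `e = -1` modulo `4`. -/
theorem add_two (R : Type*) [CommRing R] [IsDomain R]
    [IsDiscreteValuationRing R] {K' : Type*} [Field K'] [CharZero K'] [Algebra R K']
    [IsFractionRing R K'] (W : WeierstrassCurve K') (C : WeierstrassCurve.VariableChange K') (e : K')
    (hC : C • W = crv (16 * e))
    (h2 : (IsDiscreteValuationRing.maximalIdeal R).valuation K' 2 < 1)
    (he : (IsDiscreteValuationRing.maximalIdeal R).valuation K' (e + 1) ≤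
      (IsDiscreteValuationRing.maximalIdeal R).valuation K' 4)
    (h : ∀ t : K', (IsDiscreteValuationRing.maximalIdeal R).valuation K' t ^ 2 ≠
      (IsDiscreteValuationRing.maximalIdeal R).valuation K' 2) :
    W.localPolynomial R = 1 := by
  classical
  set v := (IsDiscreteValuationRing.maximalIdeal R).valuation K' with hv
  obtain ⟨C₁, hC₁⟩ : ∃ C₁ : WeierstrassCurve.VariableChange K', W.minimal R = C₁ • W := ⟨_, rfl⟩
  obtain ⟨C₂, hC₂⟩ : ∃ C₂ : WeierstrassCurve.VariableChange K', W.minimal R = C₂ • crv (16 * e) :=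
    ⟨C₁ * C⁻¹, by rw [← hC, mul_smul, inv_smul_smul, hC₁]⟩
  have hc4 : (W.minimal R).c₄ = 0 := by
    rw [hC₂, WeierstrassCurve.variableChange_c₄, crv_c₄, mul_zero]
  refine AddB_of_not_good R W hc4 fun hg => ?_
  have h1 := hg.goodReduction
  rw [hC₂, WeierstrassCurve.variableChange_Δ, crv_Δ] at h1
  have hint : ∀ x : R, v (algebraMap R K' x) ≤ 1 := fun x => HeightOneSpectrum.valuation_le_one _ _
  have hmod : ((W.minimal R).integralModel R).map (algebraMap R K') = W.minimal R :=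
    WeierstrassCurve.baseChange_integralModel_eq R _
  have g1 : v (W.minimal R).a₁ ≤ 1 := by rw [← hmod]; exact hint _
  have g2 : v (W.minimal R).a₂ ≤ 1 := by rw [← hmod]; exact hint _
  have g3 : v (W.minimal R).a₃ ≤ 1 := by rw [← hmod]; exact hint _
  have g4 : v (W.minimal R).a₄ ≤ 1 := by rw [← hmod]; exact hint _
  have g6 : v (W.minimal R).a₆ ≤ 1 := by rw [← hmod]; exact hint _
  have hu0 : (C₂.u : K') ≠ 0 := C₂.u.ne_zero
  have hui : ((C₂.u⁻¹ : K'ˣ) : K') = (C₂.u : K')⁻¹ := by rw [Units.val_inv_eq_inv_val]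
  have hb2 : (W.minimal R).b₂ = (C₂.u : K')⁻¹ ^ 2 * (12 * C₂.r) := by
    rw [hC₂, WeierstrassCurve.variableChange_b₂, hui]
    simp only [crv, WeierstrassCurve.b₂]
    ring
  have hb4 : (W.minimal R).b₄ = (C₂.u : K')⁻¹ ^ 4 * (6 * C₂.r ^ 2) := by
    rw [hC₂, WeierstrassCurve.variableChange_b₄, hui]
    simp only [crv, WeierstrassCurve.b₂, WeierstrassCurve.b₄]
    ring
  have hb6 : (W.minimal R).b₆ = (C₂.u : K')⁻¹ ^ 6 * (64 * e + 4 * C₂.r ^ 3) := by
    rw [hC₂, WeierstrassCurve.variableChange_b₆, hui]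
    simp only [crv, WeierstrassCurve.b₂, WeierstrassCurve.b₄, WeierstrassCurve.b₆]
    ring
  rw [hui] at h1
  -- valuation of `u`
  have hp0 : v 2 ≠ 0 := (Valuation.ne_zero_iff v).mpr (by norm_num)
  have hvu0 : v (C₂.u : K') ≠ 0 := (Valuation.ne_zero_iff v).mpr hu0
  have hv4 : v 4 = v 2 ^ 2 := by
    rw [show (4 : K') = 2 ^ 2 by norm_num, map_pow]
  have hp2 : v 2 ^ 2 < 1 := pow_lt_one₀ zero_le h2 (by norm_num)
  have hv3 : v 3 = 1 := by
    rw [show (3 : K') = 1 + 2 by norm_num]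
    exact Valuation.map_one_add_of_lt v h2
  have hve : v e = 1 := by
    have h5 : v (e + 1) < v 1 := by
      rw [map_one]
      exact lt_of_le_of_lt (he.trans (le_of_eq hv4)) hp2
    have h3 : e = (e + 1) - 1 := by ring
    rw [h3, Valuation.map_sub_eq_of_lt_right v h5, map_one]
  have hvu : v (C₂.u : K') = v 2 := by
    have h3 : (C₂.u : K')⁻¹ ^ 12 * -(432 * (16 * e) ^ 2) = (C₂.u : K')⁻¹ ^ 12 * -(2 ^ 12 * 3 ^ 3 * e ^ 2) := by ring
    have h4 : v ((C₂.u : K')⁻¹ ^ 12 * -(432 * (16 * e) ^ 2)) = 1 := h1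
    rw [h3, map_mul, map_pow, map_inv₀, Valuation.map_neg, map_mul, map_mul, map_pow, map_pow, map_pow, hv3, hve,
      one_pow, one_pow, mul_one, mul_one, inv_pow, inv_mul_eq_one₀ (pow_ne_zero _ hvu0)] at h4
    exact (pow_left_inj₀ zero_le zero_le (by norm_num)).1 h4
  refine AddB_val v h2 e he h (C₂.u : K') C₂.r (W.minimal R).a₁ (W.minimal R).a₂ (W.minimal R).a₃ (W.minimal R).a₄
    (W.minimal R).a₆ hvu g2 g4 g6 ?_ ?_ ?_ ?_
  · have h3 : (W.minimal R).a₁ ^ 2 + 4 * (W.minimal R).a₂ = (C₂.u : K')⁻¹ ^ 2 * (12 * C₂.r) := hb2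
    rw [h3]
    field_simp
  · have h3 : 2 * (W.minimal R).a₄ + (W.minimal R).a₁ * (W.minimal R).a₃ = (C₂.u : K')⁻¹ ^ 4 * (6 * C₂.r ^ 2) := hb4
    rw [h3]
    field_simp
  · have h3 : (W.minimal R).a₃ ^ 2 + 4 * (W.minimal R).a₆ = (C₂.u : K')⁻¹ ^ 6 * (64 * e + 4 * C₂.r ^ 3) := hb6
    rw [h3]
    field_simp
  · refine (Valuation.map_add v _ _).trans (max_le ?_ ?_)
    · rw [map_mul]
      exact mul_le_one' h2.le g4
    · rw [map_mul]
      exact mul_le_one' g1 g3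

end Pool.Agent.Lib.MP_1a91b9_ntX.LF
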