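import Pool.Agent.Lib.MP_1a91b9_ntX.LF.Defs

/-!
# Local factors of `y² = x³ + d`: the valuations of the completions

PROOF. This is in the proof of `locPoly_fermatCubic_three` (Pool/Agent/Lib/MP_1a91b9_ntT/S4/Place.lean) for `n = 3`, `x = 3`: copy it. The
valuation `vm` of the maximal ideal of `R = v.adicCompletionIntegers N` and the valuation `Valued.v` of the completion have the same valuation ring:
`tr_le`: if `a = 0` or `b = 0` clear; otherwise `vm a ≤ vm b` iff `vm (a / b) ≤ 1` iff `a / b ∈ R` (`IsDiscreteValuationRing.exists_lift_of_le_one`, `HeightOneSpectrum.valuation_le_one`)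
iff `Valued.v (a / b) ≤ 1`. `tr_eq` from `tr_le` twice. `tr_pow`: `vm t ^ n = vm (x)` gives `vm (t ^ n) = vm x`, `Valued.v (t ^ n) = Valued.v x = v.valuation N x` (`valued_algebraMap`), so
`γ = Valued.v t` contradicts `h`.
-/

set_option autoImplicit false

namespace Pool.Agent.Lib.MP_1a91b9_ntX.LF

open WeierstrassCurve IsDedekindDomain NumberField WithZero Pool.Agent.Lib.MP_1a91b9_nt

variable {N : Type*} [Field N] [NumberField N] (v : HeightOneSpectrum (𝓞 N))

/-- the valuation of the maximal ideal of the integers of the completion -/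
noncomputable abbrev vm : Valuation (v.adicCompletion N) ℤᵐ⁰ :=
  (IsDiscreteValuationRing.maximalIdeal (v.adicCompletionIntegers N)).valuation (v.adicCompletion N)

private theorem Tr_one (a : v.adicCompletion N) : vm v a ≤ 1 ↔ Valued.v a ≤ (1 : ℤᵐ⁰) := by
  constructor
  · intro h
    obtain ⟨r, hr⟩ := IsDiscreteValuationRing.exists_lift_of_le_one
      (A := v.adicCompletionIntegers N) h
    rw [← hr]
    exact r.2
  · intro h
    exact (IsDiscreteValuationRing.maximalIdeal (v.adicCompletionIntegers N)).valuation_le_one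
      (K := v.adicCompletion N) (⟨a, h⟩ : v.adicCompletionIntegers N)

theorem tr_le (a b : v.adicCompletion N) : vm v a ≤ vm v b ↔ Valued.v a ≤ Valued.v b := by
  by_cases hb : b = 0
  · rw [hb, map_zero, map_zero, le_zero_iff, le_zero_iff, Valuation.zero_iff, Valuation.zero_iff]
  · have h1 : 0 < vm v b := zero_lt_iff.2 ((Valuation.ne_zero_iff _).2 hb)
    have h2 : (0 : ℤᵐ⁰) < Valued.v b := zero_lt_iff.2 ((Valuation.ne_zero_iff _).2 hb)
    rw [← div_le_one₀ h1, ← div_le_one₀ h2, ← map_div₀, ← map_div₀, Tr_one]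

theorem tr_eq (a b : v.adicCompletion N) : vm v a = vm v b ↔ Valued.v a = Valued.v b := by
  rw [le_antisymm_iff, le_antisymm_iff, tr_le, tr_le]

/-- comparison of elements of `N` -/
theorem tr_le_N (a b : N) : vm v (algebraMap N (v.adicCompletion N) a) ≤
    vm v (algebraMap N (v.adicCompletion N) b) ↔ v.valuation N a ≤ v.valuation N b := by
  rw [tr_le, valued_algebraMap, valued_algebraMap]

theorem tr_lt_one (a : N) : vm v (algebraMap N (v.adicCompletion N) a) < 1 ↔
    v.valuation N a < 1 := by
  have h1 := tr_le_N v 1 a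
  rw [map_one, map_one, map_one] at h1
  rw [← not_le, ← not_le, h1]

/-- the value groups are the same -/
theorem tr_pow (n : ℕ) (x : N) (h : ∀ γ : ℤᵐ⁰, γ ^ n ≠ v.valuation N x) (t : v.adicCompletion N) :
    vm v t ^ n ≠ vm v (algebraMap N (v.adicCompletion N) x) := by
  intro h1
  rw [← map_pow, tr_eq, map_pow, valued_algebraMap] at h1
  exact h _ h1

end Pool.Agent.Lib.MP_1a91b9_ntX.LF
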