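import Pool.Agent.Lib.MP_1a91b9_ntX.LF.AddA
import Pool.Agent.Lib.MP_1a91b9_ntX.LF.AddB
import Pool.Agent.Lib.MP_1a91b9_ntX.LF.Tr

/-!
# Local factors of `y² = x³ + d`: the bad places

PROOF. `locPoly W v` is by definition `(W.baseChange (v.adicCompletion N)).localPolynomial (v.adicCompletionIntegers N)`; with
`C' = C.map (algebraMap N (v.adicCompletion N))`: `C' • W.baseChange _ = (crv d).map _ = crv (algebraMap _ _ d)` (`map_variableChange`, `crv_map`). Use `add_one` and `add_two`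
with `tr_pow`, `tr_le_N`, `tr_lt_one` (`vm v` is the valuation of the statements).
Let `v` divide `p` (`6 * d ∈ v` gives a prime number `p ∣ 6 d` with `p ∈ v`: `v ∩ ℤ`; a product of prime numbers is in `v` so a factor is), `e = od v p > 0`. For an integer `z ≠ 0` with `z = p ^ a * z'`,
`z'` prime to `p`: `od v z = a e` (`v z' = 1` since `z'` and `p` generate `1`), `od` is additive (`od_mul`, `od_pow` in MP_1a91b9_ntT/DB/Od.lean).
`locPoly_bad` by `add_one`: it is enough that `12 ∤ od v (432 d^2)` (if `γ ^ 12 = v.valuation N (432 d^2)`, `γ ≠ 0`, then `γ = exp (-m)` and `12 m = od`).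
  `p = 3`: `432 d^2 = 2^4 3^3 d^2`, `od = e (3 + 2 a)`, `a = v_3(d)`; `4 ∣ e (3 + 2 a)` implies `4 ∣ e`, excluded by `Nice` (third part).
  `p ≥ 5`: `p ∣ d`, `od = 2 e a`, `1 ≤ a ≤ 5` (`Free6`), `gcd(e, 6) = 1` (`Nice`): `12 ∣ 2 e a` implies `6 ∣ a`, contradiction.
  `p = 2`: `od = e (4 + 2 a)`, `0 ≤ a ≤ 5`, `gcd (e, 6) = 1`: `12 ∣ e (4 + 2 a)` implies `12 ∣ 4 + 2 a`, `a = 4`. So unless `a = 4` use `add_one`. If `a = 4`: `d = 16 e'`, `e'` odd, and `e'` is not
  `1` modulo `4` (`hno`), so `e' = -1` modulo `4`: `add_two` with `v (e' + 1) ≤ v 4` (`e' + 1 = 4 m`), and `γ ^ 2 ≠ v 2` since `od v 2 = e` is odd.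
-/

set_option autoImplicit false

namespace Pool.Agent.Lib.MP_1a91b9_ntX.LF

open WeierstrassCurve IsDedekindDomain NumberField WithZero Pool.Agent.Lib.MP_1a91b9_nt
  Pool.Agent.Lib.MP_1a91b9_ntT
open Pool.Agent.Lib.MP_1a91b9_ntT.DB (od)

private theorem Bad_pow {N : Type*} [Field N] [NumberField N] (v : HeightOneSpectrum (𝓞 N)) {x : N}
    {n : ℕ} (h : ¬ (n : ℤ) ∣ od v x) : ∀ γ : ℤᵐ⁰, γ ^ n ≠ v.valuation N x := by
  intro γ hγ
  apply h
  unfold od
  rw [← hγ, WithZero.log_pow, nsmul_eq_mul]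
  exact ⟨-WithZero.log γ, by ring⟩

private theorem Bad_le {N : Type*} [Field N] [NumberField N] (v : HeightOneSpectrum (𝓞 N)) (m : ℤ) :
    v.valuation N (m : N) ≤ 1 := by
  have h : v.valuation N (algebraMap (𝓞 N) N ((m : ℤ) : 𝓞 N)) ≤ 1 := v.valuation_le_one _
  rwa [map_intCast] at h

private theorem Bad_prime {N : Type*} [Field N] [NumberField N] (v : HeightOneSpectrum (𝓞 N)) {z : ℤ} (hz : z ≠ 0)
    (h : (z : 𝓞 N) ∈ v.asIdeal) : ∃ p : ℕ, p.Prime ∧ (p : ℤ) ∣ z ∧ (p : 𝓞 N) ∈ v.asIdeal := by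
  have key : ∀ n : ℕ, n ≠ 0 → (n : 𝓞 N) ∈ v.asIdeal → ∃ p : ℕ, p.Prime ∧ p ∣ n ∧ (p : 𝓞 N) ∈ v.asIdeal := by
    intro n
    induction n using Nat.strong_induction_on with
    | _ n ih =>
      intro hn hv
      have hn1 : n ≠ 1 := by
        rintro rfl
        rw [Nat.cast_one] at hv
        exact v.isPrime.ne_top ((Ideal.eq_top_iff_one _).2 hv)
      obtain ⟨m, hm⟩ := Nat.minFac_dvd n
      have hp := Nat.minFac_prime hn1
      have hm0 : m ≠ 0 := by
        rintro rfl
        rw [mul_zero] at hm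
        exact hn hm
      have hmn : m < n := by
        have h2 := hp.two_le
        calc m < 2 * m := by omega
          _ ≤ n.minFac * m := Nat.mul_le_mul_right m h2
          _ = n := hm.symm
      have h3 : ((n.minFac : 𝓞 N)) * (m : 𝓞 N) ∈ v.asIdeal := by
        rw [← Nat.cast_mul, ← hm]
        exact hv
      rcases v.isPrime.mem_or_mem h3 with h4 | h4
      · exact ⟨n.minFac, hp, Nat.minFac_dvd n, h4⟩
      · obtain ⟨p, hp1, hp2, hp3⟩ := ih m hmn hm0 h4
        exact ⟨p, hp1, hp2.trans ⟨n.minFac, by rw [mul_comm]; exact hm⟩, hp3⟩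
  have h2 : ((z.natAbs : ℕ) : 𝓞 N) ∈ v.asIdeal := by
    rcases Int.natAbs_eq z with h3 | h3
    · rw [h3, Int.cast_natCast] at h
      exact h
    · rw [h3, Int.cast_neg, Int.cast_natCast] at h
      exact (Ideal.neg_mem_iff _).1 h
  obtain ⟨p, hp1, hp2, hp3⟩ := key z.natAbs (Int.natAbs_ne_zero.2 hz) h2
  exact ⟨p, hp1, Int.natCast_dvd.2 hp2, hp3⟩

private theorem Bad_split {p : ℕ} (hp : p.Prime) {z : ℤ} (hz : z ≠ 0) :
    ∃ (a : ℕ) (z' : ℤ), z = (p : ℤ) ^ a * z' ∧ ¬ (p : ℤ) ∣ z' := by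
  have h : FiniteMultiplicity (p : ℤ) z := Int.finiteMultiplicity_iff.2 ⟨by
    rw [Int.natAbs_natCast]
    exact hp.ne_one, hz⟩
  obtain ⟨c, hc1, hc2⟩ := h.exists_eq_pow_mul_and_not_dvd
  exact ⟨_, c, hc1, hc2⟩

private theorem Bad_od {N : Type*} [Field N] [NumberField N] (v : HeightOneSpectrum (𝓞 N)) {p : ℕ} (hp : p.Prime)
    (hpv : (p : 𝓞 N) ∈ v.asIdeal) (m : ℕ) (z : ℤ) (hz : ¬ (p : ℤ) ∣ z) :
    od v (((p : ℤ) ^ m * z : ℤ) : N) = m * od v (p : N) := by
  have hz0 : z ≠ 0 := by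
    rintro rfl
    exact hz (dvd_zero _)
  have hzN : (z : N) ≠ 0 := Int.cast_ne_zero.2 hz0
  have hpN : (p : N) ≠ 0 := Nat.cast_ne_zero.2 hp.ne_zero
  have h1 : (z : 𝓞 N) ∉ v.asIdeal := by
    intro h2
    have h3 : IsCoprime (p : ℤ) z := by
      rw [Int.isCoprime_iff_gcd_eq_one]
      have h5 := (Nat.Prime.coprime_iff_not_dvd hp (n := z.natAbs)).2 (fun h4 => hz (Int.natCast_dvd.2 h4))
      exact h5
    obtain ⟨a, b, hab⟩ := h3
    apply v.isPrime.ne_top
    rw [Ideal.eq_top_iff_one]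
    have h4 : (1 : 𝓞 N) = (a : 𝓞 N) * (p : 𝓞 N) + (b : 𝓞 N) * (z : 𝓞 N) := by
      exact_mod_cast congrArg (Int.cast : ℤ → 𝓞 N) hab.symm
    rw [h4]
    exact v.asIdeal.add_mem (v.asIdeal.mul_mem_left _ hpv) (v.asIdeal.mul_mem_left _ h2)
  have h2 : od v (z : N) = 0 := by
    rw [← MP_1a91b9_ntT.DB.val_eq_one_iff v hzN]
    refine le_antisymm (Bad_le v z) ?_
    by_contra h3
    push Not at h3
    apply h1
    refine (HeightOneSpectrum.valuation_lt_one_iff_mem (K := N) v (z : 𝓞 N)).1 ?_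
    show v.valuation N (algebraMap (𝓞 N) N (z : 𝓞 N)) < 1
    rw [map_intCast]
    exact h3
  rw [Int.cast_mul, Int.cast_pow, Int.cast_natCast, MP_1a91b9_ntT.DB.od_mul v (pow_ne_zero m hpN) hzN,
    MP_1a91b9_ntT.DB.od_pow, h2, add_zero]

private theorem Bad_cop {e : ℤ} (h2 : ¬ 2 ∣ e) (h3 : ¬ 3 ∣ e) : IsCoprime (12 : ℤ) e := by
  have c2 : IsCoprime (2 : ℤ) e := by
    refine (Prime.coprime_iff_not_dvd ?_).2 h2
    exact Int.prime_two
  have c3 : IsCoprime (3 : ℤ) e := by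
    refine (Prime.coprime_iff_not_dvd ?_).2 h3
    exact Int.prime_three
  have h12 : (12 : ℤ) = 2 ^ 2 * 3 := by norm_num
  rw [h12]
  exact (c2.pow_left).mul_left c3

/-- The local polynomial is `1` at the bad places. -/
theorem locPoly_bad {N : Type*} [Field N] [NumberField N] {d : ℤ} (hd : d ≠ 0)
    (hf : Free6 d) (v : HeightOneSpectrum (𝓞 N)) (hN : NiceAt v) (h6 : ((6 * d : ℤ) : 𝓞 N) ∈ v.asIdeal)
    (hno : ¬ ((2 : 𝓞 N) ∈ v.asIdeal ∧ G2 d)) (W : WeierstrassCurve N)
    (C : WeierstrassCurve.VariableChange N) (hC : C • W = crv (d : N)) : locPoly W v = 1 := by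
  have hchar : CharZero (v.adicCompletion N) :=
    charZero_of_injective_algebraMap (algebraMap N (v.adicCompletion N)).injective
  -- the change of variables over the completion
  have hC' : C.map (algebraMap N (v.adicCompletion N)) • W.baseChange (v.adicCompletion N) =
      crv (algebraMap N (v.adicCompletion N) (d : N)) := by
    have h1 := W.map_variableChange C (algebraMap N (v.adicCompletion N))
    rw [hC, crv_map] at h1
    exact h1
  have H1 : ¬ (12 : ℤ) ∣ od v (432 * (d : N) ^ 2) → locPoly W v = 1 := by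
    intro h12
    refine add_one (v.adicCompletionIntegers N) (W.baseChange (v.adicCompletion N))
      (C.map (algebraMap N (v.adicCompletion N))) _ hC' fun t => ?_
    have h2 := tr_pow v 12 (432 * (d : N) ^ 2) (Bad_pow v (by exact_mod_cast h12)) t
    rw [map_mul, map_pow, map_ofNat] at h2
    exact h2
  obtain ⟨p, hp, hpd, hpv⟩ := Bad_prime v (mul_ne_zero (by norm_num) hd) h6
  obtain ⟨n3, n2, n4⟩ := hN p hp hpv
  obtain ⟨a, d', hda, hd'⟩ := Bad_split hp hd
  have hd0 : d' ≠ 0 := by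
    rintro rfl
    exact hd' (dvd_zero _)
  have hp0 : (p : ℤ) ≠ 0 := Int.natCast_ne_zero.2 hp.ne_zero
  have ha5 : p ≠ 3 → a ≤ 5 := by
    intro h3
    by_contra h
    push Not at h
    refine hf p hp h3 ?_
    rw [hda]
    exact (pow_dvd_pow _ h).mul_right d'
  have hod : ∀ (m : ℕ) (z : ℤ), ¬ (p : ℤ) ∣ z → 432 * d ^ 2 = (p : ℤ) ^ m * z →
      od v (432 * (d : N) ^ 2) = m * od v (p : N) := by
    intro m z hz h
    have h1 : (432 * (d : N) ^ 2) = (((p : ℤ) ^ m * z : ℤ) : N) := by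
      rw [← h]
      push_cast
      ring
    rw [h1]
    exact Bad_od v hp hpv m z hz
  rcases eq_or_ne p 3 with rfl | hp3
  · -- p = 3
    apply H1
    rw [hod (3 + 2 * a) (16 * d' ^ 2) ?_ ?_]
    · rintro ⟨c, hc⟩
      apply n4
      have h1 : (4 : ℤ) ∣ ((3 + 2 * a : ℕ) : ℤ) * od v ((3 : ℕ) : N) := ⟨3 * c, by rw [hc]; ring⟩
      have h2 : IsCoprime (4 : ℤ) ((3 + 2 * a : ℕ) : ℤ) := by
        have h3 : IsCoprime (2 : ℤ) ((3 + 2 * a : ℕ) : ℤ) := ⟨-(a : ℤ) - 1, 1, by push_cast; ring⟩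
        have h4 : (4 : ℤ) = 2 ^ 2 := by norm_num
        rw [h4]
        exact h3.pow_left
      exact h2.dvd_of_dvd_mul_left h1
    · intro h1
      have h2 : Prime ((3 : ℕ) : ℤ) := Nat.prime_iff_prime_int.1 Nat.prime_three
      rcases h2.dvd_or_dvd h1 with h3 | h3
      · norm_num at h3
      · exact hd' (h2.dvd_of_dvd_pow h3)
    · rw [hda]
      push_cast
      ring
  rcases eq_or_ne p 2 with rfl | hp2
  · -- p = 2
    have n2' := n2 hp3
    have hgcd : IsCoprime (12 : ℤ) (od v ((2 : ℕ) : N)) := Bad_cop n2' n3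
    by_cases ha : a = 4
    · subst ha
      have h16 : d = 16 * d' := by
        rw [hda]
        norm_num
      have hodd : ¬ (2 : ℤ) ∣ d' := by exact_mod_cast hd'
      have hmod : ∃ m : ℤ, d' + 1 = 4 * m := by
        refine ⟨(d' + 1) / 4, ?_⟩
        by_contra hne
        apply hno
        refine ⟨by exact_mod_cast hpv, (d' - 1) / 4, ?_⟩
        omega
      obtain ⟨m, hm⟩ := hmod
      have hC2 : C.map (algebraMap N (v.adicCompletion N)) • W.baseChange (v.adicCompletion N) =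
          crv (16 * algebraMap N (v.adicCompletion N) (d' : N)) := by
        have h5 : (d : N) = 16 * (d' : N) := by
          rw [h16]
          push_cast
          ring
        rw [hC', h5, map_mul, map_ofNat]
      have h2lt : v.valuation N (2 : N) < 1 := by
        have h3 : v.valuation N (algebraMap (𝓞 N) N ((2 : ℕ) : 𝓞 N)) < 1 :=
          (HeightOneSpectrum.valuation_lt_one_iff_mem (K := N) v (((2 : ℕ) : 𝓞 N))).2 hpv
        rw [map_natCast] at h3
        exact h3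
      refine add_two (v.adicCompletionIntegers N) (W.baseChange (v.adicCompletion N))
        (C.map (algebraMap N (v.adicCompletion N))) (algebraMap N (v.adicCompletion N) (d' : N)) hC2 ?_ ?_ ?_
      · have h3 := (tr_lt_one v (2 : N)).2 h2lt
        rw [map_ofNat] at h3
        exact h3
      · have h3 := (tr_le_N v ((d' : N) + 1) (4 : N)).2 ?_
        · rw [map_add, map_one, map_ofNat] at h3
          exact h3
        · have h4 : (d' : N) + 1 = 4 * (m : N) := by exact_mod_cast congrArg (Int.cast : ℤ → N) hm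
          rw [h4, map_mul]
          exact mul_le_of_le_one_right' (Bad_le v m)
      · intro t
        have h3 := tr_pow v 2 (2 : N) (Bad_pow v ?_) t
        · rw [map_ofNat] at h3
          exact h3
        · exact_mod_cast n2'
    · apply H1
      rw [hod (4 + 2 * a) (27 * d' ^ 2) ?_ ?_]
      · intro h1
        have h2 : (12 : ℤ) ∣ ((4 + 2 * a : ℕ) : ℤ) := hgcd.dvd_of_dvd_mul_right h1
        have h3 := ha5 hp3
        have h4 : 12 ∣ 4 + 2 * a := by exact_mod_cast h2
        omega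
      · intro h1
        have h2 : Prime ((2 : ℕ) : ℤ) := Nat.prime_iff_prime_int.1 Nat.prime_two
        rcases h2.dvd_or_dvd h1 with h3 | h3
        · norm_num at h3
        · exact hd' (h2.dvd_of_dvd_pow h3)
      · rw [hda]
        push_cast
        ring
  · -- p ≥ 5
    have hpr : Prime (p : ℤ) := Nat.prime_iff_prime_int.1 hp
    have hp23 : ¬ (p : ℤ) ∣ 6 := by
      intro h1
      have h2 : p ∣ 6 := by exact_mod_cast h1
      have h3 : p ∣ 2 * 3 := h2
      rcases hp.dvd_mul.1 h3 with h4 | h4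
      · exact hp2 ((Nat.prime_dvd_prime_iff_eq hp Nat.prime_two).1 h4)
      · exact hp3 ((Nat.prime_dvd_prime_iff_eq hp Nat.prime_three).1 h4)
    have hpd2 : (p : ℤ) ∣ d := (hpr.dvd_or_dvd hpd).resolve_left hp23
    have ha1 : 1 ≤ a := by
      by_contra h1
      have h2 : a = 0 := by omega
      rw [hda, h2, pow_zero, one_mul] at hpd2
      exact hd' hpd2
    have hgcd : IsCoprime (12 : ℤ) (od v (p : N)) := Bad_cop (n2 hp3) n3
    apply H1
    rw [hod (2 * a) (432 * d' ^ 2) ?_ ?_]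
    · intro h1
      have h2 : (12 : ℤ) ∣ ((2 * a : ℕ) : ℤ) := hgcd.dvd_of_dvd_mul_right h1
      have h3 := ha5 hp3
      have h4 : 12 ∣ 2 * a := by exact_mod_cast h2
      omega
    · intro h1
      rcases hpr.dvd_or_dvd h1 with h3 | h3
      · apply hp23
        have h4 : (p : ℤ) ∣ 6 ^ 4 := by
          have h5 : (6 : ℤ) ^ 4 = 432 * 3 := by norm_num
          rw [h5]
          exact h3.mul_right 3
        exact hpr.dvd_of_dvd_pow h4
      · exact hd' (hpr.dvd_of_dvd_pow h3)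
    · rw [hda]
      ring

end Pool.Agent.Lib.MP_1a91b9_ntX.LF
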