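import Pool.Agent.Lib.MP_1a91b9_ntX.LF.Defs
import Pool.Agent.Lib.MP_1a91b9_ntT.DW.Cls

/-!
# The curves which become isomorphic to `y² = x³ + d` over an extension of degree prime to six

PROOF.
`exists_twd`: port of `exists_tw3` in MP_1a91b9_ntT/DW/Alg.lean: `W` is isomorphic to `crv B` over `N` (`exists_short`, `c₄ = 0`), a variable change over `L` between `crv B` and `crv d` has `s = r = t = 0`, so `B = u ^ 6 d` in `L` (`u` the unit of the change or its inverse),
`B / d = (u²)³` is a cube `e ^ 3` of `N` (`exists_cube3`), `e³ = u ^ 6`, and `(e / u²)³ = 1`, so `x = (e / u²)² u` has `x² = e`, as there. The conclusion: `D • W = crv (e ^ 3 * d)`.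
`class_six`: port of `twist_class` in MP_1a91b9_ntT/DW/Cls.lean with the same proof: `e = y²` gives `crv (y ^ 6 d)`, `exists_scale`; `e = -3 y²` gives `crv (-27 y ^ 6 d)`.
-/

set_option autoImplicit false

namespace Pool.Agent.Lib.MP_1a91b9_ntX.LF

open NumberField IsDedekindDomain WeierstrassCurve Pool.Agent.Lib.MP_1a91b9_nt
  Pool.Agent.Lib.MP_1a91b9_ntT Pool.Agent.Lib.MP_1a91b9_ntT.TW Pool.Agent.Lib.MP_1a91b9_ntT.DW

universe u

private theorem cls_repr (k : K) : ∃ a b : ℚ, k = algebraMap ℚ K a + algebraMap ℚ K b * om := by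
  have htop : Algebra.adjoin ℚ {om} = ⊤ := IsCyclotomicExtension.adjoin_primitive_root_eq_top om_spec
  have hk : k ∈ Algebra.adjoin ℚ {om} := by
    rw [htop]
    trivial
  induction hk using Algebra.adjoin_induction with
  | mem x hx =>
    rw [Set.mem_singleton_iff] at hx
    exact ⟨0, 1, by rw [hx, map_zero, map_one, zero_add, one_mul]⟩
  | algebraMap r => exact ⟨r, 0, by rw [map_zero, zero_mul, add_zero]⟩
  | add x y _ _ hx hy =>
    obtain ⟨a, b, rfl⟩ := hx
    obtain ⟨c, d, rfl⟩ := hy
    exact ⟨a + c, b + d, by rw [map_add, map_add]; ring⟩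
  | mul x y _ _ hx hy =>
    obtain ⟨a, b, rfl⟩ := hx
    obtain ⟨c, d, rfl⟩ := hy
    refine ⟨a * c - b * d, a * d + b * c - b * d, ?_⟩
    have h2 : om ^ 2 = -om - 1 := by linear_combination S4.om_eq
    simp only [map_add, map_sub, map_mul]
    linear_combination (algebraMap ℚ K b * algebraMap ℚ K d) * h2

theorem exists_twd {N L : Type*} [Field N] [CharZero N] [Field L] [CharZero L] [Algebra N L]
    [FiniteDimensional N L] (hk : ¬ 3 ∣ Module.finrank N L) (d : ℤ) (hd : d ≠ 0)
    (W : WeierstrassCurve N) (C₀ : WeierstrassCurve.VariableChange L)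
    (hC : C₀ • (W.baseChange L) = crv (d : L)) :
    ∃ (e : N) (x : L) (D : WeierstrassCurve.VariableChange N), e ≠ 0 ∧
      x ^ 2 = algebraMap N L e ∧ D • W = crv (e ^ 3 * (d : N)) := by
  obtain ⟨D, hD⟩ := exists_short W
  have hdL : (d : L) ≠ 0 := by exact_mod_cast hd
  have hdN : (d : N) ≠ 0 := by exact_mod_cast hd
  -- the coefficient `A` is zero
  have hc4L : (W.baseChange L).c₄ = 0 := by
    have h1 := congrArg WeierstrassCurve.c₄ hC
    rw [WeierstrassCurve.variableChange_c₄, crv_c₄] at h1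
    rcases mul_eq_zero.1 h1 with h | h
    · exact absurd h (pow_ne_zero 4 (Units.ne_zero _))
    · exact h
  have hc4 : W.c₄ = 0 := by
    apply (algebraMap N L).injective
    rw [map_zero, ← hc4L]
    exact (WeierstrassCurve.map_c₄ _ _).symm
  rw [hc4, neg_zero, zero_div] at hD
  generalize hBdef : -W.c₆ / 864 = B at hD
  -- a variable change over `L`
  have hDL : (D.map (algebraMap N L)) • (W.baseChange L) =
      (⟨0, 0, 0, 0, algebraMap N L B⟩ : WeierstrassCurve L) := by
    have h1 : (D.map (algebraMap N L)) • (W.baseChange L) = (D • W).map (algebraMap N L) :=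
      (WeierstrassCurve.map_variableChange _ _ _)
    rw [h1, hD]
    ext <;> simp
  obtain ⟨C₂, hC₂⟩ : ∃ C₂ : WeierstrassCurve.VariableChange L,
      C₂ • (⟨0, 0, 0, 0, algebraMap N L B⟩ : WeierstrassCurve L) = crv (d : L) := by
    refine ⟨C₀ * (D.map (algebraMap N L))⁻¹, ?_⟩
    rw [← hDL, mul_smul, inv_smul_smul, hC]
  have hu : (C₂.u : L) ≠ 0 := C₂.u.ne_zero
  have hui : ((C₂.u⁻¹ : Lˣ) : L) = (C₂.u : L)⁻¹ := by simp
  have e1 := congrArg WeierstrassCurve.a₁ hC₂
  rw [WeierstrassCurve.variableChange_a₁, hui] at e1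
  simp only [crv] at e1
  have hs : C₂.s = 0 := by
    have h1 : (C₂.u : L)⁻¹ * (0 + 2 * C₂.s) = 0 := e1
    rcases mul_eq_zero.1 h1 with h | h
    · exact absurd h (inv_ne_zero hu)
    · have h2 : (2 : L) * C₂.s = 0 := by linear_combination h
      rcases mul_eq_zero.1 h2 with h | h
      · exact absurd h two_ne_zero
      · exact h
  have e2 := congrArg WeierstrassCurve.a₂ hC₂
  rw [WeierstrassCurve.variableChange_a₂, hui, hs] at e2
  simp only [crv] at e2
  have hr : C₂.r = 0 := by
    rcases mul_eq_zero.1 e2 with h | h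
    · exact absurd h (pow_ne_zero 2 (inv_ne_zero hu))
    · have h2 : (3 : L) * C₂.r = 0 := by linear_combination h
      rcases mul_eq_zero.1 h2 with h | h
      · norm_num at h
      · exact h
  have e3 := congrArg WeierstrassCurve.a₃ hC₂
  rw [WeierstrassCurve.variableChange_a₃, hui, hr] at e3
  simp only [crv] at e3
  have ht : C₂.t = 0 := by
    rcases mul_eq_zero.1 e3 with h | h
    · exact absurd h (pow_ne_zero 3 (inv_ne_zero hu))
    · have h2 : (2 : L) * C₂.t = 0 := by linear_combination h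
      rcases mul_eq_zero.1 h2 with h | h
      · exact absurd h two_ne_zero
      · exact h
  have e6 := congrArg WeierstrassCurve.a₆ hC₂
  rw [WeierstrassCurve.variableChange_a₆, hui, hr, ht] at e6
  simp only [crv] at e6
  set u : L := (C₂.u : L) with hudef
  have hB : algebraMap N L B = (d : L) * u ^ 6 := by
    have h1 : u⁻¹ ^ 6 * algebraMap N L B = (d : L) := by linear_combination e6
    have h2 : algebraMap N L B = u ^ 6 * (u⁻¹ ^ 6 * algebraMap N L B) := by
      rw [← mul_assoc, ← mul_pow, mul_inv_cancel₀ hu, one_pow, one_mul]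
    rw [h2, h1, mul_comm]
  obtain ⟨e, he⟩ := exists_cube3 hk (B / (d : N)) (u ^ 2) (by
    rw [map_div₀, hB, map_intCast]
    field_simp)
  have he3 : algebraMap N L e ^ 3 = u ^ 6 := by
    rw [← map_pow, he, map_div₀, hB, map_intCast]
    field_simp
  have he0 : e ≠ 0 := by
    rintro rfl
    rw [map_zero, zero_pow three_ne_zero] at he3
    exact pow_ne_zero 6 hu he3.symm
  have heL : algebraMap N L e ≠ 0 := by
    rw [Ne, map_eq_zero]; exact he0
  refine ⟨e, (algebraMap N L e / u ^ 2) ^ 2 * u, D, he0, ?_, ?_⟩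
  · have h1 : ((algebraMap N L e / u ^ 2) ^ 2 * u) ^ 2 =
        algebraMap N L e * (algebraMap N L e ^ 3 / u ^ 6) := by
      field_simp
    rw [h1, he3, div_self (pow_ne_zero 6 hu), mul_one]
  · rw [hD]
    have h1 : e ^ 3 * (d : N) = B := by
      rw [he]
      field_simp
    rw [h1]
    rfl

theorem class_six (N L M : Type u) [Field N] [NumberField N] [Field L] [NumberField L]
    [Field M] [NumberField M] [Algebra N L] [Algebra L M] [Algebra K M]
    (h2 : ¬ 2 ∣ Module.finrank K M) (h3 : ¬ 3 ∣ Module.finrank K M) (d : ℤ) (hd : d ≠ 0)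
    (W : WeierstrassCurve N) (C : WeierstrassCurve.VariableChange L)
    (hC : C • (W.baseChange L) = crv (d : L)) :
    (∃ D : WeierstrassCurve.VariableChange N, D • W = crv (d : N)) ∨
      ∃ D : WeierstrassCurve.VariableChange N, D • W = crv ((-27 * d : ℤ) : N) := by
  let algNM : Algebra N M := ((algebraMap L M).comp (algebraMap N L)).toAlgebra
  have htow : IsScalarTower N L M := IsScalarTower.of_algebraMap_eq' rfl
  have hK2 : Module.finrank ℚ K = 2 := S4.u4_finrank
  have h3L : ¬ 3 ∣ Module.finrank N L := by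
    intro h
    have h4 : 3 ∣ Module.finrank ℚ M := by
      have h5 := Module.finrank_mul_finrank ℚ N L
      have h6 := Module.finrank_mul_finrank ℚ L M
      rw [← h6, ← h5]
      exact Dvd.dvd.mul_right (Dvd.dvd.mul_left h _) _
    rw [← Module.finrank_mul_finrank ℚ K M, hK2] at h4
    rcases (Nat.prime_three.dvd_mul).1 h4 with h7 | h7
    · norm_num at h7
    · exact h3 h7
  obtain ⟨e, x, D, he, hx, hD⟩ := exists_twd h3L d hd W C hC
  set z : M := 2 * algebraMap K M om + 1 with hzdef
  have hz : z ^ 2 = -3 := om_of_sqrt _ rfl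
  let F : IntermediateField N M := quadIF N M z hz
  have hxM : (algebraMap L M x) ^ 2 = algebraMap N M e := by
    rw [← map_pow, hx]
    rfl
  -- `K` is contained in `F`
  have homF : algebraMap K M om ∈ F := by
    refine (mem_quadIF z hz _).2 ⟨-1 / 2, 1 / 2, ?_⟩
    rw [map_div₀, map_div₀, map_neg, map_one, map_ofNat, hzdef]
    ring
  have hdeg : ¬ 2 ∣ Module.finrank F M := by
    obtain ⟨φ, hφ⟩ : ∃ φ : K →+* F, ∀ t : K, ((φ t : F) : M) = algebraMap K M t := by
      have hrange : ∀ t : K, algebraMap K M t ∈ F := by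
        intro t
        obtain ⟨a, b, rfl⟩ := cls_repr t
        rw [map_add, map_mul]
        have e1 : algebraMap K M (algebraMap ℚ K a) = algebraMap N M (algebraMap ℚ N a) := by
          rw [eq_ratCast, eq_ratCast, map_ratCast, map_ratCast]
        have e2 : algebraMap K M (algebraMap ℚ K b) = algebraMap N M (algebraMap ℚ N b) := by
          rw [eq_ratCast, eq_ratCast, map_ratCast, map_ratCast]
        rw [e1, e2]
        exact F.add_mem (F.algebraMap_mem _) (F.mul_mem (F.algebraMap_mem _) homF)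
      exact ⟨(algebraMap K M).codRestrict F.toSubalgebra.toSubring hrange, fun t => rfl⟩
    let algKF : Algebra K F := φ.toAlgebra
    have ht : IsScalarTower K F M := IsScalarTower.of_algebraMap_eq fun t => (hφ t).symm
    intro h
    apply h2
    rw [← Module.finrank_mul_finrank K F M]
    exact Dvd.dvd.mul_left h _
  obtain ⟨y, hy⟩ := exists_sq_odd (N := F) (L := M) hdeg (algebraMap N F e) (algebraMap L M x) (by
    rw [hxM]
    rfl)
  have hy2 : y ^ 2 = algebraMap N F e := by
    apply (algebraMap F M).injective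
    rw [map_pow, hy, hxM]
    rfl
  have key : (∃ y : N, e = y ^ 2) ∨ ∃ y : N, e = -3 * y ^ 2 := by
    by_cases hzN : ∃ t : N, algebraMap N M t = z
    · left
      obtain ⟨t, ht⟩ := hzN
      obtain ⟨a, b, hab⟩ := (mem_quadIF z hz _).1 y.2
      refine ⟨a + b * t, ?_⟩
      apply (algebraMap N M).injective
      rw [map_pow, map_add, map_mul, ht, ← hab, ← hxM, ← hy]
      rfl
    · have hzF : z ∈ F := (mem_quadIF z hz _).2 ⟨0, 1, by simp⟩
      refine sq_cases (N := N) (F := F) ⟨z, hzF⟩ ?_ ?_ ?_ y e hy2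
      · apply Subtype.ext
        exact hz
      · intro t ht
        exact hzN ⟨t, congrArg Subtype.val ht⟩
      · intro t
        obtain ⟨a, b, hab⟩ := (mem_quadIF z hz _).1 t.2
        exact ⟨a, b, Subtype.ext hab⟩
  rcases key with ⟨y, rfl⟩ | ⟨y, rfl⟩
  · left
    have hy0 : y ≠ 0 := by
      rintro rfl
      exact he (by rw [zero_pow two_ne_zero])
    obtain ⟨D', hD'⟩ := exists_scale (d : N) y hy0
    refine ⟨D'⁻¹ * D, ?_⟩
    rw [mul_smul, hD, show (y ^ 2) ^ 3 * (d : N) = y ^ 6 * (d : N) by ring, ← hD', inv_smul_smul]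
  · right
    have hy0 : y ≠ 0 := by
      rintro rfl
      exact he (by rw [zero_pow two_ne_zero, mul_zero])
    obtain ⟨C', hC'⟩ := exists_scale ((-27 * d : ℤ) : N) y hy0
    refine ⟨C'⁻¹ * D, ?_⟩
    rw [mul_smul, hD, show (-3 * y ^ 2) ^ 3 * (d : N) = y ^ 6 * ((-27 * d : ℤ) : N) by
      push_cast; ring, ← hC', inv_smul_smul]

end Pool.Agent.Lib.MP_1a91b9_ntX.LF
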