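import Pool.Agent.Lib.MP_1a91b9_ntX.LF.Defs

/-!
# The number of points: twists by sixth powers, characteristic `2`

PROOF.
`card_crv_scale`: `exists_scale` gives `C • crv d = crv (α ^ 6 d)`, and a variable change gives a bijection of the points (`vcFun_bijective`, as used in MP_1a91b9_ntT/TW/Loc.lean `finite_iso`).
`card_crv_neg27`: `s² = -3`: `-27 = s ^ 6`.
`card_crm_of_two`: `3 ∤ q - 1`, `3 ≠ 0`: `Δ = -27 (4 m + 1)²`, `4 = 0` in `k`, so `Δ ≠ 0` and all the solutions of `y² + y = x³ + m` are points; cubing is bijective, so for every `y` there is exactly one `x`: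
`q + 1` points (copy `card_fermatCubic_of_two` in MP_1a91b9_ntT/S4/Count.lean with `y² + y - m` in place of `y² + y`).
`card_crm_of_one`: `c² + c + 1 = 0`, characteristic `2`, so `c² + c = 1`. If `m = 0` nothing to prove: `crm 0 = fermatCubic k`. If `m = 1`: the variable change `⟨1, 0, 0, c⟩` maps
`crm 0 = ⟨0,0,1,0,0⟩` to `⟨0, 0, 1 + 2 c, 0, 0 - c - c²⟩ = crm (-(c + c²)) = crm (-1) = crm 1` (check the formulas `variableChange_a₃`, `variableChange_a₆`; `2 = 0`), so the numbers of points agree.
-/

set_option autoImplicit false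

namespace Pool.Agent.Lib.MP_1a91b9_ntX.LF

open WeierstrassCurve Pool.Agent.Lib.MP_1a91b9_nt Pool.Agent.Lib.MP_1a91b9_ntT
  Pool.Agent.Lib.MP_1a91b9_ntT.S4

/-- isomorphic curves have the same number of points -/
theorem card_vc {k : Type*} [Field k] (W W' : WeierstrassCurve k)
    (C : WeierstrassCurve.VariableChange k) (hC : C • W = W') :
    Nat.card W'.toAffine.Point = Nat.card W.toAffine.Point := by
  subst hC
  exact card_point_variableChange W C

theorem card_crv_scale {k : Type*} [Field k] (d α : k) (hα : α ≠ 0) :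
    Nat.card (crv (α ^ 6 * d)).toAffine.Point = Nat.card (crv d).toAffine.Point := by
  obtain ⟨C, hC⟩ := exists_scale d α hα
  exact card_vc _ _ C hC

theorem card_crv_neg27 {k : Type*} [Field k] (h3 : (3 : k) ≠ 0) (d s : k) (hs : s ^ 2 = -3) :
    Nat.card (crv (-27 * d)).toAffine.Point = Nat.card (crv d).toAffine.Point := by
  have hs0 : s ≠ 0 := by
    rintro rfl
    apply h3
    have h1 : (3 : k) = -(0 ^ 2) := by rw [hs, neg_neg]
    rw [h1]
    ring
  have h6 : s ^ 6 = -27 := by
    have : s ^ 6 = (s ^ 2) ^ 3 := by ring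
    rw [this, hs]
    ring
  rw [← h6]
  exact card_crv_scale d s hs0

private theorem CntB_card_point {k : Type*} [Field k] [Fintype k] [DecidableEq k]
    (m : k) (hΔ : (crm m).Δ ≠ 0) :
    Nat.card (crm m).toAffine.Point =
      1 + ∑ y : k, (Finset.univ.filter fun x : k => x ^ 3 = y ^ 2 + y - m).card := by
  classical
  have hns : ∀ p : k × k, (crm m).toAffine.Nonsingular p.1 p.2 ↔
      p.1 ^ 3 = p.2 ^ 2 + p.2 - m := by
    intro p
    have hE : (crm m).IsElliptic := ⟨isUnit_iff_ne_zero.mpr hΔ⟩
    rw [← WeierstrassCurve.Affine.equation_iff_nonsingular,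
      WeierstrassCurve.Affine.equation_iff]
    simp only [crm, WeierstrassCurve.toAffine]
    constructor
    · intro h
      linear_combination -h
    · intro h
      linear_combination -h
  rw [Nat.card_congr (pointEquivOption _), Finite.card_option, add_comm]
  congr 1
  rw [Nat.card_eq_fintype_card, Fintype.card_subtype]
  have e1 : (Finset.univ.filter fun p : k × k => (crm m).toAffine.Nonsingular p.1 p.2) =
      Finset.univ.filter fun p : k × k => p.1 ^ 3 = p.2 ^ 2 + p.2 - m :=
    Finset.filter_congr fun p _ => hns p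
  rw [e1, Finset.card_eq_sum_card_fiberwise (f := Prod.snd) (t := Finset.univ)
    (fun _ _ => Finset.mem_coe.mpr (Finset.mem_univ _))]
  refine Finset.sum_congr rfl fun y _ => ?_
  refine Finset.card_bij (fun p _ => p.1) ?_ ?_ ?_
  · rintro ⟨a, b⟩ hp
    simp only [Finset.mem_filter, Finset.mem_univ, true_and] at hp ⊢
    obtain ⟨h1, rfl⟩ := hp
    exact h1
  · rintro ⟨a, b⟩ hp ⟨a', b'⟩ hp' h
    simp only [Finset.mem_filter, Finset.mem_univ, true_and] at hp hp' h
    rw [Prod.mk.injEq]
    exact ⟨h, hp.2.trans hp'.2.symm⟩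
  · intro a ha
    simp only [Finset.mem_filter, Finset.mem_univ, true_and] at ha
    exact ⟨(a, y), by simpa using ha, rfl⟩

/-- Characteristic `2`, cubing bijective. -/
theorem card_crm_of_two {k : Type*} [Field k] [Finite k] (h2 : (2 : k) = 0) (m : k)
    (hq : ¬ 3 ∣ Nat.card k - 1) : Nat.card (crm m).toAffine.Point = Nat.card k + 1 := by
  classical
  have := Fintype.ofFinite k
  have hΔ : (crm m).Δ ≠ 0 := by
    rw [crm_Δ]
    have h1 : -(27 * (4 * m + 1) ^ 2) = (1 : k) - 2 * (14 + 27 * 4 * (2 * m ^ 2 + m)) := by ring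
    rw [h1, h2, zero_mul, sub_zero]
    exact one_ne_zero
  rw [Nat.card_eq_fintype_card (α := k)] at hq ⊢
  rw [CntB_card_point m hΔ, add_comm]
  congr 1
  have hcop : Nat.Coprime 3 (Fintype.card kˣ) := by
    rw [Fintype.card_units]
    exact (Nat.Prime.coprime_iff_not_dvd Nat.prime_three).mpr hq
  have hinj : Function.Injective fun x : k => x ^ 3 := by
    intro x y hxy
    have hxy' : x ^ 3 = y ^ 3 := hxy
    by_cases hx : x = 0
    · subst hx
      rw [zero_pow (by norm_num)] at hxy'
      exact (pow_eq_zero_iff (by norm_num) |>.mp hxy'.symm).symm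
    · have hy : y ≠ 0 := by
        rintro rfl
        rw [zero_pow (by norm_num)] at hxy'
        exact hx (pow_eq_zero_iff (by norm_num) |>.mp hxy')
      have h1 : (Units.mk0 x hx) ^ 3 = (Units.mk0 y hy) ^ 3 := by
        ext
        simpa using hxy'
      have h2 := (powCoprime (G := kˣ) (n := 3) (by
        rw [Nat.card_eq_fintype_card]; exact hcop.symm)).injective (a₁ := Units.mk0 x hx)
          (a₂ := Units.mk0 y hy) h1
      simpa using congrArg Units.val h2
  have hbij := Finite.injective_iff_bijective.mp hinj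
  have hone : ∀ y : k, (Finset.univ.filter fun x : k => x ^ 3 = y ^ 2 + y - m).card = 1 := by
    intro y
    obtain ⟨x, hx⟩ := hbij.2 (y ^ 2 + y - m)
    rw [Finset.card_eq_one]
    refine ⟨x, ?_⟩
    ext z
    simp only [Finset.mem_filter, Finset.mem_univ, true_and, Finset.mem_singleton]
    constructor
    · intro hz
      exact hinj (hz.trans hx.symm)
    · rintro rfl
      exact hx
  simp [hone]

/-- Characteristic `2`, with a primitive cube root of unity. -/
theorem card_crm_of_one {k : Type*} [Field k] (h2 : (2 : k) = 0) (m : ℤ) (c : k)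
    (hc : c ^ 2 + c + 1 = 0) :
    Nat.card (crm (m : k)).toAffine.Point = Nat.card (fermatCubic k).toAffine.Point := by
  rcases Int.even_or_odd m with ⟨n, hn⟩ | ⟨n, hn⟩
  · have h0 : (m : k) = 0 := by
      rw [hn]
      push_cast
      rw [← two_mul, h2, zero_mul]
    rw [h0]
    rfl
  · have h1 : (m : k) = 1 := by
      rw [hn]
      push_cast
      rw [h2, zero_mul, zero_add]
    rw [h1]
    refine card_vc (fermatCubic k) (crm 1) ⟨1, 0, 0, c⟩ ?_
    ext
    · simp [crm, fermatCubic, WeierstrassCurve.variableChange_a₁]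
    · simp [crm, fermatCubic, WeierstrassCurve.variableChange_a₂]
    · simp [crm, fermatCubic, WeierstrassCurve.variableChange_a₃, h2]
    · simp [crm, fermatCubic, WeierstrassCurve.variableChange_a₄]
    · simp only [crm, fermatCubic, WeierstrassCurve.variableChange_a₆, inv_one, Units.val_one,
        one_pow, one_mul]
      linear_combination -hc

end Pool.Agent.Lib.MP_1a91b9_ntX.LF
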