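import Pool.Agent.Lib.MP_1a91b9_ntX.DB.FrobU
import Pool.Agent.Lib.MP_1a91b9_ntX.AN.Psi
import Pool.Agent.Lib.MP_1a91b9_ntT.S4.ConjPsi

/-!
# The Hecke character and the complex conjugation

PROOF. `cO` = conjugation of `𝓞 K` (S4/ConjPsi.lean).
`ps_map`: both sides are multiplicative (`Ideal.map_mul`, `HC.hd.mul`), both are `1` at `1`, both `0` at `0` (`psi_zero`-like: `HC.hd.zero`), so by `UniqueFactorizationMonoid.induction_on_prime` it is enough for a prime `P ≠ 0`; `P' = P.map cO` is again a prime (`Ideal.map_comap_of_equiv`,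
see `psiK_map`), same absolute norm (see `hN` in `psi_conj`, S4/ConjPsi), and for `n : ℤ`: `(n : 𝓞 K) ∈ P' ↔ (n : 𝓞 K) ∈ P`.
(1) `6 D ∉ P`. `HC.hd.sym` for `P` and `P'`: `u`, `u'` with `u ≡ (4 D) ^ e (mod P)`, `u' ≡ (4 D) ^ e (mod P')`, `3 ∣ u ps P - 1`, `3 ∣ u' ps P' - 1`. Apply `cO`: `cO u ≡ (4 D)^e (mod P')`, so `cO u ≡ u' (mod P')` and `cO u = u'` (`unit_inj` of DB/FrobU for `F := K` and the valuation of `P'`, `6 ∉ P'`; or directly: distinct sixth roots of
unity differ by a divisor of `6`). `cO (u ps P)` and `u' ps P'` are congruent to `1` modulo `3` and generate `P'` (`ps_span`), so they are equal (`S4.psiK_unique`). Hence `cO (ps P) = ps P'`.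
(2) `6 D ∈ P` and not (`2 ∈ P` and `G2`, i.e. `∃ m : ℤ, D = 16 * (4 * m + 1)`): `HC.hd.bad` gives `f ∈ P` and `f ∈ P'`, both values are `0` (`HC.hd.zero`; `P ⊔ span {f} ≤ P ≠ ⊤`).
(3) `2 ∈ P` and `∃ m, D = 16 (4 m + 1)`: `P = span {2}` (`2` is prime in `𝓞 K`; see the proof of `psi_two` in job LocB: norms are `1` modulo `3`), `P' = span {2}`, `HC.hd.two`: `-2` and `cO (-2) = -2`.
`psi_conj`, `psC_conj`: copy the proofs of the theorems of the same names in MP_1a91b9_ntT/S4/ConjPsi.lean, with `ps_map` in place of `psiK_map` (`psi F I = ps (relNorm I)` by definition).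
-/

set_option autoImplicit false

namespace Pool.Agent.Lib.MP_1a91b9_ntX.LF

open NumberField IsDedekindDomain Pool.Agent.Lib.MP_1a91b9_nt
  Pool.Agent.Lib.MP_1a91b9_ntT
open Pool.Agent.Lib.MP_1a91b9_ntT.S4 (cO)
open Pool.Agent.Lib.MP_1a91b9_ntX.AN (psC psbC)
open scoped Pointwise

universe u

private theorem Conj_mem (I : Ideal (𝓞 K)) (x : 𝓞 K) :
    x ∈ I.map cO.toRingHom ↔ cO.symm x ∈ I := by
  have h1 : I.map cO.toRingHom = I.comap cO.symm.toRingHom := Ideal.map_comap_of_equiv cO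
  rw [h1]
  exact Iff.rfl

private theorem Conj_mem' (I : Ideal (𝓞 K)) (x : 𝓞 K) (hx : x ∈ I) :
    cO x ∈ I.map cO.toRingHom := by
  rw [Conj_mem, cO.symm_apply_apply]
  exact hx

private theorem Conj_mem_int (I : Ideal (𝓞 K)) (n : ℤ) :
    ((n : ℤ) : 𝓞 K) ∈ I.map cO.toRingHom ↔ ((n : ℤ) : 𝓞 K) ∈ I := by
  rw [Conj_mem, map_intCast]

private theorem Conj_absNorm (I : Ideal (𝓞 K)) :
    Ideal.absNorm (I.map cO.toRingHom) = Ideal.absNorm I := by
  rw [Ideal.absNorm_apply, Ideal.absNorm_apply, Submodule.cardQuot_apply,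
    Submodule.cardQuot_apply]
  exact Nat.card_congr (Ideal.quotientEquiv I (I.map cO.toRingHom) cO rfl).symm.toEquiv

private theorem Conj_span_two (P : Ideal (𝓞 K)) [P.IsPrime] (h : (2 : 𝓞 K) ∈ P) :
    P = Ideal.span {2} := by
  have h2 : Fact (Nat.Prime 2) := ⟨Nat.prime_two⟩
  have h3 := S4.u4_prime_two (K := K) 2 (by norm_num) S4.omO S4.omO_eq P
    (by rw [Nat.cast_ofNat]; exact h)
  rwa [Nat.cast_ofNat] at h3

private theorem Conj_zero [DD] [HC] (P : HeightOneSpectrum (𝓞 K)) (h : HC.f ∈ P.asIdeal) :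
    ps P.asIdeal = 0 := by
  refine HC.hd.zero _ fun hc => ?_
  rw [Ideal.isCoprime_iff_sup_eq] at hc
  have h1 : P.asIdeal ⊔ Ideal.span {HC.f} ≤ P.asIdeal :=
    sup_le le_rfl ((Ideal.span_singleton_le_iff_mem _).mpr h)
  rw [hc, top_le_iff] at h1
  exact P.isPrime.ne_top h1

private theorem Conj_prime [DD] [HC] (P P' : HeightOneSpectrum (𝓞 K))
    (hPP : P'.asIdeal = P.asIdeal.map cO.toRingHom) : ps P'.asIdeal = cO (ps P.asIdeal) := by
  by_cases h6 : ((6 * DD.D : ℤ) : 𝓞 K) ∈ P.asIdeal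
  · have h6' : ((6 * DD.D : ℤ) : 𝓞 K) ∈ P'.asIdeal := by
      rw [hPP, Conj_mem_int]
      exact h6
    by_cases hg : (2 : 𝓞 K) ∈ P.asIdeal ∧ ∃ m : ℤ, DD.D = 16 * (4 * m + 1)
    · have h2' : (2 : 𝓞 K) ∈ P'.asIdeal := by
        have h3 := (Conj_mem_int P.asIdeal 2).2 (by rw [Int.cast_ofNat]; exact hg.1)
        rw [Int.cast_ofNat] at h3
        rw [hPP]
        exact h3
      have e1 := Conj_span_two P.asIdeal hg.1
      have e2 := Conj_span_two P'.asIdeal h2'
      have e3 : ps (Ideal.span {2}) = -2 := HC.hd.two hg.2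
      rw [e1, e2, e3, map_neg, map_ofNat]
    · have hg' : ¬ ((2 : 𝓞 K) ∈ P'.asIdeal ∧ ∃ m : ℤ, DD.D = 16 * (4 * m + 1)) := by
        rintro ⟨h1, h2⟩
        apply hg
        refine ⟨?_, h2⟩
        rw [hPP] at h1
        have h3 := (Conj_mem_int P.asIdeal 2).1 (by rw [Int.cast_ofNat]; exact h1)
        rw [Int.cast_ofNat] at h3
        exact h3
      rw [Conj_zero P (HC.hd.bad P h6 hg), Conj_zero P' (HC.hd.bad P' h6' hg'), map_zero]
  · have h6' : ((6 * DD.D : ℤ) : 𝓞 K) ∉ P'.asIdeal := by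
      rw [hPP, Conj_mem_int]
      exact h6
    obtain ⟨u, hu1, hu2⟩ := HC.hd.sym P h6
    obtain ⟨u', hu1', hu2'⟩ := HC.hd.sym P' h6'
    have hN : Ideal.absNorm P'.asIdeal = Ideal.absNorm P.asIdeal := by
      rw [hPP, Conj_absNorm]
    rw [hN] at hu1'
    have hv : (P'.valuation K) (6 : K) = 1 := by
      have e1 : (6 : K) = algebraMap (𝓞 K) K 6 := (map_ofNat (algebraMap (𝓞 K) K) 6).symm
      rw [e1]
      refine le_antisymm (P'.valuation_le_one (K := K) 6) (not_lt.1 fun hlt => ?_)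
      rw [HeightOneSpectrum.valuation_lt_one_iff_mem] at hlt
      apply h6'
      have e2 : ((6 * DD.D : ℤ) : 𝓞 K) = (DD.D : 𝓞 K) * 6 := by push_cast; ring
      rw [e2]
      exact Ideal.mul_mem_left _ _ hlt
    obtain ⟨cu, hcu⟩ : ∃ cu : (𝓞 K)ˣ, (cu : 𝓞 K) = cO (u : 𝓞 K) :=
      ⟨Units.map cO.toRingHom.toMonoidHom u, rfl⟩
    have huu : cu = u' := by
      apply MP_1a91b9_ntX.DB.unit_inj (P'.valuation K) hv
      have h1 := Conj_mem' P.asIdeal _ hu1
      rw [← hPP, map_sub, map_pow, map_intCast, ← hcu] at h1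
      have h2 : (cu : 𝓞 K) - u' ∈ P'.asIdeal := by
        have h3 := Ideal.sub_mem _ h1 hu1'
        rwa [sub_sub_sub_cancel_right] at h3
      have h3 := (P'.valuation_lt_one_iff_mem (K := K) _).2 h2
      have h4 : (((cu : 𝓞 K) - u' : 𝓞 K) : K) =
          algebraMap K K ((cu : 𝓞 K) : K) - algebraMap K K ((u' : 𝓞 K) : K) :=
        map_sub (algebraMap (𝓞 K) K) _ _
      rw [← h4]
      exact h3
    have h3 : (3 : 𝓞 K) ∣ (u' : 𝓞 K) * cO (ps P.asIdeal) - 1 := by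
      obtain ⟨c, hc⟩ := hu2
      refine ⟨cO c, ?_⟩
      rw [← huu, hcu, ← map_mul, ← map_one cO, ← map_sub]
      have h4 : (u : 𝓞 K) * ps P.asIdeal - 1 = 3 * c := hc
      rw [h4, map_mul, map_ofNat]
    have h4 : Ideal.span {(u' : 𝓞 K) * cO (ps P.asIdeal)} =
        Ideal.span {(u' : 𝓞 K) * ps P'.asIdeal} := by
      have e1 : Ideal.span {(u' : 𝓞 K) * ps P'.asIdeal} = P'.asIdeal := by
        rw [Ideal.span_singleton_mul_left_unit u'.isUnit]
        exact ps_span P' h6'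
      have e2 : Ideal.span {(u' : 𝓞 K) * cO (ps P.asIdeal)} = P'.asIdeal := by
        rw [Ideal.span_singleton_mul_left_unit u'.isUnit, hPP]
        conv_rhs => rw [← ps_span P h6]
        rw [Ideal.map_span, Set.image_singleton]
        rfl
      rw [e1, e2]
    have h5 := S4.psiK_unique _ _ h3 hu2' h4
    exact (mul_left_cancel₀ u'.ne_zero h5).symm

theorem ps_map [DD] [HC] (I : Ideal (𝓞 K)) : ps (I.map cO.toRingHom) = cO (ps I) := by
  induction I using UniqueFactorizationMonoid.induction_on_prime with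
  | h₁ =>
    have h0 : ps (0 : Ideal (𝓞 K)) = 0 := by
      refine HC.hd.zero _ fun h => ?_
      rw [Ideal.isCoprime_iff_sup_eq, Ideal.zero_eq_bot, bot_sup_eq,
        Ideal.span_singleton_eq_top] at h
      exact AN.f_not_isUnit h
    rw [Ideal.zero_eq_bot] at h0 ⊢
    rw [Ideal.map_bot, h0, map_zero]
  | h₂ x hx =>
    rw [Ideal.isUnit_iff] at hx
    have h1 : ps (1 : Ideal (𝓞 K)) = 1 := HC.hd.one
    rw [Ideal.one_eq_top] at h1
    rw [hx, Ideal.map_top, h1, map_one]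
  | h₃ a p ha hp ih =>
    have hPp : p.IsPrime := Ideal.isPrime_of_prime hp
    have hPb : p ≠ ⊥ := hp.ne_zero
    have hPp' : (p.map cO.toRingHom).IsPrime := Ideal.map_isPrime_of_equiv cO
    have hPb' : p.map cO.toRingHom ≠ ⊥ := by
      intro h
      apply hPb
      exact (Ideal.map_eq_bot_iff_of_injective (f := cO.toRingHom) cO.injective).1 h
    have h1 := Conj_prime ⟨p, hPp, hPb⟩ ⟨p.map cO.toRingHom, hPp', hPb'⟩ rfl
    have h2 : ps (p.map cO.toRingHom) = cO (ps p) := h1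
    have h3 : ps ((p * a).map cO.toRingHom) =
        ps (p.map cO.toRingHom) * ps (a.map cO.toRingHom) := by
      rw [Ideal.map_mul]
      exact HC.hd.mul _ _
    have h4 : ps (p * a) = ps p * ps a := HC.hd.mul _ _
    rw [h3, h4, h2, ih, map_mul]

section
variable [DD] [HC] {N F : Type u} [Field N] [NumberField N] [Field F] [NumberField F] [Algebra N F]
  [Algebra K F]

/-- conjugation on places -/
theorem psi_conj (σ : Gal(F/N)) (hσ : σ (algebraMap K F om) = algebraMap K F (-1 - om))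
    (w w' : HeightOneSpectrum (𝓞 F)) (hw : w'.asIdeal = σ • w.asIdeal) (hn : nrm w' = nrm w) :
    psi F w'.asIdeal = cO (psi F w.asIdeal) := by
  have h1 : σ.toRingEquiv.toRingHom.comp (algebraMap K F) =
      (algebraMap K F).comp S4.tau.toRingEquiv.toRingHom := S4.embedding_ext _ _ (by
    change σ (algebraMap K F om) = algebraMap K F (S4.tau om)
    rw [hσ, S4.tau_om])
  have h2 : ∀ x : 𝓞 K, σ • (algebraMap (𝓞 K) (𝓞 F) x) = algebraMap (𝓞 K) (𝓞 F) (cO x) := by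
    intro x
    apply RingOfIntegers.ext
    exact congrArg (fun f => f (x : K)) h1
  set P : Ideal (𝓞 K) := w.asIdeal.under (𝓞 K) with hP
  set P' : Ideal (𝓞 K) := w'.asIdeal.under (𝓞 K) with hP'
  have hmap : P' = P.map cO.toRingHom := by
    have h3 : P.map cO.toRingHom = P.comap cO.symm.toRingHom := Ideal.map_comap_of_equiv cO
    rw [h3]
    ext x
    have h4 : x ∈ P' ↔ algebraMap (𝓞 K) (𝓞 F) x ∈ w'.asIdeal := Iff.rfl
    have h5 : x ∈ P.comap cO.symm.toRingHom ↔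
        algebraMap (𝓞 K) (𝓞 F) (cO.symm x) ∈ w.asIdeal := Iff.rfl
    rw [h4, h5, hw, Ideal.mem_pointwise_smul_iff_inv_smul_mem]
    have h6 : σ⁻¹ • (algebraMap (𝓞 K) (𝓞 F) x) = algebraMap (𝓞 K) (𝓞 F) (cO.symm x) := by
      rw [inv_smul_eq_iff, h2, cO.apply_symm_apply]
    rw [h6]
  have hPb : P ≠ ⊥ := Ideal.under_ne_bot _ w.ne_bot
  have hPb' : P' ≠ ⊥ := Ideal.under_ne_bot _ w'.ne_bot
  have hPp : P.IsPrime := inferInstance
  have hPp' : P'.IsPrime := inferInstance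
  have hPmax : P.IsMaximal := Ideal.IsPrime.isMaximal inferInstance hPb
  have hPmax' : P'.IsMaximal := Ideal.IsPrime.isMaximal inferInstance hPb'
  have hlo : w.asIdeal.LiesOver P := ⟨rfl⟩
  have hlo' : w'.asIdeal.LiesOver P' := ⟨rfl⟩
  have hvmax : w.asIdeal.IsMaximal := w.isMaximal
  have hvmax' : w'.asIdeal.IsMaximal := w'.isMaximal
  have hrel : Ideal.relNorm (𝓞 K) w.asIdeal = P ^ w.asIdeal.inertiaDeg (𝓞 K) :=
    Ideal.relNorm_eq_pow_of_isMaximal w.asIdeal P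
  have hrel' : Ideal.relNorm (𝓞 K) w'.asIdeal = P' ^ w'.asIdeal.inertiaDeg (𝓞 K) :=
    Ideal.relNorm_eq_pow_of_isMaximal w'.asIdeal P'
  have hN : Ideal.absNorm P' = Ideal.absNorm P := by
    rw [hmap, Ideal.absNorm_apply, Ideal.absNorm_apply, Submodule.cardQuot_apply,
      Submodule.cardQuot_apply]
    exact Nat.card_congr (Ideal.quotientEquiv P (P.map cO.toRingHom) cO rfl).symm.toEquiv
  have hf : w'.asIdeal.inertiaDeg (𝓞 K) = w.asIdeal.inertiaDeg (𝓞 K) := by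
    have e1 : nrm w = Ideal.absNorm P ^ w.asIdeal.inertiaDeg (𝓞 K) := by
      rw [nrm_eq, Ideal.absNorm_pow_inertiaDeg P w.asIdeal]
    have e2 : nrm w' = Ideal.absNorm P' ^ w'.asIdeal.inertiaDeg (𝓞 K) := by
      rw [nrm_eq, Ideal.absNorm_pow_inertiaDeg P' w'.asIdeal]
    rw [e1, e2, hN] at hn
    have hP2 : 2 ≤ Ideal.absNorm P := by
      have h0 : Ideal.absNorm P ≠ 0 := Ideal.absNorm_ne_zero_iff_mem_nonZeroDivisors.mpr
        (mem_nonZeroDivisors_iff_ne_zero.mpr hPb)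
      have h1 : Ideal.absNorm P ≠ 1 := by
        rw [Ne, Ideal.absNorm_eq_one_iff]
        exact hPmax.ne_top
      omega
    exact Nat.pow_right_injective hP2 hn
  rw [psi, psi, hrel, hrel', hf, hmap, ← Ideal.map_pow, ps_map]

/-- the complex form -/
theorem psC_conj (σ : Gal(F/N)) (hσ : σ (algebraMap K F om) = algebraMap K F (-1 - om))
    (w w' : HeightOneSpectrum (𝓞 F)) (hw : w'.asIdeal = σ • w.asIdeal) (hn : nrm w' = nrm w) :
    psC F w'.asIdeal = psbC F w.asIdeal := by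
  rw [psC, psi_conj σ hσ w w' hw hn, S4.cO_coe, S4.embK_tau]
  rfl

end

end Pool.Agent.Lib.MP_1a91b9_ntX.LF
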