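import Pool.Agent.Lib.MP_1a91b9_ntX.HD
import Pool.Agent.Lib.MP_1a91b9_ntT.S4.Place
import Pool.Agent.Lib.MP_1a91b9_ntT.S4.Count
import Pool.Agent.Lib.MP_1a91b9_ntT.DB.Od

/-!
# Local factors of `y² = x³ + D`: definitions
-/

set_option autoImplicit false

namespace Pool.Agent.Lib.MP_1a91b9_ntX.LF

open NumberField IsDedekindDomain WeierstrassCurve Polynomial Pool.Agent.Lib.MP_1a91b9_nt
  Pool.Agent.Lib.MP_1a91b9_ntT
open Pool.Agent.Lib.MP_1a91b9_ntT.DB (od)

/-- the curve `y² = x³ + d` -/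
def crv {R : Type*} [CommRing R] (d : R) : WeierstrassCurve R := ⟨0, 0, 0, 0, d⟩

/-- the curve `y² + y = x³ + m` -/
def crm {R : Type*} [CommRing R] (m : R) : WeierstrassCurve R := ⟨0, 0, 1, 0, m⟩

section
variable {R : Type*} [CommRing R]

theorem crv_map {S : Type*} [CommRing S] (f : R →+* S) (d : R) : (crv d).map f = crv (f d) := by
  ext <;> simp [crv]

theorem crm_map {S : Type*} [CommRing S] (f : R →+* S) (m : R) : (crm m).map f = crm (f m) := by
  ext <;> simp [crm]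

theorem crv_Δ (d : R) : (crv d).Δ = -(432 * d ^ 2) := by
  simp only [crv, WeierstrassCurve.Δ, WeierstrassCurve.b₂, WeierstrassCurve.b₄,
    WeierstrassCurve.b₆, WeierstrassCurve.b₈]
  ring

theorem crm_Δ (m : R) : (crm m).Δ = -(27 * (4 * m + 1) ^ 2) := by
  simp only [crm, WeierstrassCurve.Δ, WeierstrassCurve.b₂, WeierstrassCurve.b₄,
    WeierstrassCurve.b₆, WeierstrassCurve.b₈]
  ring

theorem crv_c₄ (d : R) : (crv d).c₄ = 0 := by
  simp only [crv, WeierstrassCurve.c₄, WeierstrassCurve.b₂, WeierstrassCurve.b₄]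
  ring

end

theorem E_eq_crv (F : Type*) [Field F] [DD] : MP_1a91b9_ntX.E F = crv ((DD.D : ℤ) : F) := rfl

section
variable {k : Type*} [Field k]

/-- Scaling. -/
theorem exists_scale (d α : k) (hα : α ≠ 0) :
    ∃ C : WeierstrassCurve.VariableChange k, C • crv d = crv (α ^ 6 * d) := by
  refine ⟨⟨(Units.mk0 α hα)⁻¹, 0, 0, 0⟩, ?_⟩
  ext
  · simp [crv, WeierstrassCurve.variableChange_a₁]
  · simp [crv, WeierstrassCurve.variableChange_a₂]
  · simp [crv, WeierstrassCurve.variableChange_a₃]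
  · simp [crv, WeierstrassCurve.variableChange_a₄]
  · simp [crv, WeierstrassCurve.variableChange_a₆]

/-- The model above `2`. -/
theorem exists_crm (h2 : (2 : k) ≠ 0) (m : k) :
    ∃ C : WeierstrassCurve.VariableChange k, C • crv (16 * (4 * m + 1)) = crm m := by
  refine ⟨⟨Units.mk0 2 h2, 0, 0, 4⟩, ?_⟩
  ext
  · simp [crv, crm, WeierstrassCurve.variableChange_a₁]
  · simp [crv, crm, WeierstrassCurve.variableChange_a₂]
  · simp only [crv, crm, WeierstrassCurve.variableChange_a₃]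
    have h : ((Units.mk0 (2 : k) h2)⁻¹ : kˣ) = (2 : k)⁻¹ := by simp
    rw [h]
    field_simp
    norm_num
  · simp [crv, crm, WeierstrassCurve.variableChange_a₄]
  · simp only [crv, crm, WeierstrassCurve.variableChange_a₆]
    have h : ((Units.mk0 (2 : k) h2)⁻¹ : kˣ) = (2 : k)⁻¹ := by simp
    rw [h]
    have h64 : (2 : k) ^ 6 ≠ 0 := pow_ne_zero 6 h2
    rw [inv_pow, inv_mul_eq_iff_eq_mul₀ h64]
    ring

end

/-- The condition on the ramification over `ℚ` at the place `v`: the ramification index is prime to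
`6`; above `3` it is divisible neither by `3` nor by `4`. -/
def NiceAt {N : Type*} [Field N] [NumberField N] (v : HeightOneSpectrum (𝓞 N)) : Prop :=
  ∀ p : ℕ, p.Prime → (p : 𝓞 N) ∈ v.asIdeal →
    ¬ 3 ∣ od v (p : N) ∧ (p ≠ 3 → ¬ 2 ∣ od v (p : N)) ∧ ¬ 4 ∣ od v (p : N)

/-- The condition on the ramification over `ℚ` at the places above `6 D`. -/
def Nice [DD] (N : Type*) [Field N] [NumberField N] : Prop :=
  ∀ v : HeightOneSpectrum (𝓞 N), ((6 * DD.D : ℤ) : 𝓞 N) ∈ v.asIdeal → NiceAt v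

/-- No sixth power of a prime other than `3` divides `d`. -/
def Free6 (d : ℤ) : Prop := ∀ p : ℕ, p.Prime → p ≠ 3 → ¬ (p : ℤ) ^ 6 ∣ d

theorem Free6.neg27 {d : ℤ} (h : Free6 d) : Free6 (-27 * d) := by
  intro p hp h3 hd
  refine h p hp h3 ?_
  have h1 : IsCoprime ((p : ℤ) ^ 6) (-27) := by
    have h2 : IsCoprime (p : ℤ) 3 := by
      have h4 := Nat.isCoprime_iff_coprime.2 ((Nat.coprime_primes hp Nat.prime_three).2 h3)
      exact_mod_cast h4
    have h5 : ((-27 : ℤ)) = -(3 ^ 3) := by norm_num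
    rw [h5]
    exact (IsCoprime.neg_right_iff _ _).2 (h2.pow)
  exact h1.dvd_of_dvd_mul_left hd

/-- the case of good reduction at `2` -/
def G2 (d : ℤ) : Prop := ∃ m : ℤ, d = 16 * (4 * m + 1)

theorem G2.neg27 {d : ℤ} (h : G2 d) : G2 (-27 * d) := by
  obtain ⟨m, rfl⟩ := h
  exact ⟨-27 * m - 7, by ring⟩

theorem G2.of_neg27 {d : ℤ} (h : G2 (-27 * d)) : G2 d := by
  obtain ⟨m, hm⟩ := h
  have h1 : ∃ e : ℤ, d = 16 * e := by
    have h2 : (16 : ℤ) ∣ -27 * d := ⟨4 * m + 1, hm⟩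
    have h3 : IsCoprime (16 : ℤ) (-27) := ⟨-5, -3, by norm_num⟩
    obtain ⟨e, he⟩ := h3.dvd_of_dvd_mul_left h2
    exact ⟨e, he⟩
  obtain ⟨e, rfl⟩ := h1
  have h2 : -27 * e = 4 * m + 1 := by linarith
  refine ⟨(e - 1) / 4, ?_⟩
  have h4 : 4 * ((e - 1) / 4) = e - 1 := by omega
  rw [h4]
  ring

end Pool.Agent.Lib.MP_1a91b9_ntX.LF
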