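import Pool.Agent.Lib.MP_1a91b9_ntX.LF.LocB
import Pool.Agent.Lib.MP_1a91b9_ntX.DB.FrobU

/-!
# The value of the character at an inert place

PROOF. `q = nrm v`.
(1) `S4.psi F w = -(q : 𝓞 K)`: this is shown in the inert case of `euler_B` in MP_1a91b9_ntT/S4/FactorB.lean (`hpsi` by `S4.psiC_conj σ w w`, `hprod`, `hcases`, `hmod`, `hneg`): copy that part; there `h3w : 3 ∉ w`, `hn2 : nrm w = nrm v ^ 2`, `g1 = hq`. (In case (b) below `3 ∉ w` since `2 ∈ w`; in case (a) since `6 D ∉ w`.)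
(2) case (b), `2 ∈ v` and `G2 DD.D`: `psi_two` (LF/LocB).
(3) case (a), `6 D ∉ v`: then `6 D ∉ w` (`w ∩ 𝓞 N = v`), valuation of `bD F` at `w` is `1`; `psi_sym` (DB/FrobU): a unit `u` with `u ≡ (4 D) ^ ((q² - 1)/6) (mod w)` and `u · psi F w = S4.psi F w`. `q` is prime to `6` (`2, 3 ∉ v`) and `3 ∤ q - 1`, so `6 ∣ q + 1` and
`(q² - 1)/6 = (q - 1) ((q + 1)/6)`. In the residue field of `v` (order `q`; `4 D ≠ 0` there) `(4 D) ^ (q - 1) = 1` (`FiniteField.pow_card_sub_one_eq_one`), so `(4 D)^(q-1) - 1 ∈ v ⊆ w` and `u ≡ 1 (mod w)`: `u = 1` by `unit_inj`. So `psi F w = S4.psi F w`.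
The statement follows as at the end of the proof of `euler_B` (`hpsib`).
-/

set_option autoImplicit false

namespace Pool.Agent.Lib.MP_1a91b9_ntX.LF

open NumberField IsDedekindDomain Polynomial WeierstrassCurve Pool.Agent.Lib.MP_1a91b9_nt
  Pool.Agent.Lib.MP_1a91b9_ntT
open Pool.Agent.Lib.MP_1a91b9_ntX.AN (psC psbC)
open scoped Pointwise

universe u

private theorem Inert_psi {N F : Type u} [Field N] [NumberField N] [Field F] [NumberField F]
    [Algebra N F] [Algebra K F] (v : HeightOneSpectrum (𝓞 N))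
    (w : HeightOneSpectrum (𝓞 F)) (h3w : (3 : 𝓞 F) ∉ w.asIdeal)
    (hn2 : nrm w = nrm v ^ 2) (hq : ¬ 3 ∣ nrm v - 1)
    (σ : Gal(F/N)) (hσ : σ (algebraMap K F om) = algebraMap K F (-1 - om))
    (hfix : σ • w.asIdeal = w.asIdeal) : S4.psi F w.asIdeal = -(nrm v : 𝓞 K) := by
  have hpsi := S4.psiC_conj σ hσ w w hfix.symm rfl
  have hprod := (S4.psi_place w h3w).1
  rw [← hpsi, hn2] at hprod
  have hcases : S4.psi F w.asIdeal = (nrm v : 𝓞 K) ∨ S4.psi F w.asIdeal = -(nrm v : 𝓞 K) := by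
    have hinj : Function.Injective fun x : 𝓞 K => embK (x : K) :=
      embK.toRingHom.injective.comp RingOfIntegers.coe_injective
    have h5 : S4.psi F w.asIdeal ^ 2 = (nrm v : 𝓞 K) ^ 2 := by
      apply hinj
      change embK (algebraMap (𝓞 K) K (S4.psi F w.asIdeal ^ 2)) =
        embK (algebraMap (𝓞 K) K ((nrm v : 𝓞 K) ^ 2))
      rw [map_pow, map_pow, map_pow, map_pow, map_natCast, map_natCast]
      have h6 : embK (algebraMap (𝓞 K) K (S4.psi F w.asIdeal)) = S4.psiC F w.asIdeal := rfl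
      rw [h6, sq, hprod]
      push_cast
      ring
    exact sq_eq_sq_iff_eq_or_eq_neg.mp h5
  have hmod : (3 : 𝓞 K) ∣ S4.psi F w.asIdeal - 1 := by
    obtain ⟨γ, k1, k2, _⟩ := S4.exists_psi w h3w
    rw [S4.psi, ← k2, S4.psiK_span γ k1]
    exact k1
  have hfinv : Finite (IsLocalRing.ResidueField (v.adicCompletionIntegers N)) :=
    finite_residue v
  have hnpos : 0 < nrm v := Nat.card_pos
  refine hcases.resolve_left fun h5 => ?_
  apply hq
  rw [h5] at hmod
  have h6 : (nrm v : 𝓞 K) - 1 = ((nrm v - 1 : ℕ) : 𝓞 K) := by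
    rw [Nat.cast_sub hnpos, Nat.cast_one]
  rw [h6, ← Ideal.span_singleton_le_span_singleton] at hmod
  have h7 := Ideal.absNorm_dvd_absNorm_of_le hmod
  have e3 := S4.u4_absNorm_p (K := K) 3
  rw [Nat.cast_ofNat] at e3
  rw [e3, S4.u4_absNorm_p] at h7
  exact (Nat.pow_dvd_pow_iff two_ne_zero).mp h7

private theorem Inert_end [DD] [HC] {N F : Type u} [Field N] [NumberField N] [Field F]
    [NumberField F] [Algebra K F] (v : HeightOneSpectrum (𝓞 N))
    (w : HeightOneSpectrum (𝓞 F)) (h : psi F w.asIdeal = -(nrm v : 𝓞 K)) :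
    psbC F w.asIdeal = -(nrm v : ℂ) := by
  rw [psbC, psC, h]
  change (starRingEnd ℂ) (embK (algebraMap (𝓞 K) K (-(nrm v : 𝓞 K)))) = _
  rw [map_neg, map_neg, map_neg, map_natCast, map_natCast, map_natCast]

/-- Fermat in the residue field -/
private theorem Inert_fermat {N : Type u} [Field N] [NumberField N] (v : HeightOneSpectrum (𝓞 N))
    (x : 𝓞 N) (hx : x ∉ v.asIdeal) : x ^ (nrm v - 1) - 1 ∈ v.asIdeal := by
  classical
  have i1 : v.asIdeal.IsMaximal := v.isMaximal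
  let _ : Field (𝓞 N ⧸ v.asIdeal) := Ideal.Quotient.field _
  have i2 : Finite (𝓞 N ⧸ v.asIdeal) := Ideal.finiteQuotientOfFreeOfNeBot _ v.ne_bot
  have := Fintype.ofFinite (𝓞 N ⧸ v.asIdeal)
  have h0 : Ideal.Quotient.mk v.asIdeal x ≠ 0 := fun h =>
    hx (Ideal.Quotient.eq_zero_iff_mem.1 h)
  have h1 := FiniteField.pow_card_sub_one_eq_one _ h0
  have h2 : Fintype.card (𝓞 N ⧸ v.asIdeal) = nrm v := by
    rw [nrm_eq, ← Nat.card_eq_fintype_card]
    rfl
  rw [h2] at h1
  rw [← Ideal.Quotient.eq_zero_iff_mem, map_sub, map_pow, h1, map_one, sub_self]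

theorem psbC_inert [DD] [HC] {N F : Type u} [Field N] [NumberField N] [Field F] [NumberField F]
    [Algebra N F] [Algebra K F] (v : HeightOneSpectrum (𝓞 N))
    (hgood : ((6 * DD.D : ℤ) : 𝓞 N) ∉ v.asIdeal ∨ ((2 : 𝓞 N) ∈ v.asIdeal ∧ G2 DD.D))
    (w : HeightOneSpectrum (𝓞 F)) (hw : w.asIdeal.under (𝓞 N) = v.asIdeal)
    (hn2 : nrm w = nrm v ^ 2) (hq : ¬ 3 ∣ nrm v - 1)
    (σ : Gal(F/N)) (hσ : σ (algebraMap K F om) = algebraMap K F (-1 - om))
    (hfix : σ • w.asIdeal = w.asIdeal) : psbC F w.asIdeal = -(nrm v : ℂ) := by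
  have hmemw : ∀ x : 𝓞 N, algebraMap (𝓞 N) (𝓞 F) x ∈ w.asIdeal ↔ x ∈ v.asIdeal := by
    intro x
    rw [← hw]
    exact Iff.rfl
  rcases hgood with h6 | ⟨h2, hg⟩
  · -- the places prime to `6 D`
    have h6w : ((6 * DD.D : ℤ) : 𝓞 F) ∉ w.asIdeal := by
      intro h
      apply h6
      rw [← hmemw, map_intCast]
      exact h
    have h3w : (3 : 𝓞 F) ∉ w.asIdeal := by
      intro h
      apply h6w
      have e : ((6 * DD.D : ℤ) : 𝓞 F) = ((2 * DD.D : ℤ) : 𝓞 F) * 3 := by push_cast; ring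
      rw [e]
      exact Ideal.mul_mem_left _ _ h
    have hb : w.valuation F (bD F) = 1 := by
      have h1 : w.valuation F (algebraMap (𝓞 F) F ((6 * DD.D : ℤ) : 𝓞 F)) ≤ 1 :=
        w.valuation_le_one _
      have h2 : ¬ w.valuation F (algebraMap (𝓞 F) F ((6 * DD.D : ℤ) : 𝓞 F)) < 1 := fun h =>
        h6w ((w.valuation_lt_one_iff_mem (K := F) _).1 h)
      rw [map_intCast] at h1 h2
      exact le_antisymm h1 (not_lt.1 h2)
    obtain ⟨u, hu1, hu2, hu3⟩ := DB.psi_sym w hb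
    have hS := Inert_psi v w h3w hn2 hq σ hσ hfix
    obtain ⟨q, hqd⟩ : ∃ q, q = nrm v := ⟨_, rfl⟩
    have hqw : Ideal.absNorm w.asIdeal = q ^ 2 := by
      rw [← nrm_eq, hn2, hqd]
    rw [← hqd] at hq
    -- `6` divides `q + 1`
    have hq1 : 1 ≤ q := by
      rcases Nat.eq_zero_or_pos q with h | h
      · exfalso
        rw [h] at hq
        exact hq (dvd_zero 3)
      · exact h
    rw [hqw] at hu1 hu3
    have h6q : 6 ∣ q + 1 := by
      obtain ⟨c, hc⟩ := hu3
      have h1 : q ^ 2 = 6 * c + 1 := by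
        have h2 : 1 ≤ q ^ 2 := Nat.one_le_pow _ _ hq1
        omega
      have h2 : q ^ 2 % 6 = 1 := by omega
      have h3 : q % 6 = 0 ∨ q % 6 = 1 ∨ q % 6 = 2 ∨ q % 6 = 3 ∨ q % 6 = 4 ∨ q % 6 = 5 := by
        omega
      rw [Nat.pow_mod] at h2
      rcases h3 with h | h | h | h | h | h
      · rw [h] at h2
        norm_num at h2
      · exfalso
        apply hq
        omega
      · rw [h] at h2
        norm_num at h2
      · rw [h] at h2
        norm_num at h2
      · rw [h] at h2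
        norm_num at h2
      · omega
    obtain ⟨r, hr⟩ := h6q
    have hexp : (q ^ 2 - 1) / 6 = (q - 1) * r := by
      obtain ⟨t, rfl⟩ : ∃ t, q = t + 1 := ⟨q - 1, by omega⟩
      have e1 : (t + 1) ^ 2 - 1 = 6 * (t * r) := by
        have e2 : (t + 1) ^ 2 = t * (t + 1 + 1) + 1 := by ring
        rw [e2, hr]
        have e3 : t * (6 * r) = 6 * (t * r) := by ring
        rw [e3]
        rfl
      rw [e1, Nat.add_sub_cancel]
      exact Nat.mul_div_cancel_left _ (by norm_num)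
    rw [hexp] at hu1
    -- `4 D` is prime to `v`
    have h4 : ((4 * DD.D : ℤ) : 𝓞 N) ∉ v.asIdeal := by
      intro h
      have e : ((4 * DD.D : ℤ) : 𝓞 N) = (2 : 𝓞 N) * (2 * ((DD.D : ℤ) : 𝓞 N)) := by
        push_cast
        ring
      rw [e] at h
      rcases v.isPrime.mem_or_mem h with h1 | h1
      · apply h6
        have e' : ((6 * DD.D : ℤ) : 𝓞 N) = ((3 * DD.D : ℤ) : 𝓞 N) * 2 := by push_cast; ring
        rw [e']
        exact Ideal.mul_mem_left _ _ h1
      · apply h6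
        have e' : ((6 * DD.D : ℤ) : 𝓞 N) = 3 * (2 * ((DD.D : ℤ) : 𝓞 N)) := by push_cast; ring
        rw [e']
        exact Ideal.mul_mem_left _ _ h1
    have hf := Inert_fermat v _ h4
    rw [← hqd] at hf
    have hfw : ((4 * DD.D : ℤ) : 𝓞 F) ^ (q - 1) - 1 ∈ w.asIdeal := by
      have h1 := (hmemw _).2 hf
      rw [map_sub, map_pow, map_intCast, map_one] at h1
      exact h1
    have hfr : ((4 * DD.D : ℤ) : 𝓞 F) ^ ((q - 1) * r) - 1 ∈ w.asIdeal := by
      have h1 := sub_dvd_pow_sub_pow (((4 * DD.D : ℤ) : 𝓞 F) ^ (q - 1)) 1 r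
      rw [one_pow, ← pow_mul] at h1
      exact Ideal.mem_of_dvd _ h1 hfw
    have hval0 := (w.valuation_lt_one_iff_mem (K := F) _).2 hfr
    have h4F : (((4 * DD.D : ℤ) : F)) = 4 * dD F := by
      push_cast
      rfl
    have hval : w.valuation F ((4 * dD F) ^ ((q - 1) * r) - 1) < 1 := by
      have e1 : algebraMap (𝓞 F) F (((4 * DD.D : ℤ) : 𝓞 F) ^ ((q - 1) * r) - 1) =
          (4 * dD F) ^ ((q - 1) * r) - 1 := by
        rw [map_sub, map_pow, map_intCast, map_one, h4F]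
      rw [← e1]
      exact hval0
    have hv6 : w.valuation F (6 : F) = 1 := by
      have h1 : w.valuation F (algebraMap (𝓞 F) F (6 : 𝓞 F)) ≤ 1 := w.valuation_le_one _
      rw [map_ofNat] at h1
      have h2 : w.valuation F (algebraMap (𝓞 F) F ((DD.D : ℤ) : 𝓞 F)) ≤ 1 := w.valuation_le_one _
      rw [map_intCast] at h2
      have h3 : w.valuation F (6 : F) * w.valuation F ((DD.D : ℤ) : F) = 1 := by
        rw [← map_mul]
        have e : (6 : F) * ((DD.D : ℤ) : F) = bD F := by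
          push_cast
          rfl
        rw [e]
        exact hb
      refine le_antisymm h1 (not_lt.1 fun hlt => ?_)
      have h5 := (mul_le_of_le_one_right' h2 : w.valuation F (6 : F) *
        w.valuation F ((DD.D : ℤ) : F) ≤ w.valuation F (6 : F)).trans_lt hlt
      rw [h3] at h5
      exact lt_irrefl _ h5
    have hu : u = 1 := by
      refine DB.unit_inj (w.valuation F) hv6 u 1 ?_
      have e1 : algebraMap K F (((1 : (𝓞 K)ˣ) : 𝓞 K) : K) = 1 := by
        rw [Units.val_one]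
        have e2 : ((1 : 𝓞 K) : K) = 1 := map_one (algebraMap (𝓞 K) K)
        rw [e2, map_one]
      rw [e1]
      have e3 : algebraMap K F ((u : 𝓞 K) : K) - 1 =
          (algebraMap K F ((u : 𝓞 K) : K) - (4 * dD F) ^ ((q - 1) * r)) +
            ((4 * dD F) ^ ((q - 1) * r) - 1) := by ring
      rw [e3]
      exact (w.valuation F).map_add_lt hu1 hval
    rw [hu, Units.val_one, one_mul] at hu2
    exact Inert_end v w (hu2.trans hS)
  · -- the places above `2`
    have h2w : (2 : 𝓞 F) ∈ w.asIdeal := by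
      have h1 := (hmemw 2).2 h2
      rw [map_ofNat] at h1
      exact h1
    have h3w : (3 : 𝓞 F) ∉ w.asIdeal := by
      intro h3
      apply w.isPrime.ne_top
      rw [Ideal.eq_top_iff_one]
      have e : (1 : 𝓞 F) = 3 - 2 := by norm_num
      rw [e]
      exact w.asIdeal.sub_mem h3 h2w
    have hS := Inert_psi v w h3w hn2 hq σ hσ hfix
    exact Inert_end v w ((psi_two w h2w hg).trans hS)

end Pool.Agent.Lib.MP_1a91b9_ntX.LF
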