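import Pool.Agent.Lib.MP_1a91b9_ntX.LF.CntB
import Pool.Agent.Lib.MP_1a91b9_ntX.LF.Model
import Pool.Agent.Lib.MP_1a91b9_ntX.AN.Psi

/-!
# The local factor at the places above `2` in the case of good reduction at `2`, fields containing `K`

PROOF.
`psi_two`: the place `P` of `K` below `w` contains `2`, and `2` is prime in `𝓞 K` (search the library: `two_prime`, `prime_two`, or: `𝓞 K / 2` is the field with `4` elements, `S4.u4_absNorm_p`: an ideal of norm `4`; a prime `P` containing `2` has norm `2` or `4`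
and norm `= 1` modulo `3`, see `u4_three_dvd`), so `P = span {2}`. `psi_pow` (file MP_1a91b9_ntX/HD.lean): `psi F w = ps P ^ f = (-2) ^ f` by `HC.hd.two` (`G2 DD.D` is its hypothesis), `f = inertiaDeg`. `S4.psi F w = psiK (P ^ f)` (`Ideal.relNorm_eq_pow_of_isMaximal`, see the proof of
`psi_sym` in MP_1a91b9_ntX/DB/FrobU.lean), `P = span {-2}`, `P ^ f = span {(-2) ^ f}`, `3 ∣ (-2) ^ f - 1`, `S4.psiK_span`.
`loc_B`: `D = 16 (4 m + 1)`. `locPoly_crm` (LF/Model) and `card_crm_of_one` (LF/CntB; `c` = the image of `omO` in the residue field, `redMap K w omO`, `omO_eq`) and `locPoly_model` (S4/FactorB): `locPoly W w = locPoly (S4/Base E F) w` (`E F` of MP_1a91b9_ntT, `E_eq : E F = fermatCubic F`);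
`exists_psi` (S4/Psi): `γ` with `3 ∣ γ - 1`, `span {γ} = relNorm w`, so `γ = S4.psi F w = psi F w` (`psiK_span`); its last two statements are the claim. (`3 ∉ w` since `2 ∈ w`.)
-/

set_option autoImplicit false

namespace Pool.Agent.Lib.MP_1a91b9_ntX.LF

open NumberField IsDedekindDomain Polynomial WeierstrassCurve Pool.Agent.Lib.MP_1a91b9_nt
  Pool.Agent.Lib.MP_1a91b9_ntT
open Pool.Agent.Lib.MP_1a91b9_ntX.AN (psC psbC)

theorem psi_two [DD] [HC] {F : Type*} [Field F] [NumberField F] [Algebra K F]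
    (w : HeightOneSpectrum (𝓞 F)) (h2 : (2 : 𝓞 F) ∈ w.asIdeal) (hg : G2 DD.D) :
    psi F w.asIdeal = S4.psi F w.asIdeal := by
  obtain ⟨P, hP⟩ : ∃ P, P = w.under (𝓞 K) := ⟨_, rfl⟩
  have h2P : (2 : 𝓞 K) ∈ P.asIdeal := by
    rw [hP]
    change algebraMap (𝓞 K) (𝓞 F) 2 ∈ w.asIdeal
    rw [map_ofNat]
    exact h2
  have hPp : P.asIdeal.IsPrime := P.isPrime
  have hPm : P.asIdeal.IsMaximal := P.isMaximal
  have hf2 : Fact (Nat.Prime 2) := ⟨Nat.prime_two⟩
  have hP2 : P.asIdeal = Ideal.span {2} := by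
    have h3 := S4.u4_prime_two (K := K) 2 (by norm_num) S4.omO S4.omO_eq P.asIdeal
      (by rw [Nat.cast_ofNat]; exact h2P)
    rwa [Nat.cast_ofNat] at h3
  have hwm : w.asIdeal.IsMaximal := w.isMaximal
  have hlo : w.asIdeal.LiesOver P.asIdeal := ⟨by rw [hP]; rfl⟩
  obtain ⟨f, hf⟩ : ∃ f, f = w.asIdeal.inertiaDeg (𝓞 K) := ⟨_, rfl⟩
  have hrel : Ideal.relNorm (𝓞 K) w.asIdeal = P.asIdeal ^ f := by
    rw [hf]
    exact Ideal.relNorm_eq_pow_of_isMaximal w.asIdeal P.asIdeal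
  have h1 : ps P.asIdeal = -2 := by
    rw [hP2]
    exact HC.hd.two hg
  have h3 : psi F w.asIdeal = (-2) ^ f := by
    rw [psi_pow, ← hP, h1, hf]
  have h4 : (3 : 𝓞 K) ∣ (-2) ^ f - 1 := by
    have h5 := sub_dvd_pow_sub_pow (-2 : 𝓞 K) 1 f
    rw [one_pow] at h5
    refine Dvd.dvd.trans ⟨-1, ?_⟩ h5
    ring
  rw [h3, S4.psi, hrel, hP2, ← Ideal.span_singleton_neg, Ideal.span_singleton_pow,
    S4.psiK_span _ h4]

theorem loc_B [DD] [HC] {F : Type*} [Field F] [NumberField F] [Algebra K F]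
    (w : HeightOneSpectrum (𝓞 F)) (h2 : (2 : 𝓞 F) ∈ w.asIdeal) (hg : G2 DD.D)
    (W : WeierstrassCurve F) (C : WeierstrassCurve.VariableChange F)
    (hC : C • W = crv ((DD.D : ℤ) : F)) :
    psC F w.asIdeal * psbC F w.asIdeal = (nrm w : ℂ) ∧
    ∀ x : ℂ, aeval x (locPoly W w) =
      (1 - psC F w.asIdeal * x) * (1 - psbC F w.asIdeal * x) := by
  have h3 : (3 : 𝓞 F) ∉ w.asIdeal := by
    intro h
    apply w.isPrime.ne_top
    rw [Ideal.eq_top_iff_one]
    have e : (1 : 𝓞 F) = 3 - 2 := by norm_num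
    rw [e]
    exact Ideal.sub_mem _ h h2
  have hpsi := psi_two w h2 hg
  have e1 : psC F w.asIdeal = S4.psiC F w.asIdeal := by
    rw [psC, S4.psiC, hpsi]
  have e2 : psbC F w.asIdeal = S4.psibC F w.asIdeal := by
    rw [psbC, S4.psibC, e1]
  obtain ⟨h4, h5⟩ := S4.psi_place w h3
  have h6 : locPoly W w = locPoly (MP_1a91b9_ntT.E F) w := by
    obtain ⟨m, hm⟩ := hg
    rw [hm] at hC
    rw [locPoly_crm w m h2 W C hC, S4.locPoly_model w h3]
    have h2k : (2 : IsLocalRing.ResidueField (w.adicCompletionIntegers F)) = 0 := by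
      have h7 : (2 : 𝓞 F) ∈ RingHom.ker (redMap F w) := by
        rw [redMap_ker]
        exact h2
      rwa [RingHom.mem_ker, map_ofNat] at h7
    rw [card_crm_of_one h2k m (redMap K w S4.omO) (by
      rw [← map_pow, ← map_add, ← map_one (redMap K w), ← map_add, S4.omO_eq, map_zero])]
  rw [e1, e2, h6]
  exact ⟨h4, h5⟩

end Pool.Agent.Lib.MP_1a91b9_ntX.LF
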