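import Pool.Agent.Lib.MP_1a91b9_ntX.LF.Model
import Pool.Agent.Lib.MP_1a91b9_ntX.LF.CntA
import Pool.Agent.Lib.MP_1a91b9_ntX.LF.CntB

/-!
# Local polynomials at a place and at a place above it with the same residue field; at the places with `3 ∤ q - 1`

PROOF.
`locPoly_same`: port of `locPoly_same` in MP_1a91b9_ntT/S4/FactorB.lean: `locPoly_crv` (resp. `locPoly_crm`, `d = 16 (4 m + 1)`) of LF/Model for `W`, `v` and for `W'`, `w` (`6 d ∈ w ↔ 6 d ∈ v`, `2 ∈ w ↔ 2 ∈ v` because `w ∩ 𝓞 N = v`), `exists_residue_iso`,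
`card_point_map_equiv` and `crv_map`, `crm_map`, `map_intCast`.
`locPoly_two`: `locPoly_crv` with `card_crv_of_two` (LF/CntA), resp. `locPoly_crm` with `card_crm_of_two` (LF/CntB): the number of points is `q + 1`. (`Nat.card` of the residue field is `nrm v` by definition.)
-/

set_option autoImplicit false

namespace Pool.Agent.Lib.MP_1a91b9_ntX.LF

open NumberField IsDedekindDomain Polynomial WeierstrassCurve Pool.Agent.Lib.MP_1a91b9_nt
  Pool.Agent.Lib.MP_1a91b9_ntT

/-- good reduction of `y² = x³ + d` at `v` -/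
def Gd {N : Type*} [Field N] [NumberField N] (d : ℤ) (v : HeightOneSpectrum (𝓞 N)) : Prop :=
  ((6 * d : ℤ) : 𝓞 N) ∉ v.asIdeal ∨ ((2 : 𝓞 N) ∈ v.asIdeal ∧ G2 d)

private theorem Same_intCast_ne {N : Type*} [Field N] [NumberField N]
    (v : HeightOneSpectrum (𝓞 N)) (c : ℤ) (hc : ((c : ℤ) : 𝓞 N) ∉ v.asIdeal) :
    ((c : ℤ) : IsLocalRing.ResidueField (v.adicCompletionIntegers N)) ≠ 0 := by
  intro h
  apply hc
  have h4 : ((c : ℤ) : 𝓞 N) ∈ RingHom.ker (redMap N v) := by
    rw [RingHom.mem_ker, map_intCast]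
    exact h
  rw [redMap_ker] at h4
  exact h4

private theorem Same_intCast_eq {N : Type*} [Field N] [NumberField N]
    (v : HeightOneSpectrum (𝓞 N)) (c : ℤ) (hc : ((c : ℤ) : 𝓞 N) ∈ v.asIdeal) :
    ((c : ℤ) : IsLocalRing.ResidueField (v.adicCompletionIntegers N)) = 0 := by
  have h4 : ((c : ℤ) : 𝓞 N) ∈ RingHom.ker (redMap N v) := by
    rw [redMap_ker]
    exact hc
  rw [RingHom.mem_ker, map_intCast] at h4
  exact h4

private theorem Same_fin {q : ℕ} (n : ℕ) (hn : n = q + 1) :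
    (1 - Polynomial.C ((q : ℤ) + 1 - (n : ℤ)) * X + Polynomial.C (q : ℤ) * X ^ 2 : ℤ[X]) =
      1 + Polynomial.C (q : ℤ) * X ^ 2 := by
  rw [hn]
  push_cast
  rw [sub_self, map_zero, zero_mul, sub_zero]

theorem locPoly_same {N F : Type*} [Field N] [NumberField N] [Field F] [NumberField F]
    [Algebra N F] (d : ℤ) (v : HeightOneSpectrum (𝓞 N)) (hg : Gd d v)
    (w : HeightOneSpectrum (𝓞 F)) (hw : w.asIdeal.under (𝓞 N) = v.asIdeal)
    (hn : nrm w = nrm v)
    (W : WeierstrassCurve N) (C : WeierstrassCurve.VariableChange N) (hC : C • W = crv (d : N))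
    (W' : WeierstrassCurve F) (C' : WeierstrassCurve.VariableChange F)
    (hC' : C' • W' = crv (d : F)) : locPoly W' w = locPoly W v := by
  have hmemw : ∀ c : ℤ, ((c : ℤ) : 𝓞 F) ∈ w.asIdeal ↔ ((c : ℤ) : 𝓞 N) ∈ v.asIdeal := by
    intro c
    rw [← hw]
    change _ ↔ algebraMap (𝓞 N) (𝓞 F) ((c : ℤ) : 𝓞 N) ∈ w.asIdeal
    rw [map_intCast]
  obtain ⟨e, -⟩ := exists_residue_iso (F := N) v w (by
    rw [hw]
    ext x
    exact Iff.rfl) hn.symm
  rcases hg with h6 | ⟨h2, m, hm⟩
  · have h6w : ((6 * d : ℤ) : 𝓞 F) ∉ w.asIdeal := fun h => h6 ((hmemw _).1 h)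
    rw [locPoly_crv v d h6 W C hC, locPoly_crv w d h6w W' C' hC', hn]
    have h := card_point_map_equiv (crv
      ((d : ℤ) : IsLocalRing.ResidueField (v.adicCompletionIntegers N))) e
    rw [crv_map, map_intCast] at h
    rw [h]
  · subst hm
    have h2w : (2 : 𝓞 F) ∈ w.asIdeal := by
      have h1 := (hmemw 2).2 (by exact_mod_cast h2)
      exact_mod_cast h1
    rw [locPoly_crm v m h2 W C hC, locPoly_crm w m h2w W' C' hC', hn]
    have h := card_point_map_equiv (crm
      ((m : ℤ) : IsLocalRing.ResidueField (v.adicCompletionIntegers N))) e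
    rw [crm_map, map_intCast] at h
    rw [h]

theorem locPoly_two {N : Type*} [Field N] [NumberField N] (d : ℤ)
    (v : HeightOneSpectrum (𝓞 N)) (hg : Gd d v) (hq : ¬ 3 ∣ nrm v - 1)
    (W : WeierstrassCurve N) (C : WeierstrassCurve.VariableChange N) (hC : C • W = crv (d : N)) :
    locPoly W v = 1 + Polynomial.C (nrm v : ℤ) * X ^ 2 := by
  have hfinv : Finite (IsLocalRing.ResidueField (v.adicCompletionIntegers N)) :=
    finite_residue v
  rcases hg with h6 | ⟨h2, m, hm⟩
  · have hne : ∀ c e : ℤ, 6 * d = c * e →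
        ((c : ℤ) : IsLocalRing.ResidueField (v.adicCompletionIntegers N)) ≠ 0 := by
      intro c e he
      refine Same_intCast_ne v c fun h => h6 ?_
      rw [he, mul_comm, Int.cast_mul]
      exact Ideal.mul_mem_left _ _ h
    have k2 : (2 : IsLocalRing.ResidueField (v.adicCompletionIntegers N)) ≠ 0 := by
      have h := hne 2 (3 * d) (by ring)
      exact_mod_cast h
    have k3 : (3 : IsLocalRing.ResidueField (v.adicCompletionIntegers N)) ≠ 0 := by
      have h := hne 3 (2 * d) (by ring)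
      exact_mod_cast h
    have kd := hne d 6 (by ring)
    rw [locPoly_crv v d h6 W C hC]
    exact Same_fin _ (card_crv_of_two k2 k3 _ kd hq)
  · subst hm
    have k2 : (2 : IsLocalRing.ResidueField (v.adicCompletionIntegers N)) = 0 := by
      have h := Same_intCast_eq v 2 (by exact_mod_cast h2)
      exact_mod_cast h
    rw [locPoly_crm v m h2 W C hC]
    exact Same_fin _ (card_crm_of_two k2 _ hq)

end Pool.Agent.Lib.MP_1a91b9_ntX.LF
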