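import Pool.Agent.Lib.MP_1a91b9_ntX.LF.LocA
import Pool.Agent.Lib.MP_1a91b9_ntX.LF.LocB
import Pool.Agent.Lib.MP_1a91b9_ntX.LF.Conj
import Pool.Agent.Lib.MP_1a91b9_ntX.LF.Inert
import Pool.Agent.Lib.MP_1a91b9_ntX.LF.Same
import Pool.Agent.Lib.MP_1a91b9_ntX.LF.Bad

/-!
# The Euler factors of the curves isomorphic to `y² = x³ + D` or `y² = x³ - 27 D`

PROOF.
`psi_bad`: `(6 D : ℤ) ∈ w`, not (`2 ∈ w` and `G2`): `HC.hd.bad` for the place `w.under (𝓞 K)` of `K` (`(n : 𝓞 K) ∈ w.under ↔ (n : 𝓞 F) ∈ w`), then `AN.psi_place_bad` (`up HC.f F` is the image of `HC.f` in `𝓞 F`).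
`loc_all`: if `Gd DD.D w`: `loc_A` or `loc_B`; otherwise both sides are `1`: `locPoly_bad` and `psi_bad`.
`euler_N`: port of `euler_B` in MP_1a91b9_ntT/S4/FactorB.lean. `d = D` or `d = -27 D`; `Gd d v ↔ Gd D v` (`6 d ∈ v ↔ 6 D ∈ v` since `27 = 3 ^ 3` and `v` is prime; `G2.neg27`, `G2.of_neg27`).
(a) not `Gd D v`: `locPoly W v = 1` by `locPoly_bad` (with `d`; `Free6.neg27`), and for all `w ∣ v` not `Gd D w`, so `psbC F w = 0` (`psi_bad`).
(b) `Gd D v` (then `3 ∉ v`: if `6 D ∉ v` clear, if `2 ∈ v` then `3 ∉ v`). `u4_split` as in `euler_B`. Split case: `locPoly_same` (LF/Same) for `d`, `W`, `v` and `W' := crv (d : F)` (with `C' = 1`), and `loc_A` or `loc_B` at `w` for `W'`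
(`C • crv (d : F) = crv (D : F)`: `1` if `d = D`; the inverse of the change of `crv_neg27` (LF/Model) if `d = -27 D`), and `psC_conj` (LF/Conj) as in `euler_B`. Inert case: `locPoly_two` (LF/Same) and `psbC_inert` (LF/Inert).
-/

set_option autoImplicit false

namespace Pool.Agent.Lib.MP_1a91b9_ntX.LF

open NumberField IsDedekindDomain Polynomial WeierstrassCurve Pool.Agent.Lib.MP_1a91b9_nt
  Pool.Agent.Lib.MP_1a91b9_ntT Pool.Agent.Lib.MP_1a91b9_ntT.S4
open Pool.Agent.Lib.MP_1a91b9_ntX.AN (psC psbC)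
open scoped Pointwise

universe u

theorem psi_bad [DD] [HC] {F : Type*} [Field F] [NumberField F] [Algebra K F]
    (w : HeightOneSpectrum (𝓞 F)) (hb : ¬ Gd DD.D w) :
    MP_1a91b9_ntX.psi F w.asIdeal = 0 := by
  unfold Gd at hb
  rw [not_or, not_not] at hb
  obtain ⟨h6, hno⟩ := hb
  have h1 : ((6 * DD.D : ℤ) : 𝓞 K) ∈ (w.under (𝓞 K)).asIdeal := by
    change algebraMap (𝓞 K) (𝓞 F) ((6 * DD.D : ℤ) : 𝓞 K) ∈ w.asIdeal
    rw [map_intCast]
    exact h6
  have h2 : ¬ ((2 : 𝓞 K) ∈ (w.under (𝓞 K)).asIdeal ∧ ∃ m : ℤ, DD.D = 16 * (4 * m + 1)) := by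
    rintro ⟨h3, h4⟩
    apply hno
    refine ⟨?_, h4⟩
    change algebraMap (𝓞 K) (𝓞 F) (2 : 𝓞 K) ∈ w.asIdeal at h3
    rwa [map_ofNat] at h3
  exact AN.psi_place_bad w (HC.hd.bad _ h1 h2)

private theorem EulN_good [DD] [HC] {F : Type u} [Field F] [NumberField F] [Algebra K F]
    (w : HeightOneSpectrum (𝓞 F)) (hg : Gd DD.D w)
    (W : WeierstrassCurve F) (C : WeierstrassCurve.VariableChange F)
    (hC : C • W = crv ((DD.D : ℤ) : F)) (x : ℂ) :
    aeval x (locPoly W w) = (1 - psC F w.asIdeal * x) * (1 - psbC F w.asIdeal * x) := by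
  rcases hg with h6 | ⟨h2, hg⟩
  · exact (loc_A w h6 W C hC).2 x
  · exact (loc_B w h2 hg W C hC).2 x

private theorem EulN_bad [DD] [HC] {F : Type*} [Field F] [NumberField F] [Algebra K F]
    (w : HeightOneSpectrum (𝓞 F)) (hb : ¬ Gd DD.D w) :
    psC F w.asIdeal = 0 ∧ psbC F w.asIdeal = 0 := by
  have h1 := psi_bad w hb
  have h2 : psC F w.asIdeal = 0 := by
    rw [psC, h1]
    simp
  refine ⟨h2, ?_⟩
  rw [psbC, h2, map_zero]

/-- the Euler factor over a field containing `K` -/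
theorem loc_all [DD] [HC] {F : Type u} [Field F] [NumberField F] [Algebra K F] (h : Nice F)
    (hf : Free6 DD.D) (w : HeightOneSpectrum (𝓞 F))
    (W : WeierstrassCurve F) (C : WeierstrassCurve.VariableChange F)
    (hC : C • W = crv ((DD.D : ℤ) : F)) (x : ℂ) :
    aeval x (locPoly W w) = (1 - psC F w.asIdeal * x) * (1 - psbC F w.asIdeal * x) := by
  by_cases hg : Gd DD.D w
  · exact EulN_good w hg W C hC x
  · obtain ⟨h1, h2⟩ := EulN_bad w hg
    unfold Gd at hg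
    rw [not_or, not_not] at hg
    rw [locPoly_bad DD.ne hf w (h w hg.1) hg.1 hg.2 W C hC, h1, h2, map_one]
    ring

private theorem EulN_over {N F : Type*} [Field N] [NumberField N] [Field F] [NumberField F]
    [Algebra N F] (v : HeightOneSpectrum (𝓞 N)) (w : HeightOneSpectrum (𝓞 F))
    (hw : w.asIdeal.under (𝓞 N) = v.asIdeal) (d : ℤ) : Gd d w ↔ Gd d v := by
  unfold Gd
  have h1 : ((6 * d : ℤ) : 𝓞 F) ∈ w.asIdeal ↔ ((6 * d : ℤ) : 𝓞 N) ∈ v.asIdeal := by
    rw [← hw]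
    change _ ↔ algebraMap (𝓞 N) (𝓞 F) ((6 * d : ℤ) : 𝓞 N) ∈ w.asIdeal
    rw [map_intCast]
  have h2 : (2 : 𝓞 F) ∈ w.asIdeal ↔ (2 : 𝓞 N) ∈ v.asIdeal := by
    rw [← hw]
    change _ ↔ algebraMap (𝓞 N) (𝓞 F) (2 : 𝓞 N) ∈ w.asIdeal
    rw [map_ofNat]
  rw [h1, h2]

private theorem EulN_three {N : Type*} [Field N] [NumberField N] (v : HeightOneSpectrum (𝓞 N)) (d : ℤ)
    (h3 : (3 : 𝓞 N) ∈ v.asIdeal) : ((6 * d : ℤ) : 𝓞 N) ∈ v.asIdeal := by
  have e : ((6 * d : ℤ) : 𝓞 N) = (2 * d : ℤ) * 3 := by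
    push_cast
    ring
  rw [e]
  exact v.asIdeal.mul_mem_left _ h3

private theorem EulN_gd {N : Type*} [Field N] [NumberField N] (v : HeightOneSpectrum (𝓞 N)) (d : ℤ) :
    Gd (-27 * d) v ↔ Gd d v := by
  unfold Gd
  have h1 : ((6 * (-27 * d) : ℤ) : 𝓞 N) ∈ v.asIdeal ↔ ((6 * d : ℤ) : 𝓞 N) ∈ v.asIdeal := by
    have e : ((6 * (-27 * d) : ℤ) : 𝓞 N) = -(3 ^ 3 * ((6 * d : ℤ) : 𝓞 N)) := by
      push_cast
      ring
    rw [e, Ideal.neg_mem_iff]
    constructor
    · intro h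
      rcases v.isPrime.mem_or_mem h with h2 | h2
      · exact EulN_three v d (v.isPrime.mem_of_pow_mem 3 h2)
      · exact h2
    · intro h
      exact v.asIdeal.mul_mem_left _ h
  rw [h1]
  exact or_congr Iff.rfl (and_congr Iff.rfl ⟨G2.of_neg27, G2.neg27⟩)

private theorem EulN_not3 {N : Type*} [Field N] [NumberField N] (v : HeightOneSpectrum (𝓞 N)) (d : ℤ)
    (hg : Gd d v) : (3 : 𝓞 N) ∉ v.asIdeal := by
  intro h3
  rcases hg with h | ⟨h, -⟩
  · exact h (EulN_three v d h3)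
  · apply v.isPrime.ne_top
    rw [Ideal.eq_top_iff_one]
    have e : (1 : 𝓞 N) = 3 - 2 := by norm_num
    rw [e]
    exact v.asIdeal.sub_mem h3 h

/-- the Euler factor over a field which does not contain `K` -/
theorem euler_N [DD] [HC] {N F : Type u} [Field N] [NumberField N] [Field F] [NumberField F]
    [Algebra N F] [Algebra K F] (hL : Module.finrank N F = 2)
    (hn : ∀ x : N, algebraMap N F x ≠ algebraMap K F om) (h : Nice N) (hf : Free6 DD.D) (d : ℤ)
    (hd : d = DD.D ∨ d = -27 * DD.D)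
    (W : WeierstrassCurve N) (C : WeierstrassCurve.VariableChange N) (hC : C • W = crv (d : N))
    (v : HeightOneSpectrum (𝓞 N)) (s : ℂ) :
    ∏ w : Over F v, (1 - psbC F w.1.asIdeal * (Ideal.absNorm w.1.asIdeal : ℂ) ^ (-s))⁻¹ =
      fac W v s := by
  classical
  have hζ : (algebraMap K F om) ^ 2 + algebraMap K F om + 1 = 0 := by
    rw [← map_pow, ← map_add, ← map_one (algebraMap K F), ← map_add, om_eq, map_zero]
  have hf' : Free6 d := by
    rcases hd with rfl | rfl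
    · exact hf
    · exact hf.neg27
  have hd0 : d ≠ 0 := by
    have h1 := DD.ne
    rcases hd with rfl | rfl
    · exact h1
    · exact mul_ne_zero (by norm_num) h1
  have hGd : Gd d v ↔ Gd DD.D v := by
    rcases hd with rfl | rfl
    · exact Iff.rfl
    · exact EulN_gd v _
  rw [fac]
  by_cases hg : Gd DD.D v
  swap
  · have hg' : ¬ Gd d v := fun h1 => hg (hGd.1 h1)
    unfold Gd at hg'
    rw [not_or, not_not] at hg'
    have h6 : ((6 * DD.D : ℤ) : 𝓞 N) ∈ v.asIdeal := by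
      by_contra h7
      exact hg (Or.inl h7)
    rw [locPoly_bad hd0 hf' v (h v h6) hg'.1 hg'.2 W C hC, map_one, inv_one]
    refine Finset.prod_eq_one fun w _ => ?_
    have hb : ¬ Gd DD.D w.1 := fun h1 => hg ((EulN_over v w.1 w.2 _).1 h1)
    rw [(EulN_bad w.1 hb).2]
    simp
  have h3 := EulN_not3 v _ hg
  have hquad : Algebra.IsQuadraticExtension N F := ⟨hL⟩
  have hgal : IsGalois N F := inferInstance
  have hroot : ∀ σ : Gal(F/N), σ (algebraMap K F om) = algebraMap K F om ∨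
      σ (algebraMap K F om) = algebraMap K F (-1 - om) := by
    intro σ
    have h2 : (σ (algebraMap K F om)) ^ 2 + σ (algebraMap K F om) + 1 = 0 := by
      rw [← map_pow, ← map_add, ← map_one σ, ← map_add, hζ, map_zero]
    have h4 : (σ (algebraMap K F om) - algebraMap K F om) *
        (σ (algebraMap K F om) + 1 + algebraMap K F om) = 0 := by linear_combination h2 - hζ
    rcases mul_eq_zero.mp h4 with h | h
    · exact Or.inl (sub_eq_zero.mp h)
    · right
      rw [map_sub, map_neg, map_one]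
      linear_combination h
  have hcard : Nat.card Gal(F/N) = 2 := by
    rw [IsGalois.card_aut_eq_finrank, hL]
  have hvp : v.asIdeal.IsPrime := v.isPrime
  have hexσ : ∃ σ : Gal(F/N), σ (algebraMap K F om) = algebraMap K F (-1 - om) := by
    by_contra hcon
    push Not at hcon
    obtain ⟨x, hx⟩ := (IsGalois.mem_range_algebraMap_iff_fixed (algebraMap K F om)).mpr
      (fun σ => (hroot σ).resolve_right (hcon σ))
    exact hn x hx
  obtain ⟨σ₀, hσ₀⟩ := hexσ
  have hσ₀1 : σ₀ ≠ 1 := by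
    rintro rfl
    have h5 : algebraMap K F om = algebraMap K F (-1 - om) := hσ₀
    have h6 := (algebraMap K F).injective h5
    have h7 : 2 * om = -1 := by linear_combination h6
    have h8 := om_eq
    have h9 : (3 : K) = 0 := by linear_combination 4 * h8 - (2 * om + 1) * h7
    norm_num at h9
  have huniq : ∀ σ : Gal(F/N), σ ≠ 1 → σ = σ₀ := by
    intro σ hσ
    obtain ⟨y, hy, hyu⟩ := (Nat.card_eq_two_iff' (1 : Gal(F/N))).mp hcard
    rw [hyu σ hσ, hyu σ₀ hσ₀1]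
  rcases u4_split hL (algebraMap K F om) hζ hn v h3 with ⟨g1, g2, g3⟩ | ⟨g1, g2, g3⟩
  · -- split
    have g3' : Fintype.card (Over F v) = 2 := by rw [← Nat.card_eq_fintype_card]; exact g3
    rw [← Finset.card_univ, Finset.card_eq_two] at g3'
    obtain ⟨w, w', hww, huniv⟩ := g3'
    rw [huniv, Finset.prod_pair hww]
    have i1 : w.1.asIdeal.IsPrime := w.1.isPrime
    have i2 : w.1.asIdeal.LiesOver v.asIdeal := ⟨w.2.symm⟩
    have i1' : w'.1.asIdeal.IsPrime := w'.1.isPrime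
    have i2' : w'.1.asIdeal.LiesOver v.asIdeal := ⟨w'.2.symm⟩
    obtain ⟨σ, hσ⟩ := Ideal.exists_smul_eq_of_isGaloisGroup v.asIdeal w.1.asIdeal w'.1.asIdeal
      Gal(F/N)
    have hσ1 : σ ≠ 1 := by
      rintro rfl
      rw [one_smul] at hσ
      exact hww (Subtype.ext (HeightOneSpectrum.ext hσ))
    rw [huniq σ hσ1] at hσ
    have hpsi := LF.psC_conj σ₀ hσ₀ w.1 w'.1 hσ.symm (by rw [g2 w'.1 w'.2, g2 w.1 w.2])
    have hpsib : psbC F w'.1.asIdeal = psC F w.1.asIdeal := by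
      rw [psbC, hpsi, psbC, Complex.conj_conj]
    have e1 := g2 w.1 w.2
    have e2 := g2 w'.1 w'.2
    rw [nrm_eq] at e1 e2
    have hgw : Gd DD.D w.1 := (EulN_over v w.1 w.2 _).2 hg
    obtain ⟨C', hC'⟩ : ∃ C' : WeierstrassCurve.VariableChange F,
        C' • crv (d : F) = crv ((DD.D : ℤ) : F) := by
      rcases hd with rfl | rfl
      · exact ⟨1, one_smul _ _⟩
      · obtain ⟨C', hC'⟩ := crv_neg27 ((DD.D : ℤ) : F)
        refine ⟨C'⁻¹, ?_⟩
        have e3 : (((-27 * DD.D : ℤ)) : F) = -27 * ((DD.D : ℤ) : F) := by push_cast; ring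
        rw [e3, ← hC', inv_smul_smul]
    have hsame := LF.locPoly_same d v (hGd.2 hg) w.1 w.2 (g2 w.1 w.2) W C hC (crv (d : F)) 1
      (one_smul _ _)
    rw [← hsame, EulN_good w.1 hgw _ C' hC', hpsib, e1, e2, mul_inv, mul_comm, nrm_eq]
  · -- inert
    have g3' : Fintype.card (Over F v) = 1 := by rw [← Nat.card_eq_fintype_card]; exact g3
    have hsub : Subsingleton (Over F v) := Fintype.card_le_one_iff_subsingleton.mp g3'.le
    rw [← Finset.card_univ, Finset.card_eq_one] at g3'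
    obtain ⟨w, huniv⟩ := g3'
    rw [huniv, Finset.prod_singleton]
    have i1 : w.1.asIdeal.IsPrime := w.1.isPrime
    have i2 : w.1.asIdeal.LiesOver v.asIdeal := ⟨w.2.symm⟩
    have hfix : σ₀ • w.1.asIdeal = w.1.asIdeal := by
      have j1 : (σ₀ • w.1.asIdeal).IsPrime := inferInstance
      have j2 : (σ₀ • w.1.asIdeal).LiesOver v.asIdeal := inferInstance
      have j3 : σ₀ • w.1.asIdeal ≠ ⊥ := under_ne_bot v _ j2.over.symm
      have j4 : (⟨⟨σ₀ • w.1.asIdeal, j1, j3⟩, j2.over.symm⟩ : Over F v) = w :=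
        Subsingleton.elim _ _
      exact congrArg (fun z : Over F v => z.1.asIdeal) j4
    have hn2 := g2 w.1 w.2
    have hpsib := psbC_inert v hg w.1 w.2 hn2 g1 σ₀ hσ₀ hfix
    rw [locPoly_two d v (hGd.2 hg) g1 W C hC, hpsib]
    congr 1
    have hn2' : Ideal.absNorm w.1.asIdeal = nrm v ^ 2 := by rw [← nrm_eq]; exact hn2
    have h8 : ((nrm v ^ 2 : ℕ) : ℂ) ^ (-s) = (nrm v : ℂ) ^ (-s) * (nrm v : ℂ) ^ (-s) := by
      rw [pow_two, Nat.cast_mul, Complex.natCast_mul_natCast_cpow]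
    rw [hn2', h8]
    simp only [map_add, map_one, map_mul, map_pow, aeval_X, map_natCast]
    ring

end Pool.Agent.Lib.MP_1a91b9_ntX.LF
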