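import Pool.Agent.Lib.MP_1a91b9_ntX.LF.Chi
import Pool.Agent.Lib.MP_1a91b9_ntX.LF.CntA
import Pool.Agent.Lib.MP_1a91b9_ntX.LF.Model
import Pool.Agent.Lib.MP_1a91b9_ntX.DB.FrobU
import Pool.Agent.Lib.MP_1a91b9_ntX.AN.Psi

/-!
# The local factor at the places not dividing `6 D`, fields containing `K`

PROOF. `k` = residue field, `q = nrm w`, `q` odd and prime to `3` (`6 D ∉ w`), `ρ = redMap K w`, `χ`, `J`, `J'` from `exists_chi`, `τ = embK ∘ coe : 𝓞 K → ℂ`, `χ' = χ.ringHomComp τ`.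
`locPoly_crv` (LF/Model) and `card_crv_of_one` (LF/CntA) for `χ'` and `d = (D : k)` (`≠ 0`):
`# = q + 1 + χ' (4 D) η(D) τ J + conj`, as in the last part of `exists_psi` in MP_1a91b9_ntT/S4/Psi.lean (`χ'⁻¹ = (χ ^ 2).ringHomComp τ`, `jacobiSum_ringHomComp`). (`η = etaC k`, `η (D) = ± 1` real, `etaC k D = etaC k (4 D)` since `4` is a square.)
Put `z = χ (4 D) · ε ∈ 𝓞 K` with `ε = ± 1` the value of `η (D)` (`quadraticChar k (4 D)`). `z` is a unit (`z ^ 6 = 1`), `ρ z = (4 D) ^ ((q-1)/3) · (4 D) ^ ((q-1)/2) = (4 D) ^ (5 (q-1)/6)` (`quadraticChar_eq_pow_of_char_ne_two'`).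
`psi_sym` (DB/FrobU; `bD F = ((6 D : ℤ) : F)` has valuation `1` since `6 D ∉ w`): a unit `u` with `u · psi F w = S4.psi F w = - J` and `u - (4 D) ^ ((q-1)/6) ∈ w` (valuation `< 1`), `6 ∣ q - 1`. Hence `ρ (z u) = (4 D) ^ (q - 1) = 1`, and
`z u = 1` by `unit_inj` (DB/FrobU; it is stated with the valuation: an element of `𝓞 K` in the kernel of `ρ` lies in `w` by `redMap_ker`, so its valuation is `< 1`, `valuation_lt_one_iff_mem`; `6` has valuation `1`).
So `psi F w = z (u psi F w) = - z J`. Then `psC = - χ' (4 D) η(D) τ J`, `psbC = conj` of it `= - χ'⁻¹ (4 D) η (D) τ J'` (`conj (χ' x) = χ'⁻¹ x`: roots of unity), sum `= q + 1 - #`, product `= τ (J J') = q` (`|z| = 1`).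
-/

set_option autoImplicit false

namespace Pool.Agent.Lib.MP_1a91b9_ntX.LF

open NumberField IsDedekindDomain Polynomial WeierstrassCurve Pool.Agent.Lib.MP_1a91b9_nt
  Pool.Agent.Lib.MP_1a91b9_ntT
open Pool.Agent.Lib.MP_1a91b9_ntX.AN (psC psbC)

universe u

theorem loc_A [DD] [HC] {F : Type u} [Field F] [NumberField F] [Algebra K F]
    (w : HeightOneSpectrum (𝓞 F)) (h6 : ((6 * DD.D : ℤ) : 𝓞 F) ∉ w.asIdeal)
    (W : WeierstrassCurve F) (C : WeierstrassCurve.VariableChange F)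
    (hC : C • W = crv ((DD.D : ℤ) : F)) :
    psC F w.asIdeal * psbC F w.asIdeal = (nrm w : ℂ) ∧
    ∀ x : ℂ, aeval x (locPoly W w) =
      (1 - psC F w.asIdeal * x) * (1 - psbC F w.asIdeal * x) := by
  classical
  have hfin : Finite (IsLocalRing.ResidueField (w.adicCompletionIntegers F)) := finite_residue w
  have := Fintype.ofFinite (IsLocalRing.ResidueField (w.adicCompletionIntegers F))
  have hker : RingHom.ker (redMap K w) = w.asIdeal.under (𝓞 K) := redMap_ker w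
  have hcard : Fintype.card (IsLocalRing.ResidueField (w.adicCompletionIntegers F)) = nrm w := by
    rw [nrm, Nat.card_eq_fintype_card]
  have hz : ∀ n : ℤ, ((n : ℤ) : IsLocalRing.ResidueField (w.adicCompletionIntegers F)) = 0 →
      ((n : ℤ) : 𝓞 F) ∈ w.asIdeal := by
    intro n hn
    have h4 : ((n : ℤ) : 𝓞 K) ∈ RingHom.ker (redMap K w) := by
      rw [RingHom.mem_ker, map_intCast]
      exact hn
    rw [hker] at h4
    have h5 : algebraMap (𝓞 K) (𝓞 F) ((n : ℤ) : 𝓞 K) ∈ w.asIdeal := h4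
    rwa [map_intCast] at h5
  have hmul : ∀ a b : ℤ, a * b = 6 * DD.D → ((a : ℤ) : 𝓞 F) ∉ w.asIdeal := by
    intro a b hab h
    apply h6
    rw [← hab, Int.cast_mul]
    exact Ideal.mul_mem_right _ _ h
  have h2k : (2 : IsLocalRing.ResidueField (w.adicCompletionIntegers F)) ≠ 0 := fun h =>
    hmul 2 (3 * DD.D) (by ring) (hz 2 (by push_cast; exact h))
  have h3k : (3 : IsLocalRing.ResidueField (w.adicCompletionIntegers F)) ≠ 0 := fun h =>
    hmul 3 (2 * DD.D) (by ring) (hz 3 (by push_cast; exact h))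
  have hDk : ((DD.D : ℤ) : IsLocalRing.ResidueField (w.adicCompletionIntegers F)) ≠ 0 := fun h =>
    hmul DD.D 6 (by ring) (hz DD.D h)
  have h3w : (3 : 𝓞 F) ∉ w.asIdeal := by
    have h := hmul 3 (2 * DD.D) (by ring)
    rwa [Int.cast_ofNat] at h
  have h6w : (6 : 𝓞 F) ∉ w.asIdeal := by
    have h := hmul 6 DD.D (by ring)
    rwa [Int.cast_ofNat] at h
  -- valuations
  have hval : ∀ x : 𝓞 F, x ∉ w.asIdeal → w.valuation F (x : F) = 1 := by
    intro x hx
    have h1 := w.valuation_le_one (K := F) x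
    have h2 : ¬ w.valuation F (algebraMap (𝓞 F) F x) < 1 := fun h =>
      hx ((w.valuation_lt_one_iff_mem (K := F) x).1 h)
    exact le_antisymm h1 (not_lt.1 h2)
  have hvK : ∀ x : 𝓞 K, w.valuation F (algebraMap K F (x : K)) < 1 ↔ redMap K w x = 0 := by
    intro x
    have h1 : algebraMap K F (x : K) = algebraMap (𝓞 F) F (algebraMap (𝓞 K) (𝓞 F) x) := rfl
    rw [h1, w.valuation_lt_one_iff_mem (K := F)]
    have h2 : redMap K w x = 0 ↔ x ∈ RingHom.ker (redMap K w) := RingHom.mem_ker.symm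
    rw [h2, hker]
    rfl
  have hb : w.valuation F (bD F) = 1 := by
    have h1 := hval _ h6
    have h2 : (((6 * DD.D : ℤ) : 𝓞 F) : F) = bD F := map_intCast (algebraMap (𝓞 F) F) _
    rwa [h2] at h1
  have hv6 : w.valuation F (6 : F) = 1 := by
    have h1 := hval _ h6w
    have h2 : ((6 : 𝓞 F) : F) = 6 := map_ofNat (algebraMap (𝓞 F) F) 6
    rwa [h2] at h1
  -- the characters
  obtain ⟨χ, hχ3, hχ1, hχρ, hdvd, hψ, hconj, hJJ⟩ := exists_chi w h3w
  obtain ⟨v, hv1, hv2, hd6⟩ := DB.psi_sym w hb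
  rw [← nrm_eq] at hv1 hd6
  obtain ⟨t, ht⟩ := hd6
  have hnpos : 0 < nrm w := by rw [← hcard]; exact Fintype.card_pos
  have ht1 : nrm w = 6 * t + 1 := by omega
  obtain ⟨d, hd⟩ : ∃ d : IsLocalRing.ResidueField (w.adicCompletionIntegers F),
    d = ((DD.D : ℤ) : IsLocalRing.ResidueField (w.adicCompletionIntegers F)) := ⟨_, rfl⟩
  have hd0 : d ≠ 0 := by rw [hd]; exact hDk
  have h4d : 4 * d ≠ 0 := by
    have h4 : (4 : IsLocalRing.ResidueField (w.adicCompletionIntegers F)) = 2 ^ 2 := by norm_num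
    rw [h4]
    exact mul_ne_zero (pow_ne_zero 2 h2k) hd0
  have hF : ringChar (IsLocalRing.ResidueField (w.adicCompletionIntegers F)) ≠ 2 := by
    intro h
    apply h2k
    have h1 := ringChar.Nat.cast_ringChar (R := IsLocalRing.ResidueField (w.adicCompletionIntegers F))
    rw [h] at h1
    exact_mod_cast h1
  obtain ⟨e, he⟩ : ∃ e : ℤ, e = quadraticChar (IsLocalRing.ResidueField (w.adicCompletionIntegers F)) d :=
    ⟨_, rfl⟩
  have he2 : e * e = 1 := by
    rcases quadraticChar_dichotomy hd0 with h | h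
    · rw [he, h]; norm_num
    · rw [he, h]; norm_num
  have he4 : e = quadraticChar (IsLocalRing.ResidueField (w.adicCompletionIntegers F)) (4 * d) := by
    have h4 : (4 : IsLocalRing.ResidueField (w.adicCompletionIntegers F)) = 2 ^ 2 := by norm_num
    rw [he, map_mul, h4, quadraticChar_sq_one' h2k, one_mul]
  have hek : (e : IsLocalRing.ResidueField (w.adicCompletionIntegers F)) = (4 * d) ^ (3 * t) := by
    rw [he4, quadraticChar_eq_pow_of_char_ne_two' hF, hcard, ht1]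
    congr 1
    omega
  have hχ33 : χ (4 * d) ^ 3 = 1 := by
    rw [← MulChar.pow_apply' _ (by norm_num), hχ3, MulChar.one_apply (isUnit_iff_ne_zero.2 h4d)]
  -- the unit
  obtain ⟨z, hzdef⟩ : ∃ z : 𝓞 K, z = χ (4 * d) * (e : 𝓞 K) := ⟨_, rfl⟩
  have hee : (e : 𝓞 K) * (e : 𝓞 K) = 1 := by
    rw [← Int.cast_mul, he2, Int.cast_one]
  have hz6 : z * z ^ 5 = 1 := by
    have h1 : z * z ^ 5 = (χ (4 * d) ^ 3) ^ 2 * ((e : 𝓞 K) * (e : 𝓞 K)) ^ 3 := by
      rw [hzdef]
      ring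
    rw [h1, hχ33, hee]
    ring
  obtain ⟨zu, hzu⟩ : ∃ zu : (𝓞 K)ˣ, (zu : 𝓞 K) = z := ⟨Units.mkOfMulEqOne z (z ^ 5) hz6, rfl⟩
  have hρz : redMap K w z = (4 * d) ^ (2 * t) * (4 * d) ^ (3 * t) := by
    rw [hzdef, map_mul, hχρ, map_intCast, hek, ht1]
    congr 2
    omega
  have hρv : redMap K w (v : 𝓞 K) = (4 * d) ^ t := by
    have e0 : (nrm w - 1) / 6 = t := by omega
    rw [e0] at hv1
    have e1 : algebraMap K F (((v : 𝓞 K) : K)) - (4 * dD F) ^ t =
        algebraMap K F ((((v : 𝓞 K) - (4 * (DD.D : 𝓞 K)) ^ t : 𝓞 K)) : K) := by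
      let c : 𝓞 K →+* F := (algebraMap K F).comp (algebraMap (𝓞 K) K)
      change c (v : 𝓞 K) - (4 * dD F) ^ t = c ((v : 𝓞 K) - (4 * (DD.D : 𝓞 K)) ^ t)
      rw [map_sub, map_pow, map_mul, map_intCast, map_ofNat]
    rw [e1, hvK, map_sub, map_pow, map_mul, map_intCast, map_ofNat, ← hd] at hv1
    exact sub_eq_zero.1 hv1
  have hone : zu * v = 1 := by
    refine DB.unit_inj (w.valuation F) hv6 _ _ ?_
    have e1 : algebraMap K F (((zu * v : (𝓞 K)ˣ) : 𝓞 K) : K) - algebraMap K F (((1 : (𝓞 K)ˣ) : 𝓞 K) : K) =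
        algebraMap K F (((z * (v : 𝓞 K) - 1 : 𝓞 K)) : K) := by
      let c : 𝓞 K →+* F := (algebraMap K F).comp (algebraMap (𝓞 K) K)
      change c ((zu * v : (𝓞 K)ˣ) : 𝓞 K) - c ((1 : (𝓞 K)ˣ) : 𝓞 K) = c (z * (v : 𝓞 K) - 1)
      rw [map_sub, Units.val_mul, hzu, Units.val_one]
    rw [e1, hvK, map_sub, map_mul, hρz, hρv, map_one, ← pow_add, ← pow_add]
    have e2 : 2 * t + 3 * t + t = Fintype.card (IsLocalRing.ResidueField (w.adicCompletionIntegers F)) - 1 := by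
      rw [hcard, ht1]
      omega
    rw [e2, FiniteField.pow_card_sub_one_eq_one _ h4d, sub_self]
  have hpsi : psi F w.asIdeal = -(z * jacobiSum χ χ) := by
    have h1 : (zu : 𝓞 K) * (v : 𝓞 K) = 1 := by
      rw [← Units.val_mul, hone, Units.val_one]
    rw [hzu] at h1
    have h2 : psi F w.asIdeal = z * ((v : 𝓞 K) * psi F w.asIdeal) := by
      rw [← mul_assoc, h1, one_mul]
    rw [h2, hv2, hψ]
    ring
  -- complex values
  obtain ⟨τ, hτ⟩ : ∃ τ : 𝓞 K →+* ℂ, τ = embK.toRingHom.comp (algebraMap (𝓞 K) K) := ⟨_, rfl⟩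
  have hτa : ∀ x : 𝓞 K, τ x = embK (x : K) := fun x => by rw [hτ]; rfl
  have hτi : Function.Injective τ := by
    rw [hτ]
    exact (embK.toRingHom.injective).comp RingOfIntegers.coe_injective
  rw [← hτa, ← hτa] at hconj
  have hτJJ : τ (jacobiSum χ χ) * τ (jacobiSum (χ ^ 2) (χ ^ 2)) = (nrm w : ℂ) := by
    rw [← map_mul, hJJ, map_natCast]
  obtain ⟨a, ha⟩ : ∃ a : ℂ, a = τ (χ (4 * d)) := ⟨_, rfl⟩
  have ha3 : a ^ 3 = 1 := by rw [ha, ← map_pow, hχ33, map_one]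
  have ha0 : a ≠ 0 := by
    intro h
    rw [h] at ha3
    norm_num at ha3
  have hconja : (starRingEnd ℂ) a = a⁻¹ := by
    have hn : ‖a‖ = 1 := Complex.norm_eq_one_of_pow_eq_one ha3 (by norm_num)
    have h1 : a * (starRingEnd ℂ) a = 1 := by
      rw [Complex.mul_conj, Complex.normSq_eq_norm_sq, hn]
      norm_num
    exact eq_inv_of_mul_eq_one_right h1
  have hεε : ((e : ℤ) : ℂ) * ((e : ℤ) : ℂ) = 1 := by
    rw [← Int.cast_mul, he2, Int.cast_one]
  have hps : psC F w.asIdeal = -(a * (e : ℂ) * τ (jacobiSum χ χ)) := by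
    rw [psC, hpsi, ← hτa, map_neg, map_mul, hzdef, map_mul, map_intCast, ← ha]
  have hpsb : psbC F w.asIdeal = -(a⁻¹ * (e : ℂ) * τ (jacobiSum (χ ^ 2) (χ ^ 2))) := by
    rw [psbC, hps, map_neg, map_mul, map_mul, hconja, hconj, map_intCast]
  have hprod : psC F w.asIdeal * psbC F w.asIdeal = (nrm w : ℂ) := by
    rw [hps, hpsb, ← hτJJ]
    have h1 : a * a⁻¹ = 1 := mul_inv_cancel₀ ha0
    linear_combination (((e : ℤ) : ℂ) * ((e : ℤ) : ℂ) * τ (jacobiSum χ χ) * τ (jacobiSum (χ ^ 2) (χ ^ 2))) * h1 +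
      (τ (jacobiSum χ χ) * τ (jacobiSum (χ ^ 2) (χ ^ 2))) * hεε
  refine ⟨hprod, fun x => ?_⟩
  have hmodel := locPoly_crv w DD.D h6 W C hC
  rw [hmodel]
  have hcount := card_crv_of_one h2k h3k _ hDk (χ.ringHomComp τ) (by
    rw [Ne, MulChar.ringHomComp_eq_one_iff hτi]
    exact hχ1) (by rw [MulChar.ringHomComp_pow, hχ3, MulChar.ringHomComp_one])
      (by rw [hcard]; exact hdvd)
  have hinv : (χ.ringHomComp τ)⁻¹ = (χ ^ 2).ringHomComp τ := by
    rw [← S4.u4_inv_eq χ hχ3]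
    exact MulChar.ringHomComp_inv _ _
  have hinva : (χ.ringHomComp τ)⁻¹ (4 * d) = a⁻¹ := by
    rw [MulChar.inv_apply_eq_inv', MulChar.ringHomComp_apply, ← ha]
  have heta : etaC (IsLocalRing.ResidueField (w.adicCompletionIntegers F)) d = (e : ℂ) := by
    rw [etaC, MulChar.ringHomComp_apply, ← he]
    rfl
  rw [← hd, hinva, heta, MulChar.ringHomComp_apply, ← ha, hinv, jacobiSum_ringHomComp,
    jacobiSum_ringHomComp, hcard] at hcount
  rw [hd] at hcount
  simp only [map_add, map_sub, map_one, map_mul, aeval_X, map_pow, map_natCast]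
  have hc' := hcount
  rw [hc']
  have hsum : (1 - psC F w.asIdeal * x) * (1 - psbC F w.asIdeal * x) =
      1 - (psC F w.asIdeal + psbC F w.asIdeal) * x + (psC F w.asIdeal * psbC F w.asIdeal) * x ^ 2 := by
    ring
  rw [hsum, hprod, hps, hpsb]
  ring

end Pool.Agent.Lib.MP_1a91b9_ntX.LF
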