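import Pool.Agent.Lib.MP_1a91b9_ntX.LF.Ser
import Pool.Agent.Lib.MP_1a91b9_ntX.LF.Cls
import Pool.Agent.Lib.MP_1a91b9_ntX.AN.Alg
import Pool.Agent.Lib.MP_1a91b9_ntT.DW.Main

/-!
# The curves over the fields inside an extension of `K` of degree prime to six

PROOF. port of MP_1a91b9_ntT/DW/Main.lean (`concl_K`, `concl_N`, `Dat`, `twist_main`) with `LSeries_K`, `LSeries_N`, `Lf_conj`, `half_Lf` (LF/Ser), `class_six` (LF/Cls), `AN.LGood`.
`concl_K`: `g s = conj (L (conj s)) * L s`. For the finiteness over `N` (in `concl_N`): `finite_iso W D` (MP_1a91b9_ntT/TW) with the change of variables over `F`; for `d = -27 D` the curve becomes isomorphic to `crv D` over `F` (`crv_neg27`, LF/Model).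
-/

set_option autoImplicit false

namespace Pool.Agent.Lib.MP_1a91b9_ntX.LF

open NumberField IsDedekindDomain WeierstrassCurve Pool.Agent.Lib.MP_1a91b9_nt
  Pool.Agent.Lib.MP_1a91b9_ntT
open Pool.Agent.Lib.MP_1a91b9_ntX.AN (psC psbC LGood)

universe u

private theorem Main_finite_iso [DD] {N M : Type*} [Field N] [Field M] [Algebra N M]
    (W : WeierstrassCurve N) (C : WeierstrassCurve.VariableChange M)
    (hC : C • (W.baseChange M) = MP_1a91b9_ntX.E M)
    (h : Finite (MP_1a91b9_ntX.E M).toAffine.Point) : Finite W.toAffine.Point := by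
  rw [← hC] at h
  have h3 : Finite (W.map (algebraMap N M)).toAffine.Point :=
    Finite.of_surjective _ (vcFun_bijective (W.baseChange M) C).2
  exact Finite.of_injective _ (TW.locMap_injective (algebraMap N M) W)

/-- The conclusion over a field containing `K`. -/
theorem concl_K [DD] [HC] {F : Type u} [Field F] [NumberField F] [Algebra K F] (h : Nice F)
    (hfr : Free6 DD.D) (hg : LGood F) (hf : Finite (MP_1a91b9_ntX.E F).toAffine.Point)
    (W : WeierstrassCurve F) (D : WeierstrassCurve.VariableChange F)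
    (hD : D • W = MP_1a91b9_ntX.E F) :
    (∃ g : ℂ → ℂ, Differentiable ℂ g ∧ (∀ s : ℂ, 3 / 2 < s.re → g s = W.LSeries s) ∧ g 1 ≠ 0) ∧
      Finite W.toAffine.Point := by
  obtain ⟨L, hL, hL2, hne⟩ := hg
  have hL1 := half_Lf hL hL2
  refine ⟨⟨fun s => (starRingEnd ℂ) (L ((starRingEnd ℂ) s)) * L s,
    (S4.differentiable_conj_conj hL).mul hL, fun s hs => ?_, ?_⟩, ?_⟩
  · change (starRingEnd ℂ) (L ((starRingEnd ℂ) s)) * L s = _
    rw [LSeries_K h hfr W D (hD.trans (E_eq_crv F)) s hs, hL1 s hs,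
      hL1 _ (by rw [Complex.conj_re]; exact hs), ← Lf_conj]
  · change (starRingEnd ℂ) (L ((starRingEnd ℂ) 1)) * L 1 ≠ 0
    rw [map_one]
    exact mul_ne_zero ((map_ne_zero _).mpr hne) hne
  · rw [← hD] at hf
    exact Finite.of_surjective _ (vcFun_bijective W D).2

/-- The conclusion over a field `N` without `√-3`, `F = N(√-3)`. -/
theorem concl_N [DD] [HC] {N F : Type u} [Field N] [NumberField N] [Field F] [NumberField F]
    [Algebra N F] [Algebra K F] (hL : Module.finrank N F = 2)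
    (hn : ∀ x : N, algebraMap N F x ≠ algebraMap K F om) (h : Nice N) (hfr : Free6 DD.D)
    (hg : LGood F) (hf : Finite (MP_1a91b9_ntX.E F).toAffine.Point) (W : WeierstrassCurve N)
    (hW : (∃ D : WeierstrassCurve.VariableChange N, D • W = crv ((DD.D : ℤ) : N)) ∨
      ∃ D : WeierstrassCurve.VariableChange N, D • W = crv ((-27 * DD.D : ℤ) : N)) :
    (∃ g : ℂ → ℂ, Differentiable ℂ g ∧ (∀ s : ℂ, 3 / 2 < s.re → g s = W.LSeries s) ∧ g 1 ≠ 0) ∧
      Finite W.toAffine.Point := by
  obtain ⟨L, hLd, hL2, hne⟩ := hg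
  have hL1 := half_Lf hLd hL2
  rcases hW with ⟨D, hD⟩ | ⟨D, hD⟩
  · refine ⟨⟨L, hLd, fun s hs => ?_, hne⟩, ?_⟩
    · rw [hL1 s hs, LSeries_N hL hn h hfr DD.D (Or.inl rfl) W D hD s hs]
    · refine Main_finite_iso W (D.map (algebraMap N F)) ?_ hf
      have h1 : (D.map (algebraMap N F)) • (W.baseChange F) = (D • W).map (algebraMap N F) :=
        (WeierstrassCurve.map_variableChange _ _ _)
      rw [h1, hD, crv_map, map_intCast, E_eq_crv]
  · refine ⟨⟨L, hLd, fun s hs => ?_, hne⟩, ?_⟩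
    · rw [hL1 s hs, LSeries_N hL hn h hfr (-27 * DD.D) (Or.inr rfl) W D hD s hs]
    · obtain ⟨C, hC⟩ := crv_neg27 (F := F) ((DD.D : ℤ) : F)
      refine Main_finite_iso W (C⁻¹ * D.map (algebraMap N F)) ?_ hf
      have h1 : (D.map (algebraMap N F)) • (W.baseChange F) = (D • W).map (algebraMap N F) :=
        (WeierstrassCurve.map_variableChange _ _ _)
      have h2 : ((-27 * DD.D : ℤ) : F) = -27 * ((DD.D : ℤ) : F) := by push_cast; ring
      rw [mul_smul, h1, hD, crv_map, map_intCast, E_eq_crv, h2, ← hC, inv_smul_smul]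

/-- What is needed about the field `N`. -/
def Dat [DD] [HC] (N : Type u) [Field N] [NumberField N] : Prop :=
  (∃ _ : Algebra K N, LGood N ∧ Finite (MP_1a91b9_ntX.E N).toAffine.Point) ∨
  ∃ (F : Type u) (_ : Field F) (_ : NumberField F) (_ : Algebra N F) (_ : Algebra K F),
    Module.finrank N F = 2 ∧ (∀ x : N, algebraMap N F x ≠ algebraMap K F om) ∧
      LGood F ∧ Finite (MP_1a91b9_ntX.E F).toAffine.Point

/-- The theorem for the curves over `N` which are isomorphic over `N` to `y² = x³ + D` or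
`y² = x³ - 27 D`. -/
theorem twist_of [DD] [HC] {N : Type u} [Field N] [NumberField N] (hN : Nice N)
    (hfr : Free6 DD.D) (hdat : Dat N) (W : WeierstrassCurve N)
    (hW : (∃ D : WeierstrassCurve.VariableChange N, D • W = crv ((DD.D : ℤ) : N)) ∨
      ∃ D : WeierstrassCurve.VariableChange N, D • W = crv ((-27 * DD.D : ℤ) : N)) :
    (∃ g : ℂ → ℂ, Differentiable ℂ g ∧ (∀ s : ℂ, 3 / 2 < s.re → g s = W.LSeries s) ∧ g 1 ≠ 0) ∧
      Finite W.toAffine.Point := by
  rcases hdat with ⟨_, hg, hf⟩ | ⟨F, _, _, _, _, hL, hn, hg, hf⟩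
  · rcases hW with ⟨D, hD⟩ | ⟨D, hD⟩
    · exact concl_K hN hfr hg hf W D (hD.trans (E_eq_crv N).symm)
    · obtain ⟨C', hC'⟩ := crv_neg27 (F := N) ((DD.D : ℤ) : N)
      have h2 : ((-27 * DD.D : ℤ) : N) = -27 * ((DD.D : ℤ) : N) := by push_cast; ring
      exact concl_K hN hfr hg hf W (C'⁻¹ * D)
        (by rw [mul_smul, hD, E_eq_crv, h2, ← hC', inv_smul_smul])
  · exact concl_N hL hn hN hfr hg hf W hW

/-- The theorem for the curves over `N` which become isomorphic to `E` inside an extension `M` of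
`K` of degree prime to six. -/
theorem twist_main [DD] [HC] (N L M : Type u) [Field N] [NumberField N] [Field L] [NumberField L]
    [Field M] [NumberField M] [Algebra N L] [Algebra L M] [Algebra K M]
    (h2 : ¬ 2 ∣ Module.finrank K M) (h3 : ¬ 3 ∣ Module.finrank K M) (hN : Nice N)
    (hfr : Free6 DD.D) (hdat : Dat N) (W : WeierstrassCurve N)
    (C : WeierstrassCurve.VariableChange L)
    (hC : C • (W.baseChange L) = MP_1a91b9_ntX.E L) :
    (∃ g : ℂ → ℂ, Differentiable ℂ g ∧ (∀ s : ℂ, 3 / 2 < s.re → g s = W.LSeries s) ∧ g 1 ≠ 0) ∧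
      Finite W.toAffine.Point := by
  exact twist_of hN hfr hdat W (class_six N L M h2 h3 DD.D DD.ne W C (hC.trans (E_eq_crv L)))

end Pool.Agent.Lib.MP_1a91b9_ntX.LF
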