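import Pool.Agent.Lib.MP_1a91b9_ntX.LF.Defs
import Pool.Agent.Lib.MP_1a91b9_ntT.DS.Tower

/-!
# The condition `Nice` on the ramification: subfields, Galois extensions of degree prime to `6`
-/

set_option autoImplicit false

namespace Pool.Agent.Lib.MP_1a91b9_ntX.LF

open NumberField IsDedekindDomain Pool.Agent.Lib.MP_1a91b9_ntT
open Pool.Agent.Lib.MP_1a91b9_ntT.DB

universe u

/-- the ramification index divides the degree of a Galois extension -/
theorem ram_dvd {k L : Type u} [Field k] [NumberField k] [Field L] [NumberField L]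
    [Algebra k L] [IsGalois k L] (W : HeightOneSpectrum (𝓞 L)) :
    W.asIdeal.ramificationIdx (𝓞 k) ∣ Module.finrank k L := by
  have i1 : (W.under (𝓞 k)).asIdeal.IsPrime := (W.under (𝓞 k)).isPrime
  have i1m : (W.under (𝓞 k)).asIdeal.IsMaximal := (W.under (𝓞 k)).isMaximal
  have i2 : W.asIdeal.IsPrime := W.isPrime
  have i3 : W.asIdeal.LiesOver (W.under (𝓞 k)).asIdeal := ⟨rfl⟩
  have hfund := Ideal.ncard_primesOver_mul_ramificationIdxIn_mul_inertiaDegIn
    (W.under (𝓞 k)).asIdeal (𝓞 L) Gal(L/k)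
  rw [IsGalois.card_aut_eq_finrank, Ideal.ramificationIdxIn_eq_ramificationIdx
    (W.under (𝓞 k)).asIdeal W.asIdeal Gal(L/k)] at hfund
  rw [← hfund]
  exact (Dvd.intro _ rfl).mul_left _

theorem nat_mem_under {N L : Type u} [Field N] [NumberField N] [Field L] [NumberField L]
    [Algebra N L] (w : HeightOneSpectrum (𝓞 L)) (n : ℕ) :
    (n : 𝓞 N) ∈ (w.under (𝓞 N)).asIdeal ↔ (n : 𝓞 L) ∈ w.asIdeal := by
  change algebraMap (𝓞 N) (𝓞 L) (n : 𝓞 N) ∈ w.asIdeal ↔ _
  rw [map_natCast]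

/-- a place above `v` -/
theorem nice_over {N L : Type u} [Field N] [NumberField N] [Field L] [NumberField L]
    [Algebra N L] (v : HeightOneSpectrum (𝓞 N)) :
    ∃ w : HeightOneSpectrum (𝓞 L), w.under (𝓞 N) = v := by
  have i3 : v.asIdeal.IsPrime := v.isPrime
  obtain ⟨Q, hQ1, hQ2⟩ := (inferInstance : Nonempty (v.asIdeal.primesOver (𝓞 L)))
  have hb : Q ≠ ⊥ := Ideal.ne_bot_of_mem_primesOver v.ne_bot ⟨hQ1, hQ2⟩
  refine ⟨⟨Q, hQ1, hb⟩, ?_⟩
  apply HeightOneSpectrum.ext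
  exact hQ2.over.symm

theorem int_mem_under {N L : Type u} [Field N] [NumberField N] [Field L] [NumberField L]
    [Algebra N L] (w : HeightOneSpectrum (𝓞 L)) (n : ℤ) :
    (n : 𝓞 N) ∈ (w.under (𝓞 N)).asIdeal ↔ (n : 𝓞 L) ∈ w.asIdeal := by
  change algebraMap (𝓞 N) (𝓞 L) (n : 𝓞 N) ∈ w.asIdeal ↔ _
  rw [map_intCast]

/-- `NiceAt` goes down to subfields. -/
theorem NiceAt.down {N L : Type u} [Field N] [NumberField N] [Field L] [NumberField L]
    [Algebra N L] {w : HeightOneSpectrum (𝓞 L)} (h : NiceAt w) : NiceAt (w.under (𝓞 N)) := by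
  intro p hp hv
  obtain ⟨h1, h2, h3⟩ := h p hp ((nat_mem_under w p).1 hv)
  have h4 : od w (p : L) = w.asIdeal.ramificationIdx (𝓞 N) * od (w.under (𝓞 N)) (p : N) := by
    have h5 := od_map (k := N) w (p : N)
    rwa [map_natCast] at h5
  rw [h4] at h1 h2 h3
  exact ⟨fun h => h1 (h.mul_left _), fun h5 h => h2 h5 (h.mul_left _),
    fun h => h3 (h.mul_left _)⟩

/-- `Nice` goes down to subfields. -/
theorem Nice.down [DD] {N L : Type u} [Field N] [NumberField N] [Field L] [NumberField L]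
    [Algebra N L] (h : Nice L) : Nice N := by
  intro v hv
  obtain ⟨w, rfl⟩ := nice_over (L := L) v
  exact (h w ((int_mem_under w _).1 hv)).down

/-- `NiceAt` goes up if the ramification index is prime to `6`. -/
theorem NiceAt.up {N L : Type u} [Field N] [NumberField N] [Field L] [NumberField L]
    [Algebra N L] {w : HeightOneSpectrum (𝓞 L)}
    (h5 : (w.asIdeal.ramificationIdx (𝓞 N)).Coprime 6) (h : NiceAt (w.under (𝓞 N))) :
    NiceAt w := by
  intro p hp hw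
  obtain ⟨h1, h2, h3⟩ := h p hp ((nat_mem_under w p).2 hw)
  have h4 : od w (p : L) = w.asIdeal.ramificationIdx (𝓞 N) * od (w.under (𝓞 N)) (p : N) := by
    have h5 := od_map (k := N) w (p : N)
    rwa [map_natCast] at h5
  have h6 : IsCoprime ((w.asIdeal.ramificationIdx (𝓞 N) : ℕ) : ℤ) ((6 : ℕ) : ℤ) :=
    Nat.isCoprime_iff_coprime.2 h5
  have c2 : IsCoprime (2 : ℤ) ((w.asIdeal.ramificationIdx (𝓞 N) : ℕ) : ℤ) :=
    (IsCoprime.of_isCoprime_of_dvd_right h6 (by norm_num)).symm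
  have c3 : IsCoprime (3 : ℤ) ((w.asIdeal.ramificationIdx (𝓞 N) : ℕ) : ℤ) :=
    (IsCoprime.of_isCoprime_of_dvd_right h6 (by norm_num)).symm
  have c4 : IsCoprime (4 : ℤ) ((w.asIdeal.ramificationIdx (𝓞 N) : ℕ) : ℤ) := by
    have e : (4 : ℤ) = 2 ^ 2 := by norm_num
    rw [e]
    exact c2.pow_left
  rw [h4]
  exact ⟨fun h => h1 (c3.dvd_of_dvd_mul_left h), fun h7 h => h2 h7 (c2.dvd_of_dvd_mul_left h),
    fun h => h3 (c4.dvd_of_dvd_mul_left h)⟩

/-- `Nice` goes up if the ramification indices above `6 D` are prime to `6`. -/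
theorem Nice.up_ram [DD] {N L : Type u} [Field N] [NumberField N] [Field L] [NumberField L]
    [Algebra N L] (hr : ∀ w : HeightOneSpectrum (𝓞 L), ((6 * DD.D : ℤ) : 𝓞 L) ∈ w.asIdeal →
      (w.asIdeal.ramificationIdx (𝓞 N)).Coprime 6) (h : Nice N) : Nice L :=
  fun w hw => NiceAt.up (hr w hw) (h _ ((int_mem_under w _).2 hw))

/-- `Nice` goes up in Galois extensions of degree prime to `6`. -/
theorem Nice.up [DD] {N L : Type u} [Field N] [NumberField N] [Field L] [NumberField L]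
    [Algebra N L] [IsGalois N L] (hd : (Module.finrank N L).Coprime 6) (h : Nice N) : Nice L :=
  Nice.up_ram (fun w _ => Nat.Coprime.coprime_dvd_left (ram_dvd w) hd) h

private theorem nice_ind {m n : ℤ} (h : (m : K) + (n : K) * om = 0) : m = 0 ∧ n = 0 := by
  have hn : n = 0 := by
    by_contra hn
    have hnK : (n : K) ≠ 0 := Int.cast_ne_zero.2 hn
    have e : om = ((-(m : ℚ) / n : ℚ) : K) := by
      push_cast
      field_simp
      linear_combination h
    have hq : om ^ 2 + om + 1 = 0 := S3.om_quad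
    rw [e] at hq
    have h2 : ((-(m : ℚ) / n) ^ 2 + (-(m : ℚ) / n) + 1 : ℚ) = 0 := by exact_mod_cast hq
    nlinarith [sq_nonneg ((-(m : ℚ) / n) + 1 / 2)]
  subst hn
  rw [Int.cast_zero, zero_mul, add_zero] at h
  exact ⟨by exact_mod_cast h, rfl⟩

/-- an integer of `K` whose square is divisible by `p` is divisible by `p` -/
private theorem nice_sq {p : ℕ} (hp : p.Prime) (h3 : p ≠ 3) {y : 𝓞 K} (h : (p : 𝓞 K) ∣ y ^ 2) :
    (p : 𝓞 K) ∣ y := by
  obtain ⟨m, n, hy⟩ := S3.exists_coords y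
  obtain ⟨z, hz⟩ := h
  obtain ⟨m', n', hz'⟩ := S3.exists_coords z
  have hq : om ^ 2 + om + 1 = 0 := S3.om_quad
  have h1 : (y : K) ^ 2 = (p : K) * z := by
    have h2 := congrArg (algebraMap (𝓞 K) K) hz
    rw [map_pow, map_mul, map_natCast] at h2
    exact h2
  rw [hy, hz'] at h1
  have h4 : ((m ^ 2 - n ^ 2 - p * m' : ℤ) : K) + ((2 * m * n - n ^ 2 - p * n' : ℤ) : K) *
      om = 0 := by
    push_cast
    linear_combination h1 - (n : K) ^ 2 * hq
  obtain ⟨h5, h6⟩ := nice_ind h4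
  have hpp : Prime (p : ℤ) := Nat.prime_iff_prime_int.1 hp
  have hn : (p : ℤ) ∣ n * (2 * m - n) := ⟨n', by linear_combination h6⟩
  have hm : (p : ℤ) ∣ m ^ 2 - n ^ 2 := ⟨m', by linear_combination h5⟩
  have key : (p : ℤ) ∣ m ∧ (p : ℤ) ∣ n := by
    rcases hpp.dvd_or_dvd hn with hn1 | hn1
    · refine ⟨?_, hn1⟩
      apply hpp.dvd_of_dvd_pow (n := 2)
      have h7 : (p : ℤ) ∣ n ^ 2 := Dvd.dvd.pow hn1 (by norm_num)
      have h8 := dvd_add hm h7
      rwa [sub_add_cancel] at h8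
    · have h7 : (p : ℤ) ∣ 3 * m ^ 2 := by
        obtain ⟨c, hc⟩ := hn1
        obtain ⟨d, hd⟩ := hm
        refine ⟨-d + c * (2 * m + n), ?_⟩
        linear_combination -hd + (2 * m + n) * hc
      have h8 : (p : ℤ) ∣ m := by
        rcases hpp.dvd_or_dvd h7 with h9 | h9
        · exfalso
          have h10 : p ∣ 3 := by exact_mod_cast h9
          exact h3 ((Nat.prime_dvd_prime_iff_eq hp Nat.prime_three).1 h10)
        · exact hpp.dvd_of_dvd_pow h9
      refine ⟨h8, ?_⟩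
      have h9 := dvd_sub (Dvd.dvd.mul_left h8 2) hn1
      rwa [sub_sub_cancel] at h9
  obtain ⟨⟨m1, hm1⟩, ⟨n1, hn1⟩⟩ := key
  refine ⟨(m1 : 𝓞 K) + n1 * S3.omO, ?_⟩
  apply RingOfIntegers.ext
  have ho : algebraMap (𝓞 K) K S3.omO = om := rfl
  have e : (((p : 𝓞 K) * ((m1 : 𝓞 K) + n1 * S3.omO) : 𝓞 K) : K) =
      (p : K) * ((m1 : K) + n1 * om) := by
    change algebraMap (𝓞 K) K _ = _
    rw [map_mul, map_natCast, map_add, map_intCast, map_mul, map_intCast, ho]
  rw [e, hy, hm1, hn1]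
  push_cast
  ring

private theorem nice_pow {v : HeightOneSpectrum (𝓞 K)} {p : ℕ} (hp : p.Prime) {n : ℕ}
    (h : (n : ℤ) ≤ od v (p : K)) : (p : 𝓞 K) ∈ v.asIdeal ^ n := by
  have hp0 : (p : K) ≠ 0 := Nat.cast_ne_zero.2 hp.ne_zero
  have e0 : algebraMap (𝓞 K) K (p : 𝓞 K) = (p : K) := map_natCast (algebraMap (𝓞 K) K) p
  rw [← v.intValuation_le_pow_iff_mem, ← v.valuation_of_algebraMap (K := K)]
  change v.valuation K (algebraMap (𝓞 K) K (p : 𝓞 K)) ≤ _
  rw [e0, val_eq v hp0, WithZero.exp_le_exp]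
  omega

/-- The ramification over `K`. -/
theorem nice_at_K (v : HeightOneSpectrum (𝓞 K)) : NiceAt v := by
  intro p hp hv
  have hp0 : (p : K) ≠ 0 := Nat.cast_ne_zero.2 hp.ne_zero
  have hpO : (p : 𝓞 K) ≠ 0 := Nat.cast_ne_zero.2 hp.ne_zero
  have e0 : algebraMap (𝓞 K) K (p : 𝓞 K) = (p : K) := map_natCast (algebraMap (𝓞 K) K) p
  have h1 : 0 < od v (p : K) := by
    rw [← val_lt_one_iff v hp0, ← e0]
    exact (v.valuation_lt_one_iff_mem (K := K) (p : 𝓞 K)).2 hv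
  have h2 : od v (p : K) ≤ 2 := by
    by_contra hc
    have h3 := nice_pow hp (n := 3) (v := v) (by push_cast; omega)
    have h4 : Ideal.absNorm (v.asIdeal ^ 3) ∣ p ^ 2 := by
      rw [← S4.u4_absNorm_p (K := K) p]
      exact Ideal.absNorm_dvd_absNorm_of_le ((Ideal.span_singleton_le_iff_mem _).2 h3)
    rw [map_pow] at h4
    have h5 : Ideal.absNorm v.asIdeal ∣ p ^ 2 := (dvd_pow_self _ (by norm_num)).trans h4
    obtain ⟨j, hj, hj2⟩ := (Nat.dvd_prime_pow hp).1 h5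
    have hj0 : j ≠ 0 := by
      rintro rfl
      rw [pow_zero, Ideal.absNorm_eq_one_iff] at hj2
      exact v.isPrime.ne_top hj2
    rw [hj2, ← pow_mul, Nat.pow_dvd_pow_iff_le_right hp.one_lt] at h4
    omega
  have h3 : p ≠ 3 → od v (p : K) ≠ 2 := by
    intro h3 hc
    have h4 := nice_pow hp (n := 2) (v := v) (by push_cast; omega)
    obtain ⟨J, hJ⟩ : v.asIdeal ^ 2 ∣ Ideal.span {(p : 𝓞 K)} := by
      rw [Ideal.dvd_span_singleton]
      exact h4
    have hJ0 : J ≠ 0 := by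
      rintro rfl
      rw [mul_zero, Ideal.zero_eq_bot, Ideal.span_singleton_eq_bot] at hJ
      exact hpO hJ
    have hle : ¬ v.asIdeal * J ≤ Ideal.span {(p : 𝓞 K)} := by
      intro h6
      have h7 : Ideal.span {(p : 𝓞 K)} ∣ v.asIdeal * J := Ideal.dvd_iff_le.2 h6
      rw [hJ, pow_two, mul_assoc] at h7
      have h8 : v.asIdeal * (v.asIdeal * J) ∣ 1 * (v.asIdeal * J) := by rwa [one_mul]
      have h9 : v.asIdeal ∣ 1 :=
        (mul_dvd_mul_iff_right (mul_ne_zero v.ne_bot hJ0)).1 h8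
      have h10 : v.asIdeal = ⊤ := by
        rw [← Ideal.one_eq_top]
        exact le_antisymm (by rw [Ideal.one_eq_top]; exact le_top) (Ideal.dvd_iff_le.1 h9)
      exact v.isPrime.ne_top h10
    obtain ⟨y, hy1, hy2⟩ := SetLike.not_le_iff_exists.1 hle
    have h6 : y ^ 2 ∈ Ideal.span {(p : 𝓞 K)} := by
      have h7 : y * y ∈ (v.asIdeal * J) * (v.asIdeal * J) := Ideal.mul_mem_mul hy1 hy1
      have e : (v.asIdeal * J) * (v.asIdeal * J) = Ideal.span {(p : 𝓞 K)} * J := by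
        rw [hJ, pow_two, mul_mul_mul_comm, mul_assoc (v.asIdeal * v.asIdeal) J J]
      have h8 : Ideal.span {(p : 𝓞 K)} * J ≤ Ideal.span {(p : 𝓞 K)} := Ideal.mul_le_left
      rw [pow_two]
      rw [e] at h7
      exact h8 h7
    exact hy2 (Ideal.mem_span_singleton.2 (nice_sq hp h3 (Ideal.mem_span_singleton.1 h6)))
  exact ⟨by omega, fun h4 => by have := h3 h4; omega, by omega⟩

theorem nice_K [DD] : Nice K := fun v _ => nice_at_K v

end Pool.Agent.Lib.MP_1a91b9_ntX.LF
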